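import Pool.Agent.Helper95_CM.StB

/-!
# Block FR (Frobenius over a base ring) and block MAT (matrix level, fixed prime)
Statements for the CM project (MP_31342c_an).
-/

set_option autoImplicit false
set_option linter.unusedSectionVars false

noncomputable section

namespace Pool.Agent.Helper95_CM

open MvPolynomial

/-- base ring data: `p`-torsion free, with `ℤ_p → 𝒪` and an endomorphism fixing `ℤ_p` -/
structure OBase (p : ℕ) [Fact p.Prime] {𝒪 : Type} [CommRing 𝒪] (z : ℤ_[p] →+* 𝒪)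
    (φ : 𝒪 →+* 𝒪) : Prop where
  tf : ∀ x : 𝒪, (p : 𝒪) * x = 0 → x = 0
  lin : ∀ a : ℤ_[p], φ (z a) = z a

/-! ### FR -/

/-- EE. The numbers `e_j = (-p)^j/j!`. -/
def EeStmt : Prop := ∀ (p : ℕ) [Fact p.Prime], 3 ≤ p →
  ee p 0 = 1 ∧ (∀ j, (j.factorial : ℤ_[p]) * ee p j = (-(p : ℤ_[p])) ^ j) ∧
  (∀ j : ℕ, ((j : ℤ_[p]) + 1) * ee p (j + 1) = -(p : ℤ_[p]) * ee p j) ∧
  (∀ j, 1 ≤ j → (p : ℤ_[p]) ∣ ee p j) ∧
  (∀ N j, 2 * N ≤ j + 1 → (p : ℤ_[p]) ^ N ∣ ee p j)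

/-- GAM. The numbers `γ_l`, `u_l`, `⌈l/p⌉`. -/
def GamStmt : Prop := ∀ (p : ℕ), p.Prime → 3 ≤ p →
  gam p 0 = 1 ∧ gam p 1 = p ∧ mm p 0 = 0 ∧
  (∀ l, 1 ≤ l → ¬ p ∣ l → gam p (l + 1) = l * gam p l ∧ mm p (l + 1) = mm p l ∧
    l + 1 ≤ p * mm p l) ∧
  (∀ m, gam p (p * m + 1) = p * gam p (p * m) ∧ mm p (p * m) = m ∧ mm p (p * m + 1) = m + 1) ∧
  (∀ l, gam p (p * l) = p ^ l * uu p l ∧ ¬ p ∣ uu p l) ∧
  (∀ l, l ≤ p * mm p l) ∧ (∀ l, 1 ≤ l → l ≤ p → mm p l = 1)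

/-- FRB. The series ring `LL q ℤ_p` is a Frobenius base. -/
def FrbStmt : Prop := ∀ (q p : ℕ) [Fact p.Prime],
  FBase (R := LL q ℤ_[p]) p (kL q ℤ_[p]) (phL q ℤ_[p] p) (thLt q ℤ_[p]) ∧
  FBase (R := LL q ℤ_[p]) p (kL q ℤ_[p]) (phL q ℤ_[p] p) (thLw q ℤ_[p]) ∧
  OBase p (kO q ℤ_[p]) (phO q ℤ_[p] p) ∧
  (∀ y : OO q ℤ_[p], (p : OO q ℤ_[p]) ∣ phO q ℤ_[p] p y → (p : OO q ℤ_[p]) ∣ y)

/-- DLE. Existence of `Δ`, in the cone. -/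
def DleStmt : Prop := ∀ (n M p : ℕ) [Fact p.Prime] (R : Type) [CommRing R] (z : ℤ_[p] →+* R)
  (f : R →+* R) (d : R →+ R) (c : Grid n M → R), FBase p z f d →
  (∃ Dl : PP n R, IsDl p f c Dl) ∧
  (∀ Dl : PP n R, IsDl p f c Dl → IsCone M false Dl ∧ HasLev p Dl)

/-- a `p`-saturated subring stable under all the structure -/
structure SubB {n M : ℕ} (p : ℕ) [Fact p.Prime] {R : Type} [CommRing R] (z : ℤ_[p] →+* R)
    (f : R →+* R) (d : R →+ R) (c : Grid n M → R) (S : Subring R) : Prop where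
  cS : ∀ β, c β ∈ S
  zS : ∀ a, z a ∈ S
  sat : ∀ x, (p : R) * x ∈ S → x ∈ S
  fS : ∀ x ∈ S, f x ∈ S
  dS : ∀ x ∈ S, d x ∈ S

/-- PCO. `Psi` preserves the cones, with level bounds and control of the coefficients. -/
def PcoStmt : Prop := ∀ (n M p : ℕ) (b : Bool) [Fact p.Prime] (R : Type) [CommRing R]
  (z : ℤ_[p] →+* R) (f : R →+* R) (d : R →+ R) (c : Grid n M → R) (Dl : PP n R) (J l : ℕ)
  (S : Subring R), FBase p z f d → IsDl p f c Dl → SubB p z f d c S →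
  (∀ s, coeff s Dl ∈ S) ∧
  ∀ x : PP n R, IsCone M b x → LevLe l x → (∀ s, coeff s x ∈ S) →
    IsCone M b (Psi p z J (Fp c) Dl x) ∧ LevLe (mm p l + J) (Psi p z J (Fp c) Dl x) ∧
    (∀ s, coeff s (Psi p z J (Fp c) Dl x) ∈ S)

/-- PSO. The two commutation relations of `Psi_J`, with explicit error terms. -/
def PsoStmt : Prop := ∀ (n M p : ℕ) (b : Bool) [Fact p.Prime] (R : Type) [CommRing R]
  (z : ℤ_[p] →+* R) (f : R →+* R) (d : R →+ R) (c : Grid n M → R) (Dl : PP n R) (J l : ℕ)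
  (S : Subring R), 1 ≤ n → 1 ≤ M → 3 ≤ p → 1 ≤ J → FBase p z f d → IsDl p f c Dl →
  SubB p z f d c S →
  ∀ x : PP n R, IsCone M b x → LevLe l x → (∀ s, coeff s x ∈ S) →
    (∀ i : Fin (n + 1), ∃ (τ : Fin (n + 1) → PP n R) (ρ : PP n R),
      (∀ j, IsCone M b (τ j) ∧ ∀ s, coeff s (τ j) ∈ S) ∧ IsCone M b ρ ∧
      (∀ s, coeff s ρ ∈ S) ∧ Supp (fun s => J ≤ s 0 ∧ s 0 ≤ J + mm p l) ρ ∧
      Psi p z J (Fp c) Dl (Dop c i x) =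
        (∑ j, Dop (fun β => f (c β)) j (τ j)) + C (z (p * ee p (J - 1))) * ρ) ∧
    (∃ (τ : Fin (n + 1) → PP n R) (ρ : PP n R),
      (∀ j, IsCone M b (τ j) ∧ ∀ s, coeff s (τ j) ∈ S) ∧ IsCone M b ρ ∧
      (∀ s, coeff s ρ ∈ S) ∧ Supp (fun s => J ≤ s 0 ∧ s 0 ≤ J + mm p l) ρ ∧
      Psi p z J (Fp c) Dl (nab d c x) = nab d (fun β => f (c β)) (Psi p z J (Fp c) Dl x) +
        (∑ j, Dop (fun β => f (c β)) j (τ j)) + C (z (p * ee p (J - 1))) * ρ)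

/-- PSD. `Psi` preserves the exact elements modulo `p^N`. -/
def PsdStmt : Prop := ∀ (n M p : ℕ) (b : Bool) (A : CAD n M b) [Fact p.Prime] (R : Type)
  [CommRing R] (z : ℤ_[p] →+* R) (f : R →+* R) (d : R →+ R) (c : Grid n M → R) (Dl : PP n R)
  (N : ℕ), 1 ≤ n → 1 ≤ M → 3 ≤ p → 1 ≤ N → FBase p z f d → IsDl p f c Dl → IsUnit (dt A c) →
  ∀ (i : Fin (n + 1)) (σ : PP n R), IsCone M b σ → ∀ s,
    (p : R) ^ N ∣ crd A (fun β => f (c β)) (Psi p z (2 * N) (Fp c) Dl (Dop c i σ)) s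

/-- PSN. `Psi` commutes with `∇_d` modulo exact elements and `p^N`. -/
def PsnStmt : Prop := ∀ (n M p : ℕ) (b : Bool) (A : CAD n M b) [Fact p.Prime] (R : Type)
  [CommRing R] (z : ℤ_[p] →+* R) (f : R →+* R) (d : R →+ R) (c : Grid n M → R) (Dl : PP n R)
  (N : ℕ), 1 ≤ n → 1 ≤ M → 3 ≤ p → 1 ≤ N → FBase p z f d → IsDl p f c Dl → IsUnit (dt A c) →
  ∀ (x : PP n R), IsCone M b x → ∀ s,
    (p : R) ^ N ∣ crd A (fun β => f (c β)) (Psi p z (2 * N) (Fp c) Dl (nab d c x)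
      - nab d (fun β => f (c β)) (Psi p z (2 * N) (Fp c) Dl x)) s

/-- PMX. The matrix `Pm` computes `Psi` on classes. -/
def PmxStmt : Prop := ∀ (n M p : ℕ) (b : Bool) (A : CAD n M b) [Fact p.Prime] (R : Type)
  [CommRing R] (z : ℤ_[p] →+* R) (f : R →+* R) (d : R →+ R) (c : Grid n M → R) (Dl : PP n R)
  (N : ℕ), 1 ≤ n → 1 ≤ M → 3 ≤ p → 1 ≤ N → FBase p z f d → IsDl p f c Dl → IsUnit (dt A c) →
  ∀ (x : PP n R), IsCone M b x → ∀ s,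
    (p : R) ^ N ∣ crd A (fun β => f (c β)) (Psi p z (2 * N) (Fp c) Dl x) s
      - ((Pm A p z N f c Dl).mulVec (crd A c x)) s

/-- CPM. Compatibility of `Pm` with the connection. -/
def CpmStmt : Prop := ∀ (n M p : ℕ) (b : Bool) (A : CAD n M b) [Fact p.Prime] (R : Type)
  [CommRing R] (z : ℤ_[p] →+* R) (f : R →+* R) (d : R →+ R) (c : Grid n M → R) (Dl : PP n R)
  (N : ℕ), 1 ≤ n → 1 ≤ M → 3 ≤ p → 1 ≤ N → FBase p z f d → IsDl p f c Dl → IsUnit (dt A c) →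
  Cong ((p : R) ^ N)
    ((Pm A p z N f c Dl).map d + (p : R) • ((Rm A d c).map f * Pm A p z N f c Dl))
    (Pm A p z N f c Dl * Rm A d c)

/-- EMX. `P Θ = E diag(p^l)`, `E = 1` mod `p`. -/
def EmxStmt : Prop := ∀ (n M p : ℕ) (b : Bool) (A : CAD n M b) [Fact p.Prime] (R : Type)
  [CommRing R] (z : ℤ_[p] →+* R) (f : R →+* R) (d : R →+ R) (c : Grid n M → R) (Dl : PP n R)
  (N : ℕ), 1 ≤ n → 1 ≤ M → 3 ≤ p → 1 ≤ N → FBase p z f d → IsDl p f c Dl → IsUnit (dt A c) →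
  Cong (p : R) (Em A p z N f c Dl) 1 ∧
  Cong ((p : R) ^ N) (Pm A p z N f c Dl * Thm A p f c)
    (Em A p z N f c Dl * Matrix.diagonal (fun s : A.Bas => (p : R) ^ (s.1 0)))

/-- PFM. `P F = p^L` modulo `p^N`, and the columns of `F` of low level are divisible by `p`. -/
def PfmStmt : Prop := ∀ (n M p : ℕ) (b : Bool) (A : CAD n M b) [Fact p.Prime] (R : Type)
  [CommRing R] (z : ℤ_[p] →+* R) (f : R →+* R) (d : R →+ R) (c : Grid n M → R) (Dl : PP n R)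
  (N : ℕ), 1 ≤ n → 1 ≤ M → 3 ≤ p → 1 ≤ N → FBase p z f d → IsDl p f c Dl → IsUnit (dt A c) →
  Cong ((p : R) ^ N) (Pm A p z N f c Dl * Fm A p z N f c Dl)
    ((p : R) ^ (Lb n b) • (1 : Matrix A.Bas A.Bas R)) ∧
  (∀ s : A.Bas, s.1 0 < Lb n b → ∀ s', (p : R) ∣ Fm A p z N f c Dl s' s)

/-- PFP. From `P F = p^L` and the compatibility of `P` to a full Frobenius structure, with loss
of precision. -/
def PfpStmt : Prop := ∀ (p : ℕ) [Fact p.Prime] (I : Type) [Fintype I] [DecidableEq I] (R : Type)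
  [CommRing R] (z : ℤ_[p] →+* R) (f : R →+* R) (d : R →+ R) (N L : ℕ) (Q P F : Matrix I I R),
  FBase p z f d → L * Fintype.card I + L + 1 ≤ N →
  Cong ((p : R) ^ N) (P * F) ((p : R) ^ L • (1 : Matrix I I R)) →
  Cong ((p : R) ^ N) (P.map d + (p : R) • (Q.map f * P)) (P * Q) →
  FStr f d p (N - (L * Fintype.card I + L)) L Q P F

/-- LV1. `Psi` on level one modulo `p²`. -/
def Lv1Stmt : Prop := ∀ (n M p : ℕ) (b : Bool) [Fact p.Prime] (R : Type)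
  [CommRing R] (z : ℤ_[p] →+* R) (f : R →+* R) (d : R →+ R) (c : Grid n M → R) (Dl : PP n R)
  (J : ℕ), 3 ≤ p → 1 ≤ J → FBase p z f d → IsDl p f c Dl →
  ∀ x : PP n R, HasLev 1 x → IsCone M b x → ∃ τ : PP n R, IsCone M b τ ∧
    Psi p z J (Fp c) Dl x =
      C (p : R) * psi p (x * Fp c ^ (p - 1)) + C ((p : R) ^ 2) * τ

/-- bound for the pole orders -/
def polB (n e N : ℕ) : ℕ := e * (n + 2 + (N + 1) * (2 * N + n + 2))

/-- POL. Pole orders of `P` and `F` for a base of Laurent series. -/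
def PolStmt : Prop := ∀ (n M p : ℕ) (b : Bool) (A : CAD n M b) [Fact p.Prime] (𝒪 : Type)
  [CommRing 𝒪] (z : ℤ_[p] →+* LaurentSeries 𝒪) (φ : 𝒪 →+* 𝒪) (c : Grid n M → LaurentSeries 𝒪)
  (Dl : PP n (LaurentSeries 𝒪)) (N e : ℕ), 1 ≤ n → 1 ≤ M → 3 ≤ p → 1 ≤ N →
  FBase p z (phT p φ) (tht 𝒪) → (∀ a, OrdGe 0 (z a)) → IsDl p (phT p φ) c Dl →
  IsUnit (dt A c) → (∀ β, OrdGe 0 (c β)) → OrdGe (-(e : ℤ)) (Ring.inverse (dt A c)) →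
  PolLe (p * polB n e N) (Pm A p z N (phT p φ) c Dl) ∧
  PolLe (p * polB n e N) (Fm A p z N (phT p φ) c Dl)

/-! ### MAT: fixed prime, Laurent series over a torsion free base -/

/-- Frobenius structures of all precisions -/
def FAll {I 𝒪 : Type} [Fintype I] [DecidableEq I] [CommRing 𝒪] (p L : ℕ) (φ : 𝒪 →+* 𝒪)
    (Q : Matrix I I (LaurentSeries 𝒪)) : Prop :=
  ∀ N, ∃ P F, FStr (phT p φ) (tht 𝒪) p N L Q P F

/-- GROW. Divided powers of the connection. -/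
def GrowStmt : Prop := ∀ (p : ℕ) [Fact p.Prime] (𝒪 : Type) [CommRing 𝒪] (z : ℤ_[p] →+* 𝒪)
  (φ : 𝒪 →+* 𝒪) (I : Type) [Fintype I] [DecidableEq I] (L : ℕ)
  (Q : Matrix I I (LaurentSeries 𝒪)), OBase p z φ → FAll p L φ Q →
  ∀ (i : ℕ) (a : ℤ_[p]) (x : I → LaurentSeries 𝒪), i < p ^ 2 →
    ∃ y : I → LaurentSeries 𝒪, (i.factorial : LaurentSeries 𝒪) • y =
      (p : LaurentSeries 𝒪) ^ (2 * L) • dsc (tht 𝒪) Q (HahnSeries.C (z a)) i x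

/-- PCURV. Nilpotent `p`-curvature. -/
def PcurvStmt : Prop := ∀ (p : ℕ) [Fact p.Prime] (𝒪 : Type) [CommRing 𝒪] (z : ℤ_[p] →+* 𝒪)
  (φ : 𝒪 →+* 𝒪) (I : Type) [Fintype I] [DecidableEq I] (L : ℕ)
  (Q : Matrix I I (LaurentSeries 𝒪)), OBase p z φ → FAll p L φ Q → 2 * L + 1 < p →
  ∀ x : I → LaurentSeries 𝒪, ∃ y : I → LaurentSeries 𝒪,
    ((nbE (tht 𝒪) Q ^ p - nbE (tht 𝒪) Q) ^ (2 * L + 1)) x = (p : LaurentSeries 𝒪) • y

/-- DIVOP. The divided power operators `p^(2L) C(∇ + a, i)` as additive maps. -/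
def DivopStmt : Prop := ∀ (p : ℕ) [Fact p.Prime] (𝒪 : Type) [CommRing 𝒪] (z : ℤ_[p] →+* 𝒪)
  (φ : 𝒪 →+* 𝒪) (I : Type) [Fintype I] [DecidableEq I] (L : ℕ)
  (Q : Matrix I I (LaurentSeries 𝒪)), OBase p z φ → FAll p L φ Q →
  ∀ (i : ℕ) (a : ℤ_[p]), i < p ^ 2 →
    ∃ G : (I → LaurentSeries 𝒪) →+ (I → LaurentSeries 𝒪),
      (∀ x, (i.factorial : LaurentSeries 𝒪) • G x =
        (p : LaurentSeries 𝒪) ^ (2 * L) • dsc (tht 𝒪) Q (HahnSeries.C (z a)) i x) ∧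
      (∀ x, G (nbv (tht 𝒪) Q x) = nbv (tht 𝒪) Q (G x)) ∧
      (PolF Q → ∀ (B : ℤ) (x : I → LaurentSeries 𝒪), (∀ k, OrdGe B (x k)) →
        ∀ k, OrdGe B (G x k))

/-- WOP. Binomials `T = p^(2L+1) C(∇ + b, n)` and the divided difference `W` at `a`:
`T x = p^(2L+1) C(a + b, n) x + W (∇ x - a x)`. -/
def WopStmt : Prop := ∀ (p : ℕ) [Fact p.Prime] (𝒪 : Type) [CommRing 𝒪] (z : ℤ_[p] →+* 𝒪)
  (φ : 𝒪 →+* 𝒪) (I : Type) [Fintype I] [DecidableEq I] (L : ℕ)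
  (Q : Matrix I I (LaurentSeries 𝒪)), OBase p z φ → FAll p L φ Q →
  ∀ (n : ℕ) (b a v : ℤ_[p]), n < p ^ 2 →
    (n.factorial : ℤ_[p]) * v = ∏ j ∈ Finset.range n, (a + b - (j : ℤ_[p])) →
    ∃ T W : (I → LaurentSeries 𝒪) →+ (I → LaurentSeries 𝒪),
      (∀ x, (n.factorial : LaurentSeries 𝒪) • T x =
        (p : LaurentSeries 𝒪) ^ (2 * L + 1) • dsc (tht 𝒪) Q (HahnSeries.C (z b)) n x) ∧
      (∀ x, T x = ((p : LaurentSeries 𝒪) ^ (2 * L + 1) * HahnSeries.C (z v)) • x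
        + W (nbv (tht 𝒪) Q x - (HahnSeries.C (z a) : LaurentSeries 𝒪) • x)) ∧
      (∀ x, T (nbv (tht 𝒪) Q x) = nbv (tht 𝒪) Q (T x)) ∧
      (∀ x, W (nbv (tht 𝒪) Q x) = nbv (tht 𝒪) Q (W x)) ∧
      (PolF Q → ∀ (B : ℤ) (x : I → LaurentSeries 𝒪), (∀ k, OrdGe B (x k)) →
        (∀ k, OrdGe B (T x k)) ∧ (∀ k, OrdGe B (W x k)))

/-- LATSH. Products of shifted annihilating factors move the lattice. -/
def LatshStmt : Prop := ∀ (𝒪 : Type) [CommRing 𝒪] (I : Type) [Fintype I] [DecidableEq I]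
  (Q : Matrix I I (LaurentSeries 𝒪)) (al : List 𝒪), PolF Q →
  ((al.map fun a => mco 0 Q - a • (1 : Matrix I I 𝒪)).prod = 0) →
  ∀ (A B : ℕ) (x : I → LaurentSeries 𝒪), (∀ k, OrdGe (-(A : ℤ)) (x k)) →
    ∀ k, OrdGe (B : ℤ) ((al.foldr (fun a y =>
      dsc (tht 𝒪) Q (HahnSeries.C ((A : 𝒪) - a)) (A + B) y) x) k)

/-- VBIN. Valuation of a product of consecutive differences. -/
def VbinStmt : Prop := ∀ (p : ℕ) [Fact p.Prime] (n N1 : ℕ) (a : ℤ_[p]), 1 ≤ N1 →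
  (∀ j ∈ Finset.range n, ¬ (p : ℤ_[p]) ^ N1 ∣ a - (j : ℤ_[p])) →
  ∃ v : ℤ_[p], (n.factorial : ℤ_[p]) * v = ∏ j ∈ Finset.range n, (a - (j : ℤ_[p])) ∧
    ¬ (p : ℤ_[p]) ^ N1 ∣ v

/-- TRANS. Transfer: no poles modulo a slightly smaller power of `p`. -/
def TransStmt : Prop := ∀ (p : ℕ) [Fact p.Prime] (𝒪 : Type) [CommRing 𝒪] (z : ℤ_[p] →+* 𝒪)
  (φ : 𝒪 →+* 𝒪) (I : Type) [Fintype I] [DecidableEq I] (L N E a : ℕ)
  (Q F : Matrix I I (LaurentSeries 𝒪)), OBase p z φ → FAll p L φ Q → PolF Q →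
  (mco 0 Q) ^ Fintype.card I = 0 → (∀ m : ℤ, 0 < m → m < E → mco m Q = 0) →
  Cong ((p : LaurentSeries 𝒪) ^ N) (F.map (tht 𝒪) + Q * F)
    ((p : LaurentSeries 𝒪) • (F * Q.map (phT p φ))) →
  PolLe a F → a < p * E → a < p ^ 2 →
  PolMod p (N - (2 * L + 1) * Fintype.card I ^ 2) F

/-- EXPP. Exponents are permuted by multiplication by `p`, at one prime. -/
def ExppStmt : Prop := ∀ (p : ℕ) [Fact p.Prime] (𝒪 : Type) [CommRing 𝒪] (z : ℤ_[p] →+* 𝒪)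
  (φ : 𝒪 →+* 𝒪) (I : Type) [Fintype I] [DecidableEq I] (L N N1 C E ρ : ℕ)
  (Q P F : Matrix I I (LaurentSeries 𝒪)) (al : Fin ρ → ℤ_[p]) (a : ℤ_[p])
  (x : I → LaurentSeries 𝒪), OBase p z φ → FAll p L φ Q → PolF Q →
  ((List.ofFn fun l => mco 0 Q - (z (al l)) • (1 : Matrix I I 𝒪)).prod = 0) →
  FStr (phT p φ) (tht 𝒪) p N L Q P F → PolLe (C * p) P → PolLe (C * p) F →
  1 ≤ N1 → 2 * C + 2 < p → 2 * C + 1 ≤ E → (2 * L + 1) * ρ + N1 * ρ + L + 1 ≤ N →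
  (∀ i, OrdGe 0 (x i)) →
  (∀ i, OrdGe (E : ℤ) ((nbv (tht 𝒪) Q x - (HahnSeries.C (z a) : LaurentSeries 𝒪) • x) i)) →
  (∃ i, ¬ (p : 𝒪) ∣ (x i).coeff 0) → (∀ y : 𝒪, (p : 𝒪) ∣ φ y → (p : 𝒪) ∣ y) →
  ∃ l : Fin ρ, ∃ m : ℤ, |m| ≤ (C + 1) * p ∧
    (p : ℤ_[p]) ^ N1 ∣ (p : ℤ_[p]) * a - al l - (m : ℤ_[p])

/-- DUAL. Duality of Frobenius structures. -/
def DualStmt : Prop := ∀ (I : Type) [Fintype I] [DecidableEq I] (R : Type) [CommRing R]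
  (f : R →+* R) (d : R →+ R) (p N L : ℕ) (Q P F : Matrix I I R), FStr f d p N L Q P F →
  FStr f d p N L (-Q.transpose) F.transpose P.transpose

/-- GAU. Gauge invariance of Frobenius structures. -/
def GauStmt : Prop := ∀ (I : Type) [Fintype I] [DecidableEq I] (R : Type) [CommRing R]
  (f : R →+* R) (d : R →+ R) (p N L : ℕ) (Q Q' P F U Ui : Matrix I I R), IsDer d →
  (∀ x, d (f x) = (p : R) * f (d x)) → FStr f d p N L Q P F → Gauge d U Ui Q Q' →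
  FStr f d p N L Q' (Ui.map f * P * U) (Ui * F * U.map f)

end Pool.Agent.Helper95_CM
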