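import Pool.Agent.Helper95_CM.Alg

/-!
# Block CA: the Cohen-Macaulay type presentation (existence of `CAD n M b`)
Statements for the CM project (MP_31342c_an).
-/

set_option autoImplicit false
set_option linter.unusedSectionVars false

noncomputable section

namespace Pool.Agent.Helper95_CM

open MvPolynomial

variable {n : ℕ}

/-- `y`-part of an exponent -/
def uy (s : Expo n) : Fin n → ℕ := fun k => s k.succ

/-- stable decreasing sort of the `y`-exponents -/
def srt (s : Expo n) : Equiv.Perm (Fin n) :=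
  Tuple.sort (fun k => OrderDual.toDual (s k.succ))

/-- sorted values: `V 0 = M l`, `V (r+1) = u (π r)`, `V (n+1) = 0` -/
def Vs (M : ℕ) (s : Expo n) (r : ℕ) : ℕ :=
  if r = 0 then M * s 0 else if h : r - 1 < n then s (srt s ⟨r - 1, h⟩).succ else 0

/-- gaps `λ_r`, `0 ≤ r ≤ n` -/
def lmb (M : ℕ) (s : Expo n) (r : ℕ) : ℕ := Vs M s r - Vs M s (r + 1)

/-- `δ_r`: `1` at descents of `π`, and `1` at `r = 0, n` when `b = true` -/
def dlt (b : Bool) (s : Expo n) (r : ℕ) : ℕ :=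
  if r = 0 ∨ r = n then (if b = true then 1 else 0)
  else if h : r < n then
    (if srt s ⟨r, h⟩ < srt s ⟨r - 1, by omega⟩ then 1 else 0) else 0

/-- reduced exponents: the module generators -/
def IsRed (M : ℕ) (b : Bool) (s : Expo n) : Prop :=
  InCone M b s ∧ ∀ r ≤ n, lmb M s r < M + dlt b s r

/-- vertices of the cube at level 1 -/
def vx (M : ℕ) (S : Finset (Fin n)) : Expo n := mkE 1 (fun k => if k ∈ S then M else 0)

/-- initial segments of a permutation -/
def ini (π : Equiv.Perm (Fin n)) (r : ℕ) : Finset (Fin n) :=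
  Finset.univ.filter fun k => ((π.symm k : Fin n) : ℕ) < r

/-- the top exponent -/
def topE (n M : ℕ) : Expo n := mkE (n + 1) (fun k => M * ((k : ℕ) + 1))

/-- lexicographic order of permutations -/
def PLt (π σ : Equiv.Perm (Fin n)) : Prop :=
  ∃ r : Fin n, (∀ r' < r, π r' = σ r') ∧ π r < σ r

/-- compatibility of a set of vertices with an exponent (weak order condition) -/
def Cpt (s : Expo n) (S : Finset (Fin n)) : Prop :=
  ∀ i j : Fin n, i ∉ S → j ∈ S → s i.succ ≤ s j.succ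

/-- SORT. Adding or removing an initial vertex does not change the sorting permutation. -/
def SortStmt : Prop := ∀ (n M : ℕ) (b : Bool) (s : Expo n), 1 ≤ n → 1 ≤ M → InCone M b s →
  (∀ r ≤ n, InCone M b (s + vx M (ini (srt s) r)) ∧ srt (s + vx M (ini (srt s) r)) = srt s ∧
    (∀ r' ≤ n, lmb M (s + vx M (ini (srt s) r)) r' = lmb M s r' + (if r' = r then M else 0))) ∧
  (∀ r ≤ n, M + dlt b s r ≤ lmb M s r →
    ∃ s1 : Expo n, InCone M b s1 ∧ srt s1 = srt s ∧ s = s1 + vx M (ini (srt s) r)) ∧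
  (∀ r ≤ n, dlt b s r ≤ lmb M s r)

/-- REDFIN. Levels of reduced exponents. -/
def RedFinStmt : Prop := ∀ (n M : ℕ) (b : Bool), 1 ≤ n → 1 ≤ M →
  (∀ s : Expo n, IsRed M b s → s 0 ≤ n ∨ (b = true ∧ s = topE n M)) ∧
  (b = true → IsRed M b (topE n M)) ∧
  (b = false → IsRed M b (0 : Expo n)) ∧
  {s : Expo n | IsRed M b s}.Finite

/-- LEX. A compatible vertex which is not an initial segment increases the sorting permutation. -/
def LexStmt : Prop := ∀ (n M : ℕ) (s : Expo n) (S : Finset (Fin n)), 1 ≤ n → 1 ≤ M → Cpt s S →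
  (∃ r ≤ n, S = ini (srt s) r) ∨ PLt (srt s) (srt (s + vx M S))

/-- weight of an exponent -/
def wgt (M : ℕ) (s : Expo n) : ℕ := ∑ r : Fin n, (r : ℕ) * (M * s 0 - s (srt s r).succ)

/-- WGT. The weight is subadditive, with equality exactly for compatible pairs. -/
def WgtStmt : Prop := ∀ (n M : ℕ) (s : Expo n) (S : Finset (Fin n)), 1 ≤ n → 1 ≤ M →
  InCone M false s →
  wgt M (s + vx M S) ≤ wgt M s + wgt M (vx M S) ∧
  (wgt M (s + vx M S) = wgt M s + wgt M (vx M S) ↔ Cpt s S)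

open Classical in
/-- degenerate multiplication by a vertex -/
def E0 (M : ℕ) (S : Finset (Fin n)) (x : PP n ℚ) : PP n ℚ :=
  x.support.sum fun s => if Cpt s S then monomial (s + vx M S) (coeff s x) else 0

/-- coefficient of the vertex `S` in `Y_i` -/
def vco (M : ℕ) (i : Fin (n + 1)) (S : Finset (Fin n)) : ℕ := vx M S i

/-- degenerate `Y_i` -/
def Y0 (M : ℕ) (i : Fin (n + 1)) (x : PP n ℚ) : PP n ℚ :=
  ∑ S : Finset (Fin n), ((vco M i S : ℕ) : ℚ) • E0 M S x

/-- GEN0. The reduced monomials generate the degenerate module. -/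
def Gen0Stmt : Prop := ∀ (n M : ℕ) (b : Bool) (Q : Submodule ℚ (PP n ℚ)), 1 ≤ n → 1 ≤ M →
  (∀ s, IsRed M b s → mon s ∈ Q) → (∀ i, ∀ x ∈ Q, Y0 M i x ∈ Q) →
  ∀ s, InCone M b s → mon s ∈ Q

/-- sum of the vertices of the chamber of `π` -/
def upi (M : ℕ) (π : Equiv.Perm (Fin n)) : Expo n :=
  ∑ r ∈ Finset.range (n + 1), vx M (ini π r)

/-- GEN0J. Same with the top generator replaced by the degenerate Jacobian. -/
def Gen0JStmt : Prop := ∀ (n M : ℕ) (Q : Submodule ℚ (PP n ℚ)), 1 ≤ n → 1 ≤ M →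
  (∀ s, IsRed M true s → s ≠ topE n M → mon s ∈ Q) → (∀ i, ∀ x ∈ Q, Y0 M i x ∈ Q) →
  (∑ π : Equiv.Perm (Fin n), mon (upi M π)) ∈ Q →
  ∀ s, InCone M true s → mon s ∈ Q

/-- special coefficients over `ℚ[t]`: `t^(wgt)` at the vertices, `0` elsewhere -/
def csp (n M : ℕ) : Grid n M → Polynomial ℚ := fun β =>
  open Classical in
  if ∃ S : Finset (Fin n), gex β = vx M S then Polynomial.X ^ wgt M (gex β) else 0

/-- J0. The Jacobian of the special `F`, in the rescaled basis `t^(wgt s) m_s`, modulo `t`. -/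
def J0Stmt : Prop := ∀ (n M : ℕ), 1 ≤ n → 1 ≤ M → ∀ s : Expo n,
  ∃ a : Polynomial ℚ, coeff s (Jac (csp n M)) =
    Polynomial.X ^ wgt M s *
      (Polynomial.C (((M : ℚ) ^ (2 * n)) *
        ((Finset.univ.filter fun π : Equiv.Perm (Fin n) => upi M π = s).card : ℚ))
        + Polynomial.X * a)

/-- basis elements of the CM presentation -/
def redB (M : ℕ) (b : Bool) : Set (Expo n) := {s | IsRed M b s}

/-- GENL. Each level is generated over the field of fractions, for generic coefficients: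
a nonzero integer polynomial `d` with `d m_s` in the span, level by level. -/
def GenLStmt : Prop := ∀ (n M : ℕ) (b : Bool) (l : ℕ), 1 ≤ n → 1 ≤ M →
  ∃ d : MvPolynomial (Grid n M) ℤ, d ≠ 0 ∧ ∀ s : Expo n, InCone M b s → s 0 = l →
    ∃ (P : Expo n → MvPolynomial (Fin (n + 1)) (MvPolynomial (Grid n M) ℤ))
      (B : Finset (Expo n)), (∀ s' ∈ B, IsRed M b s') ∧
      (∀ s' ∈ B, (P s').IsHomogeneous (l - s' 0) ∧ s' 0 ≤ l) ∧
      C d * mon s = ∑ s' ∈ B, aeval (Yp (gen n M)) (P s') * bbo b (topE n M) (gen n M) s'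

/-- RED. Assembly of the levels `≤ n+2` and extension to all levels. -/
def RedStmt : Prop := ∀ (n M : ℕ) (b : Bool) (B : Finset (Expo n)), 1 ≤ n → 1 ≤ M →
  (∀ s, s ∈ B ↔ IsRed M b s) →
  ∃ Dt : MvPolynomial (Grid n M) ℤ, Dt ≠ 0 ∧ ∀ s : Expo n, InCone M b s →
    ∃ (a : Expo n → MvPolynomial (Grid n M) ℤ)
      (σ : Fin (n + 1) → PP n (MvPolynomial (Grid n M) ℤ)),
      (∀ i, IsCone M b (σ i)) ∧
      (∀ i, Supp (fun s' => s' 0 + 1 = s 0) (σ i)) ∧
      C Dt * mon s = (∑ s' ∈ B with s' 0 = s 0, C (a s') * bbo b (topE n M) (gen n M) s')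
        + ∑ i, Yp (gen n M) i * σ i

/-- CNT. The map `(s', a) ↦ s' + Σ a_r v_r` is injective: the number of pairs of total level `l`
is at most the number of exponents of level `l`. -/
def CntStmt : Prop := ∀ (n M : ℕ) (b : Bool), 1 ≤ n → 1 ≤ M →
  ∃ g : Expo n × (Fin (n + 1) → ℕ) → Expo n,
    (∀ s a, IsRed M b s → InCone M b (g (s, a)) ∧ g (s, a) 0 = s 0 + ∑ r, a r) ∧
    (∀ s a s' a', IsRed M b s → IsRed M b s' → g (s, a) = g (s', a') → s = s' ∧ a = a')

/-- INJ. Freeness, from `RED` and `CNT` (a surjective endomorphism of a finitely generated module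
is injective). -/
def InjStmt : Prop := ∀ (n M : ℕ) (b : Bool) (B : Finset (Expo n))
  (Dt : MvPolynomial (Grid n M) ℤ), 1 ≤ n → 1 ≤ M →
  (∀ s, s ∈ B ↔ IsRed M b s) →
  (∀ s : Expo n, InCone M b s →
    ∃ (a : Expo n → MvPolynomial (Grid n M) ℤ)
      (σ : Fin (n + 1) → PP n (MvPolynomial (Grid n M) ℤ)),
      (∀ i, IsCone M b (σ i)) ∧
      (∀ i, Supp (fun s' => s' 0 + 1 = s 0) (σ i)) ∧
      C Dt * mon s = (∑ s' ∈ B with s' 0 = s 0, C (a s') * bbo b (topE n M) (gen n M) s')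
        + ∑ i, Yp (gen n M) i * σ i) →
  ∀ (R : Type) [CommRing R] (c : Grid n M → R), IsUnit (aeval c Dt) →
    ∀ P : Expo n → MvPolynomial (Fin (n + 1)) R,
      (∑ s ∈ B, aeval (Yp c) (P s) * bbo b (topE n M) c s = 0) → ∀ s ∈ B, P s = 0

/-- CADX. Existence of the Cohen-Macaulay data. -/
def CadStmt : Prop := ∀ (n M : ℕ) (b : Bool), 1 ≤ n → 1 ≤ M → Nonempty (CAD n M b)

end Pool.Agent.Helper95_CM
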