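import Pool.Agent.Helper95_CM.StE
import Pool.Agent.Helper95_CM.CA

/-!
# Assembly of `NokStmt` (CM project, MP_31342c_an)
-/

set_option autoImplicit false
set_option linter.unusedSectionVars false

noncomputable section

namespace Pool.Agent.Helper95_CM

open MvPolynomial

/-- constant coefficient of a product of series without poles modulo `a` -/
lemma coeff_zero_mul_mod {𝒪 : Type} [CommRing 𝒪] (a : 𝒪) (x y : LaurentSeries 𝒪)
    (hx : ∀ m : ℤ, m < 0 → a ∣ x.coeff m) (hy : ∀ m : ℤ, m < 0 → a ∣ y.coeff m) :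
    a ∣ (x * y).coeff 0 - x.coeff 0 * y.coeff 0 := by
  classical
  rw [HahnSeries.coeff_mul]
  set s := Finset.antidiagonal x.isPWO_support y.isPWO_support (0 : ℤ) with hs
  have key : ∀ ij ∈ s, ij ≠ (0, 0) → a ∣ x.coeff ij.1 * y.coeff ij.2 := by
    intro ij hij hne
    rw [hs, Finset.mem_antidiagonal] at hij
    obtain ⟨_, _, h3⟩ := hij
    rcases lt_trichotomy ij.1 0 with h | h | h
    · exact (hx _ h).mul_right _
    · exfalso
      apply hne
      have h2 : ij.2 = 0 := by omega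
      exact Prod.ext h h2
    · have h2 : ij.2 < 0 := by omega
      exact (hy _ h2).mul_left _
  by_cases h : ((0 : ℤ), (0 : ℤ)) ∈ s
  · rw [← Finset.add_sum_erase _ _ h, add_sub_cancel_left]
    apply Finset.dvd_sum
    intro ij hij
    rw [Finset.mem_erase] at hij
    exact key ij hij.2 hij.1
  · have h0 : x.coeff 0 * y.coeff 0 = 0 := by
      rw [hs, Finset.mem_antidiagonal] at h
      by_contra hne
      apply h
      refine ⟨?_, ?_, by simp⟩
      · rw [HahnSeries.mem_support]; exact left_ne_zero_of_mul hne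
      · rw [HahnSeries.mem_support]; exact right_ne_zero_of_mul hne
    rw [h0, sub_zero]
    apply Finset.dvd_sum
    intro ij hij
    exact key ij hij (fun h' => h (h' ▸ hij))

lemma mco_mul_mod {I 𝒪 : Type} [Fintype I] [DecidableEq I] [CommRing 𝒪] (p N : ℕ)
    (P F : Matrix I I (LaurentSeries 𝒪)) (hP : PolMod p N P) (hF : PolMod p N F) :
    Cong ((p : 𝒪) ^ N) (mco 0 (P * F)) (mco 0 P * mco 0 F) := by
  intro i j
  simp only [mco, Matrix.map_apply, Matrix.mul_apply]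
  rw [HahnSeries.coeff_sum, ← Finset.sum_sub_distrib]
  apply Finset.dvd_sum
  intro k _
  exact coeff_zero_mul_mod _ _ _ (hP i k) (hF k j)

lemma natCast_coeff_zero {𝒪 : Type} [CommRing 𝒪] (m : ℕ) (x : LaurentSeries 𝒪) (i : ℤ) :
    ((m : LaurentSeries 𝒪) * x).coeff i = (m : 𝒪) * x.coeff i := by
  have : (m : LaurentSeries 𝒪) = HahnSeries.C (m : 𝒪) := by
    rw [map_natCast]
  rw [this, HahnSeries.C_mul_eq_smul, HahnSeries.coeff_smul, smul_eq_mul]

lemma pow_natCast_dvd_coeff {𝒪 : Type} [CommRing 𝒪] (p N : ℕ) (x : LaurentSeries 𝒪)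
    (h : (p : LaurentSeries 𝒪) ^ N ∣ x) (i : ℤ) : (p : 𝒪) ^ N ∣ x.coeff i := by
  obtain ⟨y, rfl⟩ := h
  have : (p : LaurentSeries 𝒪) ^ N = ((p ^ N : ℕ) : LaurentSeries 𝒪) := by push_cast; rfl
  rw [this, natCast_coeff_zero]
  push_cast
  exact dvd_mul_right _ _

lemma natCast_mul_coeff {G R : Type} [AddCommGroup G] [LinearOrder G] [IsOrderedAddMonoid G]
    [CommRing R] (m : ℕ) (x : HahnSeries G R) (g : G) :
    ((m : HahnSeries G R) * x).coeff g = (m : R) * x.coeff g := by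
  have : (m : HahnSeries G R) = HahnSeries.C (m : R) := by
    rw [map_natCast]
  rw [this, HahnSeries.C_mul_eq_smul, HahnSeries.coeff_smul, smul_eq_mul]

lemma tf_hahn {G R : Type} [AddCommGroup G] [LinearOrder G] [IsOrderedAddMonoid G]
    [CommRing R] (m : ℕ) (h : ∀ x : R, (m : R) * x = 0 → x = 0) (x : HahnSeries G R)
    (hx : (m : HahnSeries G R) * x = 0) : x = 0 := by
  ext g
  rw [HahnSeries.coeff_zero]
  apply h
  rw [← natCast_mul_coeff, hx, HahnSeries.coeff_zero]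

lemma tf_OO (q p : ℕ) [Fact p.Prime] (x : OO q ℤ_[p]) (hx : (p : OO q ℤ_[p]) * x = 0) : x = 0 := by
  refine tf_hahn p (fun y hy => ?_) x hx
  refine tf_hahn p (fun z hz => ?_) y hy
  rcases mul_eq_zero.mp hz with h | h
  · exfalso
    have := (Fact.out : p.Prime).ne_zero
    exact this (by exact_mod_cast h)
  · exact h

lemma not_dvd_one_OO (q p : ℕ) [Fact p.Prime] : ¬ (p : OO q ℤ_[p]) ∣ 1 := by
  rintro ⟨y, hy⟩
  have h1 : ((1 : OO q ℤ_[p]).coeff 0).coeff 0 = 1 := by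
    rw [HahnSeries.coeff_one, if_pos rfl, HahnSeries.coeff_one, if_pos rfl]
  rw [hy, natCast_mul_coeff, natCast_mul_coeff] at h1
  have h2 : IsUnit (p : ℤ_[p]) := IsUnit.of_mul_eq_one _ h1
  exact (PadicInt.prime_p (p := p)).not_isUnit h2

lemma mO_kO {R S : Type} [CommRing R] [CommRing S] (q : ℕ) (g : R →+* S) (a : R) :
    mO q g (kO q R a) = kO q S (g a) := by
  ext m x
  unfold kO mO mC
  rw [hmap_coeff, hmap_coeff, RingHom.comp_apply, RingHom.comp_apply, HahnSeries.C_apply,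
    HahnSeries.C_apply, HahnSeries.C_apply, HahnSeries.C_apply]
  by_cases hm : m = 0
  · subst hm
    rw [HahnSeries.coeff_single_same, HahnSeries.coeff_single_same]
    by_cases hx : x = 0
    · subst hx
      rw [HahnSeries.coeff_single_same, HahnSeries.coeff_single_same]
    · rw [HahnSeries.coeff_single_of_ne hx, HahnSeries.coeff_single_of_ne hx, map_zero]
  · rw [HahnSeries.coeff_single_of_ne hm, HahnSeries.coeff_single_of_ne hm,
      HahnSeries.coeff_zero, HahnSeries.coeff_zero, map_zero]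

/-- kernel of the final argument at one prime, in terms of the data at `t = 0` -/
theorem nok (hcad : CadStmt) (hula : UlaStmt) (hplx : PlxStmt) (htkg : TkgStmt) (hs1 : S1Stmt)
    (hkap : KapStmt) (hx0 : X0Stmt) (hcfn : CfnStmt) (hcvf : CvfStmt) (hadp : AdpStmt)
    (hfinc : FincStmt) (hrep : RepStmt) (hind : IndStmt) (hkrel : KrelStmt) (hfinl : FinlStmt)
    (hsplit : SplitStmt) (hspo : SpoStmt) (hω : OmgStmt) : NokStmt := by
  classical
  intro n K _ _ f hn hvar hmom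
  -- choice of `M`
  set M : ℕ := 2 + ∑ k, degreeOf k f with hMdef
  have hM2 : 2 ≤ M := by omega
  have hdeg : ∀ k, degreeOf k f ≤ M := by
    intro k
    have : degreeOf k f ≤ ∑ k, degreeOf k f :=
      Finset.single_le_sum (f := fun k => degreeOf k f) (fun _ _ => Nat.zero_le _)
        (Finset.mem_univ k)
    omega
  obtain ⟨A⟩ := hcad n M true hn (by omega)
  obtain ⟨A0⟩ := hcad n M false hn (by omega)
  have hG1 : GData n M 1 K f := ⟨hn, hM2, le_refl _, hdeg⟩
  obtain ⟨Da, hDa, hUa⟩ := hula n M true A K f hG1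
  obtain ⟨Db, hDb, hUb⟩ := hula n M false A0 K f hG1
  set D : ℕ := M * Da * Db with hDdef
  have hD1 : 1 ≤ D := by
    rw [hDdef]
    exact Nat.succ_le_of_lt (Nat.mul_pos (Nat.mul_pos (by omega) (by omega)) (by omega))
  have hMD : M ∣ D := ⟨Da * Db, by rw [hDdef]; ring⟩
  have hG : GData n M D K f := ⟨hn, hM2, hD1, hdeg⟩
  obtain ⟨U, Ui, Rv, hU⟩ := hUa D hD1 ⟨M * Db, by rw [hDdef]; ring⟩
  obtain ⟨U0, Ui0, Rv0, hU0⟩ := hUb D hD1 ⟨M * Da, by rw [hDdef]; ring⟩
  obtain ⟨q0, hq0, hord⟩ := hs1 n M D A K f U Ui Rv hG hU hvar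
  obtain ⟨hk1, hk2, hk3⟩ := hkap n M D A K f U Ui Rv hG hU ⟨A0, U0, Ui0, Rv0, hU0⟩ hMD
  obtain ⟨ξ, hξG, hξ0, hξ1, hξC⟩ := hx0 n M D q0 A K f U Ui Rv hG hU hMD hq0 hord hk1
  obtain ⟨hc1, hc2, hc3, hc4⟩ := hcvf n M D A K f U Ui Rv hG hU
  obtain ⟨_, _, _, _, hcm⟩ := hcfn n M D K f hG
  obtain ⟨hcm1, hcm2⟩ := hcm hmom
  have homg : IsCone M true (omg n M (LL (qG n M) K)) := (hω n M _ hM2).1
  have hξ2 : (∑ j, Cv A D f U j * ξ j).coeff 0 = 1 := by
    rw [hξC (Cv A D f U) hc1 (by rw [hc3 _ homg]; exact hcm1), hc3 _ homg]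
    exact hcm2
  obtain ⟨V, Vi, Rw, ζ, i1, Lo, hV, hζG, hζ0, hζi, hζ1, hVi, hi1, hLo, hLI⟩ :=
    hadp n M D A K f U Ui Rv ξ hG hU hξG hξ0 hξ1 hk3 hξ2
  -- precision
  set L : ℕ := Lb n true with hL
  set N' : ℕ := L * Fintype.card A.Bas + L + 1 with hN'
  obtain ⟨N, C, p1, hN1, hNN, htk⟩ := htkg n M D true A K f V Vi Rw hG hV N'
  obtain ⟨ν, κ, d, p2, hκ, hrp⟩ := hrep n M D A K f V Vi Rw hG hV N 0 hN1
  obtain ⟨_, _, _, hcw4⟩ := hcvf n M D A K f V Vi Rw hG hV
  -- extended list of elements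
  set κx : Fin (ν + 1) → OO (qG n M) K := Fin.cons 1 κ with hκx
  have hκxk : ∀ e, κx e ∈ kF (qG n M) K := by
    intro e
    refine Fin.cases ?_ ?_ e
    · rw [hκx, Fin.cons_zero]; exact one_mem _
    · intro e; rw [hκx, Fin.cons_succ]; exact hκ e
  obtain ⟨X, p3, hin⟩ := hind (qG n M) K {j : A.Bas // j = i1 ∨ j ∉ Lo}
    (fun j => (Cv A D f V j.1).coeff 0) (fun j m => hcw4 j.1 0 m) hLI (ν + 1) d κx hκxk
  obtain ⟨p4, hkr⟩ := hkrel n M D A K f V Vi Rw hG hV N' N C X hNN hN1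
  obtain ⟨p5, hfc⟩ := hfinc n M D A K f V Vi Rw ζ i1 hG hV hζG hζ0 hζi hζ1 hVi N hN1
  obtain ⟨p6, hpl⟩ := hplx n M D true A K f V Vi Rw hG hV
  have hlift : ∃ p7 : ℕ, ∀ (p : ℕ) [Fact p.Prime], p7 ≤ p → ∀ ι : K →+* ℚ_[p],
      ∃ κ' : Fin (ν + 1) → OO (qG n M) ℤ_[p],
        ∀ e, mO (qG n M) ι (κx e) = mO (qG n M) (zq p) (κ' e) := by
    have h0 : ∀ e, SprO (κx e) := fun e => (hspo (qG n M) K (κx e) (hκxk e)).1
    choose pe hpe using h0
    refine ⟨∑ e, pe e, ?_⟩
    intro p _ hp ι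
    have h1 : ∀ e, ∃ y : OO (qG n M) ℤ_[p], mO (qG n M) ι (κx e) = mO (qG n M) (zq p) y := by
      intro e
      refine hpe e p (le_trans ?_ hp) ι
      exact Finset.single_le_sum (f := pe) (fun _ _ => Nat.zero_le _) (Finset.mem_univ e)
    choose y hy using h1
    exact ⟨y, hy⟩
  obtain ⟨p7, hlift⟩ := hlift
  obtain ⟨p, hpf, hple, ⟨ι⟩⟩ := hsplit K (p1 + p2 + p3 + p4 + p5 + p6 + p7)
  obtain ⟨f', Dl, U', Ui', Rv', hPL⟩ := hpl p (by omega) ι
  obtain ⟨κ', hκ'⟩ := hlift p (by omega) ι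
  obtain ⟨hFS, hPp, hFp, hPl⟩ := htk p (by omega) ι f' Dl U' Ui' Rv' hPL
  obtain ⟨lam, hlam, hrel⟩ := hkr p (by omega) ι f' Dl U' Ui' Rv' hPL hPp hPl
  have hF1 := hfc p (by omega) ι f' Dl U' Ui' Rv' hPL (by
    intro i j m hm
    exact dvd_trans (pow_dvd_pow _ (by omega)) (hFp i j m hm))
  have hi1v : (Cv A D f V i1).coeff 0 = 1 := by rw [hLo i1 hi1, if_pos rfl]
  -- the key divisibility
  have key : ∀ i ∈ Lo, ∀ j : {j : A.Bas // j = i1 ∨ j ∉ Lo},
      (p : OO (qG n M) ℤ_[p]) ^ N' ∣ (Pv A D N p f' Dl U' Ui' j.1 i).coeff 0 -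
        (if j.1 = i1 ∧ i = i1 then kO (qG n M) ℤ_[p] lam else 0) := by
    intro i hi
    have hrp0 := fun j : A.Bas => hrp p (by omega) ι f' Dl U' Ui' Rv' hPL (fun e => κ' e.succ)
      (fun e => by
        have := hκ' e.succ
        rw [hκx, Fin.cons_succ] at this
        exact this) j i 0 (by simp)
    choose hord0 gg hgdeg hgdvd using hrp0
    have hκ0 : κ' 0 = 1 := by
      have h1 := hκ' 0
      rw [hκx, Fin.cons_zero, map_one] at h1
      have h2 : mO (qG n M) (zq p) (κ' 0) = mO (qG n M) (zq p) 1 := by rw [← h1, map_one]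
      ext m g
      have h3 : (((mO (qG n M) (zq p) (κ' 0)).coeff m).coeff g) =
          (((mO (qG n M) (zq p) 1).coeff m).coeff g) := by rw [h2]
      exact (IsFractionRing.injective ℤ_[p] ℚ_[p]) h3
    let cc : {j : A.Bas // j = i1 ∨ j ∉ Lo} → ℤ_[p] := fun j =>
      if j.1 = i1 ∧ i = i1 then lam else 0
    have hcc : ∀ j : {j : A.Bas // j = i1 ∨ j ∉ Lo},
        (if j.1 = i1 ∧ i = i1 then kO (qG n M) ℤ_[p] lam else 0) = kO (qG n M) ℤ_[p] (cc j) := by
      intro j
      by_cases h : j.1 = i1 ∧ i = i1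
      · rw [if_pos h]; simp only [cc]; rw [if_pos h]
      · rw [if_neg h]; simp only [cc]; rw [if_neg h, map_zero]
    refine hin p (by omega) ι κ' hκ' N' (fun j => (Pv A D N p f' Dl U' Ui' j.1 i).coeff 0 -
        (if j.1 = i1 ∧ i = i1 then kO (qG n M) ℤ_[p] lam else 0))
        (fun j => Fin.cons (Polynomial.C (HahnSeries.C (-cc j))) (gg j.1)) ?_ ?_ ?_ ?_
    · intro j m hm
      rw [HahnSeries.coeff_sub, hord0 j.1 m hm, hcc j, zero_sub, neg_eq_zero]
      unfold kO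
      rw [RingHom.comp_apply, HahnSeries.C_apply, HahnSeries.coeff_single_of_ne]
      have : (0 : ℤ) ≤ ((d * p : ℕ) : ℤ) := Int.natCast_nonneg _
      omega
    · intro j e
      refine Fin.cases ?_ ?_ e
      · rw [Fin.cons_zero, Polynomial.natDegree_C]; exact Nat.zero_le _
      · intro e; rw [Fin.cons_succ]; exact hgdeg j.1 e
    · intro j
      rw [Fin.sum_univ_succ, Fin.cons_zero, hκ0, Polynomial.eval₂_C, map_one, mul_one, hcc j]
      simp only [Fin.cons_succ]
      have h5 : (HahnSeries.C (HahnSeries.C (-cc j)) : OO (qG n M) ℤ_[p]) =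
          - kO (qG n M) ℤ_[p] (cc j) := by
        unfold kO
        rw [map_neg, map_neg, RingHom.comp_apply]
      rw [h5]
      have h6 := dvd_trans (pow_dvd_pow (p : OO (qG n M) ℤ_[p]) hNN) (hgdvd j.1)
      have h7 : ∀ a b c : OO (qG n M) ℤ_[p], a - b - (-b + c) = a - c := by
        intro a b c; ring
      rw [h7]
      exact h6
    · intro m hm γ
      have hr := hrel i m hm γ
      have hsum : (∑ j : {j : A.Bas // j = i1 ∨ j ∉ Lo}, mO (qG n M) (zq p)
          ((Pv A D N p f' Dl U' Ui' j.1 i).coeff 0 -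
            (if j.1 = i1 ∧ i = i1 then kO (qG n M) ℤ_[p] lam else 0)) *
            phO (qG n M) ℚ_[p] p (mO (qG n M) ι ((Cv A D f V j.1).coeff 0)) : OO (qG n M) ℚ_[p]) =
          (∑ j, mO (qG n M) (zq p) ((Pv A D N p f' Dl U' Ui' j i).coeff 0) *
              phO (qG n M) ℚ_[p] p (mO (qG n M) ι ((Cv A D f V j).coeff 0))) -
            kO (qG n M) ℚ_[p] (zq p lam) * mO (qG n M) ι ((Cv A D f V i).coeff 0) := by
        have hz : ∀ j : A.Bas, ¬ (j = i1 ∨ j ∉ Lo) → (Cv A D f V j).coeff 0 = 0 := by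
          intro j hj
          push Not at hj
          rw [hLo j hj.2, if_neg hj.1]
        have h1 : (∑ j : A.Bas, mO (qG n M) (zq p) ((Pv A D N p f' Dl U' Ui' j i).coeff 0) *
              phO (qG n M) ℚ_[p] p (mO (qG n M) ι ((Cv A D f V j).coeff 0))) =
            ∑ j : {j : A.Bas // j = i1 ∨ j ∉ Lo},
              mO (qG n M) (zq p) ((Pv A D N p f' Dl U' Ui' j.1 i).coeff 0) *
              phO (qG n M) ℚ_[p] p (mO (qG n M) ι ((Cv A D f V j.1).coeff 0)) := by
          rw [← Finset.sum_subtype (Finset.univ.filter fun j : A.Bas => j = i1 ∨ j ∉ Lo)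
            (by intro x; simp) (fun j : A.Bas =>
              mO (qG n M) (zq p) ((Pv A D N p f' Dl U' Ui' j i).coeff 0) *
              phO (qG n M) ℚ_[p] p (mO (qG n M) ι ((Cv A D f V j).coeff 0)))]
          symm
          apply Finset.sum_subset (Finset.filter_subset _ _)
          intro j _ hj
          rw [Finset.mem_filter, not_and] at hj
          rw [hz j (hj (Finset.mem_univ _)), map_zero, map_zero, mul_zero]
        rw [h1]
        have h2 : ∀ j : {j : A.Bas // j = i1 ∨ j ∉ Lo}, mO (qG n M) (zq p)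
            ((Pv A D N p f' Dl U' Ui' j.1 i).coeff 0 -
            (if j.1 = i1 ∧ i = i1 then kO (qG n M) ℤ_[p] lam else 0)) *
            phO (qG n M) ℚ_[p] p (mO (qG n M) ι ((Cv A D f V j.1).coeff 0)) =
            mO (qG n M) (zq p) ((Pv A D N p f' Dl U' Ui' j.1 i).coeff 0) *
              phO (qG n M) ℚ_[p] p (mO (qG n M) ι ((Cv A D f V j.1).coeff 0)) -
            (if j = ⟨i1, Or.inl rfl⟩ then
              (if i = i1 then kO (qG n M) ℚ_[p] (zq p lam) else 0) else 0) := by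
          intro j
          rw [map_sub, sub_mul]
          congr 1
          by_cases hj : j.1 = i1
          · have hj' : j = ⟨i1, Or.inl rfl⟩ := Subtype.ext hj
            rw [if_pos hj', hj, hi1v, map_one, map_one, mul_one]
            by_cases hii : i = i1
            · rw [if_pos ⟨rfl, hii⟩, if_pos hii]
              exact mO_kO _ _ _
            · rw [if_neg (fun h => hii h.2), if_neg hii, map_zero]
          · have hj' : ¬ j = ⟨i1, Or.inl rfl⟩ := fun h => hj (congrArg Subtype.val h)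
            rw [if_neg hj', if_neg (fun h => hj h.1), map_zero, zero_mul]
        rw [Finset.sum_congr rfl (fun j _ => h2 j), Finset.sum_sub_distrib]
        congr 1
        rw [Finset.sum_ite_eq' Finset.univ, if_pos (Finset.mem_univ _), hLo i hi]
        by_cases hii : i = i1
        · rw [if_pos hii, if_pos hii, map_one, mul_one]
        · rw [if_neg hii, if_neg hii, map_zero, mul_zero]
      rw [hsum]
      exact hr
  -- the data at `t = 0`
  set P0 := mco 0 (Pv A D N p f' Dl U' Ui') with hP0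
  set S0 := mco 0 (Fv A D N p f' Dl U' Ui') with hS0
  refine hfinl (OO (qG n M) ℤ_[p]) p L N' A.Bas P0 S0 (kO (qG n M) ℤ_[p] lam) i1 Lo ?_ ?_
    (le_refl _) ?_ hi1 ?_ ?_ ?_ ?_
  · -- torsion free
    exact fun x hx => tf_OO _ p x hx
  · exact not_dvd_one_OO _ p
  · -- P0 S0 = p^L
    intro i j
    have h1 := mco_mul_mod p N' _ _ hPp hFp i j
    have h2 := hFS.PF i j
    have h3 := pow_natCast_dvd_coeff p N' _ h2 0
    have h4 : (((p : LL (qG n M) ℤ_[p]) ^ L • (1 : Matrix A.Bas A.Bas (LL (qG n M) ℤ_[p]))) i j).coeff 0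
        = ((p : OO (qG n M) ℤ_[p]) ^ L • (1 : Matrix A.Bas A.Bas (OO (qG n M) ℤ_[p]))) i j := by
      rw [Matrix.smul_apply, Matrix.smul_apply, smul_eq_mul, smul_eq_mul]
      have h5 : (p : LL (qG n M) ℤ_[p]) ^ L = ((p ^ L : ℕ) : LL (qG n M) ℤ_[p]) :=
        (Nat.cast_pow p L).symm
      rw [h5, natCast_mul_coeff, Matrix.one_apply, Matrix.one_apply]
      push_cast
      split_ifs
      · rw [HahnSeries.coeff_one, if_pos rfl]
      · rw [HahnSeries.coeff_zero]
    rw [HahnSeries.coeff_sub, h4] at h3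
    have h6 := dvd_sub h3 h1
    have h7 : (P0 * S0) i j - ((p : OO (qG n M) ℤ_[p]) ^ L •
        (1 : Matrix A.Bas A.Bas (OO (qG n M) ℤ_[p]))) i j =
        ((Pv A D N p f' Dl U' Ui' * Fv A D N p f' Dl U' Ui') i j).coeff 0 -
          ((p : OO (qG n M) ℤ_[p]) ^ L • (1 : Matrix A.Bas A.Bas (OO (qG n M) ℤ_[p]))) i j -
        (mco 0 (Pv A D N p f' Dl U' Ui' * Fv A D N p f' Dl U' Ui') i j -
          (mco 0 (Pv A D N p f' Dl U' Ui') * mco 0 (Fv A D N p f' Dl U' Ui')) i j) := by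
      rw [hP0, hS0]
      simp only [mco, Matrix.map_apply]
      ring
    rw [h7]
    exact h6
  · -- lower block
    intro j hj i hi
    have h1 := key i hi ⟨j, Or.inr hj⟩
    have h2 : ¬ (j = i1 ∧ i = i1) := fun h => hj (h.1 ▸ hi1)
    rw [if_neg h2, sub_zero] at h1
    exact h1
  · intro i hi
    have h1 := key i hi ⟨i1, Or.inl rfl⟩
    by_cases hii : i = i1
    · rw [if_pos hii]
      rw [if_pos ⟨rfl, hii⟩] at h1
      exact h1
    · rw [if_neg hii]
      rw [if_neg (fun h => hii h.2)] at h1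
      exact h1
  · have h1 := map_dvd (kO (qG n M) ℤ_[p]) hlam
    rw [map_pow, map_natCast] at h1
    exact h1
  · intro i
    exact hF1 i

end Pool.Agent.Helper95_CM
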