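import Pool.Agent.Helper95_CM.Fro

/-!
# Basic lemmas for the CM project (MP_31342c_an)
-/

set_option autoImplicit false
set_option linter.unusedSectionVars false

noncomputable section

namespace Pool.Agent.Helper95_CM

open MvPolynomial

section
variable {n M : ℕ} {R S : Type} [CommRing R] [CommRing S]

/-! ### `th` -/

lemma th_monomial (i : Fin (n + 1)) (s : Expo n) (a : R) :
    th i (monomial s a) = monomial s ((s i : R) * a) := by
  classical
  unfold th
  rw [Derivation.smul_apply, smul_eq_mul, pderiv_monomial, X, monomial_mul, one_mul]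
  by_cases h : s i = 0
  · rw [h]; simp
  · congr 1
    · congr 1
      · ext j
        by_cases hj : j = i
        · subst hj; simp; omega
        · simp [Ne.symm hj]
    · ring

lemma coeff_th (i : Fin (n + 1)) (s : Expo n) (x : PP n R) :
    coeff s (th i x) = (s i : R) * coeff s x := by
  classical
  induction x using MvPolynomial.induction_on' with
  | monomial u a =>
    rw [th_monomial, coeff_monomial, coeff_monomial]
    split_ifs with h
    · rw [h]
    · rw [mul_zero]
  | add p q hp hq => rw [map_add, coeff_add, hp, hq, coeff_add, mul_add]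

lemma th_comm (i j : Fin (n + 1)) (x : PP n R) : th i (th j x) = th j (th i x) := by
  ext s
  rw [coeff_th, coeff_th, coeff_th, coeff_th]
  ring

lemma th_mul (i : Fin (n + 1)) (x y : PP n R) : th i (x * y) = th i x * y + x * th i y := by
  rw [Derivation.leibniz, smul_eq_mul, smul_eq_mul]; ring

lemma th_C (i : Fin (n + 1)) (a : R) : th i (C a : PP n R) = 0 := by
  ext s
  classical
  rw [coeff_th, coeff_C, coeff_zero]
  split_ifs with h
  · rw [← h]; simp
  · rw [mul_zero]

lemma th_C_mul (i : Fin (n + 1)) (a : R) (x : PP n R) : th i (C a * x) = C a * th i x := by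
  rw [th_mul, th_C, zero_mul, zero_add]

lemma th_map (i : Fin (n + 1)) (g : R →+* S) (x : PP n R) : th i (map g x) = map g (th i x) := by
  ext s
  rw [coeff_th, coeff_map, coeff_map, coeff_th, map_mul, map_natCast]

/-! ### `Supp`, `IsCone`, `HasLev`, `LevLe` -/

lemma Supp.zero {P : Expo n → Prop} : Supp P (0 : PP n R) := by
  intro s hs; exact absurd (coeff_zero s) hs

lemma Supp.add {P : Expo n → Prop} {x y : PP n R} (hx : Supp P x) (hy : Supp P y) :
    Supp P (x + y) := by
  intro s hs
  rw [coeff_add] at hs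
  by_cases h : coeff s x = 0
  · rw [h, zero_add] at hs; exact hy s hs
  · exact hx s h

lemma Supp.neg {P : Expo n → Prop} {x : PP n R} (hx : Supp P x) : Supp P (-x) := by
  intro s hs
  rw [coeff_neg, neg_ne_zero] at hs
  exact hx s hs

lemma Supp.sub {P : Expo n → Prop} {x y : PP n R} (hx : Supp P x) (hy : Supp P y) :
    Supp P (x - y) := by
  rw [sub_eq_add_neg]; exact hx.add hy.neg

lemma Supp.sum {P : Expo n → Prop} {ι : Type} (t : Finset ι) (x : ι → PP n R)
    (h : ∀ i ∈ t, Supp P (x i)) : Supp P (∑ i ∈ t, x i) := by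
  classical
  induction t using Finset.induction_on with
  | empty => rw [Finset.sum_empty]; exact Supp.zero
  | insert a t ha ih =>
    rw [Finset.sum_insert ha]
    exact (h a (Finset.mem_insert_self a t)).add
      (ih fun i hi => h i (Finset.mem_insert_of_mem hi))

lemma Supp.C_mul {P : Expo n → Prop} (a : R) {x : PP n R} (hx : Supp P x) :
    Supp P (C a * x) := by
  intro s hs
  rw [coeff_C_mul] at hs
  exact hx s (right_ne_zero_of_mul hs)

lemma Supp.mono {P Q : Expo n → Prop} (h : ∀ s, P s → Q s) {x : PP n R} (hx : Supp P x) :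
    Supp Q x := fun s hs => h s (hx s hs)

lemma Supp.and {P Q : Expo n → Prop} {x : PP n R} (hx : Supp P x) (hy : Supp Q x) :
    Supp (fun s => P s ∧ Q s) x := fun s hs => ⟨hx s hs, hy s hs⟩

lemma Supp.monomial {P : Expo n → Prop} {s : Expo n} (h : P s) (a : R) :
    Supp P (monomial s a : PP n R) := by
  classical
  intro s' hs
  rw [coeff_monomial] at hs
  split_ifs at hs with h1
  · rw [← h1]; exact h
  · exact absurd rfl hs

/-- products -/
lemma Supp.mul {P Q T : Expo n → Prop} (h : ∀ s s', P s → Q s' → T (s + s')) {x y : PP n R}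
    (hx : Supp P x) (hy : Supp Q y) : Supp T (x * y) := by
  classical
  intro s hs
  rw [coeff_mul] at hs
  obtain ⟨⟨a, b⟩, hab, hne⟩ := Finset.exists_ne_zero_of_sum_ne_zero hs
  rw [Finset.HasAntidiagonal.mem_antidiagonal] at hab
  simp only at hab hne
  rw [← hab]
  exact h a b (hx a (left_ne_zero_of_mul hne)) (hy b (right_ne_zero_of_mul hne))

lemma Supp.th {P : Expo n → Prop} {x : PP n R} (hx : Supp P x) (i : Fin (n + 1)) :
    Supp P (th i x) := by
  intro s hs
  rw [coeff_th] at hs
  exact hx s (right_ne_zero_of_mul hs)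

lemma Supp.map {P : Expo n → Prop} {x : PP n R} (hx : Supp P x) (g : R →+* S) :
    Supp P (MvPolynomial.map g x) := by
  intro s hs
  rw [coeff_map] at hs
  refine hx s (fun h => hs ?_)
  rw [h, map_zero]

lemma Supp.cder {P : Expo n → Prop} {x : PP n R} (hx : Supp P x) (d : R →+ S) :
    Supp P (cder d x) := by
  intro s hs
  rw [coeff_cder] at hs
  refine hx s (fun h => hs ?_)
  rw [h, map_zero]

lemma InCone.add {b : Bool} {s s' : Expo n} (h : InCone M false s) (h' : InCone M b s') :
    InCone M b (s + s') := by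
  cases b
  · intro k
    have h1 := h k
    have h2 := h' k
    simp only [Finsupp.add_apply, mul_add]
    omega
  · intro k
    have h1 := h k
    have h2 := h' k
    simp only [Finsupp.add_apply, mul_add]
    omega

lemma InCone.toFalse {b : Bool} {s : Expo n} (h : InCone M b s) : InCone M false s := by
  cases b
  · exact h
  · intro k; exact (h k).2.le

lemma inCone_gex (β : Grid n M) : InCone M false (gex β) := by
  intro k
  rw [gex_succ, gex_zero, mul_one]
  exact Nat.lt_succ_iff.mp (β k).2

lemma inCone_zero : InCone M false (0 : Expo n) := by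
  intro k; simp

lemma IsCone.mul {b : Bool} {x y : PP n R} (hx : IsCone M false x) (hy : IsCone M b y) :
    IsCone M b (x * y) := Supp.mul (fun _ _ h h' => h.add h') hx hy

lemma HasLev.mul {l l' : ℕ} {x y : PP n R} (hx : HasLev l x) (hy : HasLev l' y) :
    HasLev (l + l') (x * y) :=
  Supp.mul (fun s s' h h' => by simp only [Finsupp.add_apply]; omega) hx hy

lemma LevLe.mul {l l' : ℕ} {x y : PP n R} (hx : LevLe l x) (hy : LevLe l' y) :
    LevLe (l + l') (x * y) :=
  Supp.mul (fun s s' h h' => by simp only [Finsupp.add_apply]; omega) hx hy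

lemma HasLev.levLe {l l' : ℕ} {x : PP n R} (hx : HasLev l x) (h : l ≤ l') : LevLe l' x :=
  fun s hs => (hx s hs).le.trans h

lemma isCone_one : IsCone M false (1 : PP n R) := by
  classical
  intro s hs
  rw [coeff_one] at hs
  split_ifs at hs with h
  · rw [← h]; exact inCone_zero
  · exact absurd rfl hs

lemma hasLev_one : HasLev 0 (1 : PP n R) := by
  classical
  intro s hs
  rw [coeff_one] at hs
  split_ifs at hs with h
  · rw [← h]; rfl
  · exact absurd rfl hs

lemma IsCone.pow {x : PP n R} (hx : IsCone M false x) (k : ℕ) : IsCone M false (x ^ k) := by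
  induction k with
  | zero => rw [pow_zero]; exact isCone_one
  | succ k ih => rw [pow_succ]; exact ih.mul hx

lemma HasLev.pow {l : ℕ} {x : PP n R} (hx : HasLev l x) (k : ℕ) : HasLev (k * l) (x ^ k) := by
  induction k with
  | zero => rw [pow_zero, zero_mul]; exact hasLev_one
  | succ k ih => rw [pow_succ, Nat.succ_mul]; exact ih.mul hx

lemma isCone_Fp (c : Grid n M → R) : IsCone M false (Fp c) :=
  Supp.sum _ _ fun β _ => Supp.monomial (inCone_gex β) _

lemma hasLev_Fp (c : Grid n M → R) : HasLev 1 (Fp c) :=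
  Supp.sum _ _ fun β _ => Supp.monomial (gex_zero β) _

lemma isCone_Yp (c : Grid n M → R) (i : Fin (n + 1)) : IsCone M false (Yp c i) :=
  (isCone_Fp c).th i

lemma hasLev_Yp (c : Grid n M → R) (i : Fin (n + 1)) : HasLev 1 (Yp c i) :=
  (hasLev_Fp c).th i

lemma IsCone.Dop {b : Bool} (c : Grid n M → R) (i : Fin (n + 1)) {x : PP n R}
    (hx : IsCone M b x) : IsCone M b (Dop c i x) := by
  rw [Dop_apply]
  exact (hx.th i).sub ((isCone_Yp c i).mul hx)

/-- for homogeneous elements `θ_0` is multiplication by the level -/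
lemma HasLev.th_zero {l : ℕ} {x : PP n R} (hx : HasLev l x) : th 0 x = C (l : R) * x := by
  ext s
  rw [coeff_th, coeff_C_mul]
  by_cases h : coeff s x = 0
  · rw [h, mul_zero, mul_zero]
  · rw [hx s h]

lemma Yp_zero (c : Grid n M → R) : Yp c 0 = Fp c := by
  unfold Yp
  rw [(hasLev_Fp c).th_zero, Nat.cast_one, C_1, one_mul]

/-! ### commutation of the operators -/

lemma th_Yp_comm (c : Grid n M → R) (i j : Fin (n + 1)) : th i (Yp c j) = th j (Yp c i) :=
  th_comm i j _

lemma Dop_comm (c : Grid n M → R) (i j : Fin (n + 1)) (x : PP n R) :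
    Dop c i (Dop c j x) = Dop c j (Dop c i x) := by
  simp only [Dop_apply, map_sub, th_mul]
  rw [th_comm i j x, th_Yp_comm c i j]
  ring

/-! ### `cder` -/

lemma cder_zero (d : R →+ S) : cder d (0 : PP n R) = 0 := by
  ext s; rw [coeff_cder, coeff_zero, map_zero, coeff_zero]

lemma cder_add (d : R →+ S) (x y : PP n R) : cder d (x + y) = cder d x + cder d y := by
  ext s; rw [coeff_cder, coeff_add, map_add, coeff_add, coeff_cder, coeff_cder]

lemma cder_neg (d : R →+ S) (x : PP n R) : cder d (-x) = -cder d x := by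
  ext s; rw [coeff_cder, coeff_neg, map_neg, coeff_neg, coeff_cder]

lemma cder_sub (d : R →+ S) (x y : PP n R) : cder d (x - y) = cder d x - cder d y := by
  ext s; rw [coeff_cder, coeff_sub, map_sub, coeff_sub, coeff_cder, coeff_cder]

lemma cder_sum (d : R →+ S) {ι : Type} (t : Finset ι) (x : ι → PP n R) :
    cder d (∑ i ∈ t, x i) = ∑ i ∈ t, cder d (x i) := by
  ext s; rw [coeff_cder, coeff_sum, map_sum, coeff_sum]; simp only [coeff_cder]

lemma cder_monomial (d : R →+ S) (s : Expo n) (a : R) :
    cder d (monomial s a) = monomial s (d a) := by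
  classical
  ext s'
  rw [coeff_cder, coeff_monomial, coeff_monomial]
  split_ifs
  · rfl
  · rw [map_zero]

lemma cder_mul {d : R →+ R} (hd : IsDer d) (x y : PP n R) :
    cder d (x * y) = cder d x * y + x * cder d y := by
  classical
  ext s
  rw [coeff_cder, coeff_mul, map_sum, coeff_add, coeff_mul, coeff_mul, ← Finset.sum_add_distrib]
  apply Finset.sum_congr rfl
  intro a _
  rw [hd, coeff_cder, coeff_cder]

lemma cder_th (d : R →+ S) (i : Fin (n + 1)) (x : PP n R) :
    cder d (th i x) = th i (cder d x) := by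
  ext s
  rw [coeff_cder, coeff_th, coeff_th, coeff_cder, ← nsmul_eq_mul, ← nsmul_eq_mul, map_nsmul]

lemma cder_C_mul {d : R →+ R} (hd : IsDer d) (a : R) (x : PP n R) :
    cder d (C a * x) = C (d a) * x + C a * cder d x := by
  ext s
  rw [coeff_cder, coeff_C_mul, hd, coeff_add, coeff_C_mul, coeff_C_mul, coeff_cder]

lemma IsDer.one {d : R →+ R} (hd : IsDer d) : d 1 = 0 := by
  have h := hd 1 1
  rw [mul_one, mul_one, one_mul] at h
  exact left_eq_add.mp h

lemma IsDer.natCast {d : R →+ R} (hd : IsDer d) (k : ℕ) : d (k : R) = 0 := by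
  rw [← nsmul_one, map_nsmul, hd.one, smul_zero]

lemma IsDer.pow {d : R →+ R} (hd : IsDer d) (x : R) (k : ℕ) :
    d (x ^ k) = (k : R) * x ^ (k - 1) * d x := by
  induction k with
  | zero => rw [pow_zero, hd.one, Nat.cast_zero, zero_mul, zero_mul]
  | succ k ih =>
    rw [pow_succ, hd, ih]
    rcases k with _ | k
    · simp
    · simp only [Nat.add_sub_cancel]
      push_cast
      ring

lemma cder_mon {d : R →+ R} (hd : IsDer d) (s : Expo n) : cder d (mon s : PP n R) = 0 := by
  unfold mon
  rw [cder_monomial, hd.one, monomial_zero]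

/-! ### `nab` -/

lemma nab_add (d : R →+ R) (c : Grid n M → R) (x y : PP n R) :
    nab d c (x + y) = nab d c x + nab d c y := by
  unfold nab; rw [cder_add]; ring

lemma nab_C_mul {d : R →+ R} (hd : IsDer d) (c : Grid n M → R) (a : R) (x : PP n R) :
    nab d c (C a * x) = C (d a) * x + C a * nab d c x := by
  unfold nab; rw [cder_C_mul hd]; ring

lemma nab_Dop_comm {d : R →+ R} (hd : IsDer d) (c : Grid n M → R) (i : Fin (n + 1))
    (x : PP n R) : nab d c (Dop c i x) = Dop c i (nab d c x) := by
  simp only [nab, Dop_apply, cder_sub, cder_th, cder_mul hd, map_sub, th_mul]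
  unfold Yp
  rw [cder_th]
  ring

lemma IsCone.nab {b : Bool} (d : R →+ R) (c : Grid n M → R) {x : PP n R}
    (hx : IsCone M b x) : IsCone M b (nab d c x) :=
  (Supp.cder hx d).sub (IsCone.mul (Supp.cder (isCone_Fp c) d) hx)

/-! ### `map` -/

lemma map_Fp (g : R →+* S) (c : Grid n M → R) : map g (Fp c) = Fp (fun β => g (c β)) := by
  unfold Fp
  rw [map_sum]
  simp only [map_monomial]

lemma map_Yp (g : R →+* S) (c : Grid n M → R) (i : Fin (n + 1)) :
    map g (Yp c i) = Yp (fun β => g (c β)) i := by
  unfold Yp; rw [← map_Fp, th_map]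

lemma map_Dop (g : R →+* S) (c : Grid n M → R) (i : Fin (n + 1)) (x : PP n R) :
    map g (Dop c i x) = Dop (fun β => g (c β)) i (map g x) := by
  rw [Dop_apply, Dop_apply, map_sub, map_mul, map_Yp, th_map]

lemma map_Jac (g : R →+* S) (c : Grid n M → R) : map g (Jac c) = Jac (fun β => g (c β)) := by
  unfold Jac
  rw [RingHom.map_det]
  congr 1
  ext i j : 2
  simp only [RingHom.mapMatrix_apply, Matrix.map_apply, Hes, Matrix.of_apply]
  rw [← map_Fp, th_map, th_map]

lemma map_mon (g : R →+* S) (s : Expo n) : map g (mon s : PP n R) = mon s := by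
  unfold mon; rw [map_monomial, map_one]

lemma map_bb {b : Bool} (A : CAD n M b) (g : R →+* S) (c : Grid n M → R) (s : Expo n) :
    map g (bb A c s) = bb A (fun β => g (c β)) s := by
  unfold bb bbo
  split_ifs
  · exact map_Jac g c
  · exact map_mon g s

lemma dt_map {b : Bool} (A : CAD n M b) (g : R →+* S) (c : Grid n M → R) :
    dt A (fun β => g (c β)) = g (dt A c) := by
  unfold dt
  rw [aeval_def, aeval_def, hom_eval₂]
  congr 1
  ext; simp

/-! ### `psi` -/

variable {p : ℕ}

lemma psi_zero (hp : 0 < p) : psi p (0 : PP n R) = 0 := by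
  ext s; rw [coeff_psi hp, coeff_zero, coeff_zero]

lemma psi_add (hp : 0 < p) (x y : PP n R) : psi p (x + y) = psi p x + psi p y := by
  ext s; rw [coeff_psi hp, coeff_add, coeff_add, coeff_psi hp, coeff_psi hp]

lemma psi_neg (hp : 0 < p) (x : PP n R) : psi p (-x) = -psi p x := by
  ext s; rw [coeff_psi hp, coeff_neg, coeff_neg, coeff_psi hp]

lemma psi_sub (hp : 0 < p) (x y : PP n R) : psi p (x - y) = psi p x - psi p y := by
  ext s; rw [coeff_psi hp, coeff_sub, coeff_sub, coeff_psi hp, coeff_psi hp]

lemma psi_sum (hp : 0 < p) {ι : Type} (t : Finset ι) (x : ι → PP n R) :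
    psi p (∑ i ∈ t, x i) = ∑ i ∈ t, psi p (x i) := by
  ext s; rw [coeff_psi hp, coeff_sum, coeff_sum]; simp only [coeff_psi hp]

lemma psi_C_mul (hp : 0 < p) (a : R) (x : PP n R) : psi p (C a * x) = C a * psi p x := by
  ext s; rw [coeff_psi hp, coeff_C_mul, coeff_C_mul, coeff_psi hp]

lemma psi_th (hp : 0 < p) (i : Fin (n + 1)) (x : PP n R) :
    psi p (th i x) = C (p : R) * th i (psi p x) := by
  ext s
  rw [coeff_psi hp, coeff_th, coeff_C_mul, coeff_th, coeff_psi hp, Finsupp.smul_apply,
    smul_eq_mul]
  push_cast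
  ring

lemma psi_cder (hp : 0 < p) (d : R →+ S) (x : PP n R) : psi p (cder d x) = cder d (psi p x) := by
  ext s; rw [coeff_psi hp, coeff_cder, coeff_cder, coeff_psi hp]

lemma psi_map (hp : 0 < p) (g : R →+* S) (x : PP n R) : psi p (map g x) = map g (psi p x) := by
  ext s; rw [coeff_psi hp, coeff_map, coeff_map, coeff_psi hp]

lemma psi_monomial_smul (hp : 0 < p) (s : Expo n) (a : R) :
    psi p (monomial (p • s) a) = monomial s a := by
  classical
  ext s'
  rw [coeff_psi hp, coeff_monomial, coeff_monomial]
  have : p • s = p • s' ↔ s = s' := by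
    constructor
    · intro h
      ext i
      have := DFunLike.congr_fun h i
      simp only [Finsupp.smul_apply, smul_eq_mul] at this
      exact Nat.eq_of_mul_eq_mul_left hp this
    · intro h; rw [h]
  simp only [this]

/-- projection formula -/
lemma psi_mul_expand (hp : 0 < p) (x y : PP n R) : psi p (x * expand p y) = psi p x * y := by
  classical
  induction y using MvPolynomial.induction_on' with
  | monomial u a =>
    ext s
    rw [expand_monomial, coeff_psi hp, coeff_mul_monomial', coeff_mul_monomial']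
    by_cases h : u ≤ s
    · have h' : p • u ≤ p • s := by
        intro i
        simp only [Finsupp.smul_apply, smul_eq_mul]
        exact Nat.mul_le_mul_left p (h i)
      rw [if_pos h, if_pos h', coeff_psi hp]
      congr 2
      ext i
      simp only [Finsupp.tsub_apply, Finsupp.smul_apply, smul_eq_mul]
      rw [Nat.mul_sub]
    · have h' : ¬ p • u ≤ p • s := by
        intro h''
        apply h
        intro i
        have := h'' i
        simp only [Finsupp.smul_apply, smul_eq_mul] at this
        exact Nat.le_of_mul_le_mul_left this hp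
      rw [if_neg h, if_neg h']
  | add a b ha hb => rw [map_add, mul_add, psi_add hp, ha, hb, mul_add]

lemma Supp.psi (hp : 0 < p) {P Q : Expo n → Prop} (h : ∀ s, P (p • s) → Q s) {x : PP n R}
    (hx : Supp P x) : Supp Q (psi p x) := by
  intro s hs
  rw [coeff_psi hp] at hs
  exact h s (hx _ hs)

lemma IsCone.psi (hp : 0 < p) {b : Bool} {x : PP n R} (hx : IsCone M b x) :
    IsCone M b (psi p x) := by
  refine Supp.psi hp ?_ hx
  intro s hs
  cases b
  · intro k
    have := hs k
    simp only [Finsupp.smul_apply, smul_eq_mul] at this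
    have h2 : p * s k.succ ≤ p * (M * s 0) := by
      calc p * s k.succ ≤ M * (p * s 0) := this
        _ = p * (M * s 0) := by ring
    exact Nat.le_of_mul_le_mul_left h2 hp
  · intro k
    have := hs k
    simp only [Finsupp.smul_apply, smul_eq_mul] at this
    refine ⟨Nat.pos_of_mul_pos_left this.1, ?_⟩
    have h2 : p * s k.succ < p * (M * s 0) := by
      calc p * s k.succ < M * (p * s 0) := this.2
        _ = p * (M * s 0) := by ring
    exact Nat.lt_of_mul_lt_mul_left h2

end

end Pool.Agent.Helper95_CM
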