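import Pool.Agent.Helper95_CM.StG

/-!
# Block E: the end of the proof
Statements for the CM project (MP_31342c_an).
-/

set_option autoImplicit false
set_option linter.unusedSectionVars false

noncomputable section

namespace Pool.Agent.Helper95_CM

open MvPolynomial

/-- CVF. The row vector `Cv`: horizontality, no poles, values, spreadable coefficients. -/
def CvfStmt : Prop := ∀ (n M D : ℕ) (A : CAD n M true) (K : Type) [Field K]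
  [NumberField K] (f : MvPolynomial (Fin n) K) (U Ui Rv : Matrix A.Bas A.Bas (LL (qG n M) K)),
  GData n M D K f → ULat A D f U Ui Rv →
  (∀ j, thLt (qG n M) K (Cv A D f U j) = ∑ i, Cv A D f U i * Rv i j) ∧
  (∀ j, OrdGe 0 (Cv A D f U j)) ∧
  (∀ x : PP n (LL (qG n M) K), IsCone M true x →
    ∑ j, Cv A D f U j * (Ui.mulVec (crd A (cgen D f) x)) j = Cfun M D f x) ∧
  (∀ j m m', SprC (((Cv A D f U j).coeff m).coeff m'))

/-- REP. Representation of the coefficients of `P`: bounded degree in `w` after splitting off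
Frobenius pull backs of finitely many elements; bound for the pole orders in `w`. -/
def RepStmt : Prop := ∀ (n M D : ℕ) (A : CAD n M true) (K : Type) [Field K]
  [NumberField K] (f : MvPolynomial (Fin n) K) (U Ui Rv : Matrix A.Bas A.Bas (LL (qG n M) K)),
  GData n M D K f → ULat A D f U Ui Rv → ∀ (N X : ℕ), 1 ≤ N →
  ∃ (ν : ℕ) (κ : Fin ν → OO (qG n M) K) (d p0 : ℕ), (∀ e, κ e ∈ kF (qG n M) K) ∧
    ∀ (p : ℕ) [Fact p.Prime], p0 ≤ p →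
    ∀ (ι : K →+* ℚ_[p]) (f' : MvPolynomial (Fin n) ℤ_[p]) (Dl : PP n (LL (qG n M) ℤ_[p]))
      (U' Ui' Rv' : Matrix A.Bas A.Bas (LL (qG n M) ℤ_[p])),
      PLift A D f U Ui Rv ι f' Dl U' Ui' Rv' →
      ∀ κ' : Fin ν → OO (qG n M) ℤ_[p],
        (∀ e, mO (qG n M) ι (κ e) = mO (qG n M) (zq p) (κ' e)) →
      ∀ i j, ∀ m : ℤ, |m| ≤ X * p →
        OrdGe (-((d * p : ℕ) : ℤ)) ((Pv A D N p f' Dl U' Ui' i j).coeff m) ∧
        ∃ g : Fin ν → Polynomial (CC (qG n M) ℤ_[p]), (∀ e, (g e).natDegree ≤ d * p) ∧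
          (p : OO (qG n M) ℤ_[p]) ^ N ∣ (Pv A D N p f' Dl U' Ui' i j).coeff m -
            ∑ e, (g e).eval₂ HahnSeries.C (wO (qG n M) ℤ_[p]) * phO (qG n M) ℤ_[p] p (κ' e)

/-- IND. Independence: relations with coefficients congruent to `Σ_e g_e φ(κ_e)` between Frobenius
pull backs of independent series are trivial. -/
def IndStmt : Prop := ∀ (q : ℕ) (K : Type) [Field K] [NumberField K] (J : Type) [Fintype J]
  (α : J → OO q K), (∀ j m, SprC ((α j).coeff m)) → LinearIndependent (kF q K) α →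
  ∀ (ν d : ℕ) (κ : Fin ν → OO q K), (∀ e, κ e ∈ kF q K) →
  ∃ X p0 : ℕ, ∀ (p : ℕ) [Fact p.Prime], p0 ≤ p → ∀ (ι : K →+* ℚ_[p])
    (κ' : Fin ν → OO q ℤ_[p]), (∀ e, mO q ι (κ e) = mO q (zq p) (κ' e)) →
    ∀ (N : ℕ) (h : J → OO q ℤ_[p]) (g : J → Fin ν → Polynomial (CC q ℤ_[p])),
      (∀ j, OrdGe (-((d * p : ℕ) : ℤ)) (h j)) →
      (∀ j e, (g j e).natDegree ≤ d * p) →
      (∀ j, (p : OO q ℤ_[p]) ^ N ∣ h j - ∑ e, (g j e).eval₂ HahnSeries.C (wO q ℤ_[p]) *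
        phO q ℤ_[p] p (κ' e)) →
      (∀ m : ℤ, m ≤ X * p → ∀ γ : Gam q,
        ‖((∑ j, mO q (zq p) (h j) * phO q ℚ_[p] p (mO q ι (α j)) : OO q ℚ_[p]).coeff m).coeff γ‖
          ≤ ((p : ℝ) ^ N)⁻¹) →
      ∀ j, (p : OO q ℤ_[p]) ^ N ∣ h j

/-- KREL. The relation between `P` and the values of `C`, at `t = 0`. -/
def KrelStmt : Prop := ∀ (n M D : ℕ) (A : CAD n M true) (K : Type) [Field K]
  [NumberField K] (f : MvPolynomial (Fin n) K) (U Ui Rv : Matrix A.Bas A.Bas (LL (qG n M) K)),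
  GData n M D K f → ULat A D f U Ui Rv → ∀ (N' N C X : ℕ), N' ≤ N → 1 ≤ N →
  ∃ p0 : ℕ, ∀ (p : ℕ) [Fact p.Prime], p0 ≤ p →
    ∀ (ι : K →+* ℚ_[p]) (f' : MvPolynomial (Fin n) ℤ_[p]) (Dl : PP n (LL (qG n M) ℤ_[p]))
      (U' Ui' Rv' : Matrix A.Bas A.Bas (LL (qG n M) ℤ_[p])),
      PLift A D f U Ui Rv ι f' Dl U' Ui' Rv' →
      PolMod p N' (Pv A D N p f' Dl U' Ui') →
      PolLe (C * p) (Pm A p (kL (qG n M) ℤ_[p]) N (phL (qG n M) ℤ_[p] p) (cgen D f') Dl) →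
      ∃ lam : ℤ_[p], (p : ℤ_[p]) ^ (n + 1) ∣ lam ∧
        ∀ (i : A.Bas) (m' : ℤ), m' ≤ X * p → ∀ g : Gam (qG n M),
          ‖(((∑ j, mO (qG n M) (zq p) ((Pv A D N p f' Dl U' Ui' j i).coeff 0) *
              phO (qG n M) ℚ_[p] p (mO (qG n M) ι ((Cv A D f U j).coeff 0))) -
            kO (qG n M) ℚ_[p] (zq p lam) * mO (qG n M) ι ((Cv A D f U i).coeff 0)).coeff m').coeff g‖
            ≤ ((p : ℝ) ^ N')⁻¹

/-- LINA. Adapted basis for a functional. -/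
def LinaStmt : Prop := ∀ (𝒦 : Type) [Field 𝒦] (k : Subfield 𝒦) (I : Type) [Fintype I]
  [DecidableEq I] (α : I → 𝒦) (x0 : I → k), ∑ j, α j * (x0 j : 𝒦) = 1 →
  ∃ (B Bi : Matrix I I k) (i1 : I) (Lo : Finset I), B * Bi = 1 ∧ Bi * B = 1 ∧ i1 ∈ Lo ∧
    (∀ j, B j i1 = x0 j) ∧
    (∀ i ∈ Lo, ∑ j, α j * (B j i : 𝒦) = if i = i1 then 1 else 0) ∧
    LinearIndependent k (fun j : {j : I // j = i1 ∨ j ∉ Lo} => ∑ j', α j' * (B j' j.1 : 𝒦))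

/-- ADP. Unipotent lattice with an adapted basis. -/
def AdpStmt : Prop := ∀ (n M D : ℕ) (A : CAD n M true) (K : Type) [Field K]
  [NumberField K] (f : MvPolynomial (Fin n) K) (U Ui Rv : Matrix A.Bas A.Bas (LL (qG n M) K))
  (ξ : A.Bas → LL (qG n M) K),
  GData n M D K f → ULat A D f U Ui Rv → (∀ i, InG (ξ i)) → (∀ i, OrdGe 0 (ξ i)) →
  OrdGe 1 (∑ j, U (topI A) j * ξ j) → (∀ j, OrdGe 0 (Ui j (topI A))) →
  (∑ j, Cv A D f U j * ξ j).coeff 0 = 1 →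
  ∃ (U1 Ui1 Rv1 : Matrix A.Bas A.Bas (LL (qG n M) K)) (ξ1 : A.Bas → LL (qG n M) K)
    (i1 : A.Bas) (Lo : Finset A.Bas),
    ULat A D f U1 Ui1 Rv1 ∧ (∀ i, InG (ξ1 i)) ∧ (∀ i, OrdGe 0 (ξ1 i)) ∧
    (∀ i, (ξ1 i).coeff 0 = if i = i1 then 1 else 0) ∧
    OrdGe 1 (∑ j, U1 (topI A) j * ξ1 j) ∧ (∀ j, OrdGe 0 (Ui1 j (topI A))) ∧
    i1 ∈ Lo ∧
    (∀ i ∈ Lo, (Cv A D f U1 i).coeff 0 = if i = i1 then 1 else 0) ∧
    LinearIndependent (kF (qG n M) K)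
      (fun j : {j : A.Bas // j = i1 ∨ j ∉ Lo} => (Cv A D f U1 j.1).coeff 0)

/-- FINC. The first column of `F` at `t = 0` is divisible by `p`. -/
def FincStmt : Prop := ∀ (n M D : ℕ) (A : CAD n M true) (K : Type) [Field K]
  [NumberField K] (f : MvPolynomial (Fin n) K) (U Ui Rv : Matrix A.Bas A.Bas (LL (qG n M) K))
  (ξ : A.Bas → LL (qG n M) K) (i1 : A.Bas),
  GData n M D K f → ULat A D f U Ui Rv → (∀ i, InG (ξ i)) → (∀ i, OrdGe 0 (ξ i)) →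
  (∀ i, (ξ i).coeff 0 = if i = i1 then 1 else 0) →
  OrdGe 1 (∑ j, U (topI A) j * ξ j) → (∀ j, OrdGe 0 (Ui j (topI A))) →
  ∀ N : ℕ, 1 ≤ N → ∃ p0 : ℕ, ∀ (p : ℕ) [Fact p.Prime], p0 ≤ p →
    ∀ (ι : K →+* ℚ_[p]) (f' : MvPolynomial (Fin n) ℤ_[p]) (Dl : PP n (LL (qG n M) ℤ_[p]))
      (U' Ui' Rv' : Matrix A.Bas A.Bas (LL (qG n M) ℤ_[p])),
      PLift A D f U Ui Rv ι f' Dl U' Ui' Rv' →
      PolMod p 1 (Fv A D N p f' Dl U' Ui') →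
      ∀ i, (p : OO (qG n M) ℤ_[p]) ∣ (Fv A D N p f' Dl U' Ui' i i1).coeff 0

/-- FINL. The final linear algebra contradiction. -/
def FinlStmt : Prop := ∀ (𝒪 : Type) [CommRing 𝒪] (p L N : ℕ) (I : Type) [Fintype I]
  [DecidableEq I] (P0 S : Matrix I I 𝒪) (lam : 𝒪) (i1 : I) (Lo : Finset I),
  (∀ x : 𝒪, (p : 𝒪) * x = 0 → x = 0) → ¬ (p : 𝒪) ∣ 1 → L * Fintype.card I + L + 1 ≤ N →
  Cong ((p : 𝒪) ^ N) (P0 * S) ((p : 𝒪) ^ L • (1 : Matrix I I 𝒪)) → i1 ∈ Lo →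
  (∀ j ∉ Lo, ∀ i ∈ Lo, (p : 𝒪) ^ N ∣ P0 j i) →
  (∀ i ∈ Lo, (p : 𝒪) ^ N ∣ P0 i1 i - (if i = i1 then lam else 0)) →
  (p : 𝒪) ^ L ∣ lam → (∀ i, (p : 𝒪) ∣ S i i1) → False

/-- NOK. There is no polynomial over a number field, depending on all variables, all of whose
moments vanish. -/
def NokStmt : Prop := ∀ (n : ℕ) (K : Type) [Field K] [NumberField K]
  (f : MvPolynomial (Fin n) K), 1 ≤ n → (∀ k, ∃ u ∈ f.support, 0 < u k) →
  ¬ (∀ m : ℕ, 1 ≤ m → Mom (f ^ m) = 0)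

/-- the frozen statement -/
def MainStmt : Prop := ∀ n : ℕ, ∀ f : MvPolynomial (Fin n) ℂ,
  (∀ m : ℕ, 1 ≤ m → ∫ x in Set.Icc (0 : Fin n → ℝ) 1,
    (MvPolynomial.eval (fun i => ((x i : ℝ) : ℂ)) f) ^ m = 0) → f = 0

/-- End of the proof from `INT`, `NFR`, `NOK`. -/
theorem main_of (h1 : IntStmt) (h2 : NfrStmt) (h3 : NokStmt) : MainStmt := by
  intro n f hf
  by_contra hne
  have hm : ∀ m : ℕ, 1 ≤ m → Mom (f ^ m) = 0 := by
    intro m hm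
    rw [← h1 n (f ^ m)]
    simpa [map_pow] using hf m hm
  obtain ⟨n', K, _, _, g, hn, hvar, hg⟩ := h2 ⟨n, f, hne, hm⟩
  exact h3 n' K g hn hvar hg

end Pool.Agent.Helper95_CM
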