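import Pool.Agent.Helper95_CM.Fro

/-!
# Blocks HB (coordinates), JAC (Jacobian), DEL (duality pairing), FR (Frobenius over a base ring)
Statements for the CM project (MP_31342c_an).
-/

set_option autoImplicit false
set_option linter.unusedSectionVars false

noncomputable section

namespace Pool.Agent.Helper95_CM

open MvPolynomial

/-! ### HB -/

/-- HB1. Existence of coordinates. -/
def Hb1Stmt : Prop := ∀ (n M : ℕ) (b : Bool) (A : CAD n M b) (R : Type) [CommRing R]
  (c : Grid n M → R), 1 ≤ n → 1 ≤ M → IsUnit (dt A c) → IsCrd A c (crd A c)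

/-- HB2. Every cone element is a combination of basis elements modulo the operators `D_i`,
with control of levels. -/
def Hb2Stmt : Prop := ∀ (n M : ℕ) (b : Bool) (A : CAD n M b) (R : Type) [CommRing R]
  (c : Grid n M → R), 1 ≤ n → 1 ≤ M → IsUnit (dt A c) → ∀ (l : ℕ) (x : PP n R),
  IsCone M b x → LevLe l x →
  ∃ σ : Fin (n + 1) → PP n R, (∀ i, IsCone M b (σ i)) ∧
    (∀ i, Supp (fun s => s 0 + 1 ≤ l) (σ i)) ∧
    x = (∑ s : A.Bas, C (crd A c x s) * bb A c s) + ∑ i, Dop c i (σ i) ∧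
    (∀ s : A.Bas, l < s.1 0 → crd A c x s = 0)

/-- HB3. Naturality of the coordinates. -/
def Hb3Stmt : Prop := ∀ (n M : ℕ) (b : Bool) (A : CAD n M b) (R S : Type) [CommRing R]
  [CommRing S] (g : R →+* S) (c : Grid n M → R), 1 ≤ n → 1 ≤ M → IsUnit (dt A c) →
  ∀ x : PP n R, ∀ s, crd A (fun β => g (c β)) (map g x) s = g (crd A c x s)

/-- HB4. Denominators of the coordinates. -/
def Hb4Stmt : Prop := ∀ (n M : ℕ) (b : Bool) (A : CAD n M b) (R : Type) [CommRing R]
  (c : Grid n M → R) (S : Subring R), 1 ≤ n → 1 ≤ M → IsUnit (dt A c) → (∀ β, c β ∈ S) →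
  ∀ (l : ℕ) (x : PP n R), (∀ s, coeff s x ∈ S) → LevLe l x →
  ∀ s, dt A c ^ (l + 1) * crd A c x s ∈ S

/-- HB5. A semilinear variant of naturality: contraction. `g` is additive and
`g (f x * y) = x * g y`. -/
def Hb5Stmt : Prop := ∀ (n M : ℕ) (b : Bool) (A : CAD n M b) (R : Type) [CommRing R]
  (f : R →+* R) (g : R →+ R) (c : Grid n M → R), 1 ≤ n → 1 ≤ M → IsUnit (dt A c) →
  (∀ x y, g (f x * y) = x * g y) →
  ∀ x : PP n R, ∀ s, crd A c (cder g x) s = g (crd A (fun β => f (c β)) x s)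

/-! ### JAC -/

/-- JCONE. Determinants of the form `det(θ_j g_i)` with `g_i` of level one lie in the interior. -/
def JConeStmt : Prop := ∀ (n M : ℕ) (R : Type) [CommRing R] (g : Fin (n + 1) → PP n R),
  1 ≤ n → 1 ≤ M → (∀ i, IsCone M false (g i) ∧ HasLev 1 (g i)) →
  IsCone M true (Matrix.det (Matrix.of fun j i => th j (g i))) ∧
  HasLev (n + 1) (Matrix.det (Matrix.of fun j i => th j (g i)))

/-- PIOLA. -/
def PiolaStmt : Prop := ∀ (n M : ℕ) (R : Type) [CommRing R] (c : Grid n M → R)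
  (j : Fin (n + 1)), 1 ≤ n → 1 ≤ M → ∑ i, th i ((Hes c).adjugate i j) = 0

/-- JHOR. The Jacobian is horizontal. -/
def JHorStmt : Prop := ∀ (n M : ℕ) (R : Type) [CommRing R] (c : Grid n M → R) (d : R →+ R),
  1 ≤ n → 1 ≤ M → IsDer d →
  ∃ ξ : Fin (n + 1) → PP n R, (∀ i, IsCone M true (ξ i)) ∧
    nab d c (Jac c) = ∑ i, Dop c i (ξ i)

/-- value of the `i`-th coordinate of `(1, β)` -/
def bh {n M : ℕ} (β : Grid n M) (i : Fin (n + 1)) : ℕ := gex β i

/-- JZETA. -/
def JZetaStmt : Prop := ∀ (n M : ℕ) (R : Type) [CommRing R] (c : Grid n M → R) (β : Grid n M),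
  1 ≤ n → 1 ≤ M →
  ∃ ζ : Fin (n + 1) → PP n R, (∀ i, IsCone M true (ζ i) ∧ HasLev (n + 1) (ζ i)) ∧
    mon (gex β) * Jac c = ∑ i, Yp c i * ζ i ∧
    ∀ d : R →+ R, IsDer d → (∀ β', d (c β') = if β' = β then 1 else 0) →
      cder d (Jac c) = ∑ i, ((bh β i : ℕ) : PP n R) * ζ i

/-! ### DEL -/

/-- the partial derivations used in the duality block -/
structure PDer {n M : ℕ} {R : Type} [CommRing R] (c : Grid n M → R)
    (pd : Grid n M → R →+ R) : Prop where
  der : ∀ β, IsDer (pd β)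
  comm : ∀ β β' x, pd β (pd β' x) = pd β' (pd β x)
  val : ∀ β β', pd β (c β') = if β' = β then 1 else 0

/-- top coordinate -/
def gtop {n M : ℕ} (A : CAD n M true) {R : Type} [CommRing R] (c : Grid n M → R) :
    PP n R →ₗ[R] R :=
  (LinearMap.proj (⟨A.top, A.top_mem rfl⟩ : A.Bas)).comp (crd A c)

/-- derivative of a functional -/
def dfun {n M : ℕ} {R : Type} [CommRing R] (c : Grid n M → R) (d : R →+ R)
    (G : PP n R → R) : PP n R → R := fun x => d (G x) - G (nab d c x)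

/-- a functional on the interior cone killing the operators `D_i` -/
def KillT {n M : ℕ} {R : Type} [CommRing R] (c : Grid n M → R) (G : PP n R →ₗ[R] R) : Prop :=
  ∀ i σ, IsCone M true σ → G (Dop c i σ) = 0

/-- DET. A functional killing the `D_i`, vanishing on levels `≤ n` and on `Jac`, vanishes on the
interior cone. -/
def DetStmt : Prop := ∀ (n M : ℕ) (A : CAD n M true) (R : Type) [CommRing R]
  (c : Grid n M → R) (G : PP n R →ₗ[R] R), 1 ≤ n → 1 ≤ M → IsUnit (dt A c) → KillT c G →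
  (∀ s : Expo n, InCone M true s → s 0 ≤ n → G (mon s) = 0) → G (Jac c) = 0 →
  ∀ x, IsCone M true x → G x = 0

/-- GTOP. Values of the top coordinate on low levels; `g(Jac) = 1`. -/
def GtopStmt : Prop := ∀ (n M : ℕ) (A : CAD n M true) (R : Type) [CommRing R]
  (c : Grid n M → R), 1 ≤ n → 1 ≤ M → IsUnit (dt A c) →
  (∀ x, IsCone M true x → LevLe n x → gtop A c x = 0) ∧ gtop A c (Jac c) = 1 ∧
  KillT c (gtop A c)

/-- RJ. The functionals `R^(j)` on level `n+2` and the derivative formula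
`∂_β(R(τ)) = -Σ_j β_j R^(j)(y^β τ)` for monomials `τ` of level `n+1`; here `R = gtop` on level
`n+1`. -/
def RjStmt : Prop := ∀ (n M : ℕ) (A : CAD n M true) (R : Type) [CommRing R]
  (c : Grid n M → R) (pd : Grid n M → R →+ R), 1 ≤ n → 1 ≤ M → IsUnit (dt A c) → PDer c pd →
  ∃ Rj : Fin (n + 1) → PP n R →ₗ[R] R,
    ∀ (β : Grid n M) (τ : Expo n), InCone M true τ → τ 0 = n + 1 →
      pd β (gtop A c (mon τ)) =
        - ∑ j, ((bh β j : ℕ) : R) * Rj j (mon (gex β) * mon τ)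

/-- BOX. Second derivatives of the top coordinate depend only on the sum of the exponents. -/
def BoxStmt : Prop := ∀ (n M : ℕ) (A : CAD n M true) (R : Type) [CommRing R]
  (c : Grid n M → R) (pd : Grid n M → R →+ R), 1 ≤ n → 1 ≤ M → IsUnit (dt A c) → PDer c pd →
  ∀ β₁ β₂ β₃ β₄ : Grid n M, gex β₁ + gex β₂ = gex β₃ + gex β₄ →
  ∀ x, IsCone M true x →
    dfun c (pd β₁) (dfun c (pd β₂) (gtop A c)) x = dfun c (pd β₃) (dfun c (pd β₄) (gtop A c)) x

/-- EUL. Euler relations of the top coordinate. -/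
def EulStmt : Prop := ∀ (n M : ℕ) (A : CAD n M true) (R : Type) [CommRing R]
  (c : Grid n M → R) (pd : Grid n M → R →+ R), 1 ≤ n → 1 ≤ M → IsUnit (dt A c) → PDer c pd →
  ∀ (i : Fin (n + 1)) (x : PP n R), IsCone M true x →
    ∑ β : Grid n M, ((bh β i : ℕ) : R) * c β * dfun c (pd β) (gtop A c) x = 0

/-- CONN. Families of grid points with the same sum are connected by box moves. -/
def ConnStmt : Prop := ∀ (n M l : ℕ) (X : Type) (Φ : (Fin l → Grid n M) → X),
  (∀ (β γ : Fin l → Grid n M) (i j : Fin l), i ≠ j →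
    (∀ m, m ≠ i → m ≠ j → β m = γ m) → gex (β i) + gex (β j) = gex (γ i) + gex (γ j) →
    Φ β = Φ γ) →
  ∀ β γ : Fin l → Grid n M, ∑ m, gex (β m) = ∑ m, gex (γ m) → Φ β = Φ γ

/-- DEC. Every cone exponent is a sum of grid points. -/
def DecStmt : Prop := ∀ (n M : ℕ) (s : Expo n), InCone M false s →
  ∃ β : Fin (s 0) → Grid n M, s = ∑ m, gex (β m)

/-- DEL. The duality pairing. -/
def DelStmt : Prop := ∀ (n M : ℕ) (A : CAD n M true) (R : Type) [CommRing R]
  (c : Grid n M → R) (pd : Grid n M → R →+ R), 1 ≤ n → 1 ≤ M → IsUnit (dt A c) → PDer c pd →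
  ∃ δ : PP n R →ₗ[R] PP n R →ₗ[R] R,
    (∀ x, IsCone M true x → δ 1 x = gtop A c x) ∧
    (∀ i σ x, IsCone M false σ → IsCone M true x → δ (Dop c i σ) x = 0) ∧
    (∀ i σ x, IsCone M false x → IsCone M true σ → δ x (Dop c i σ) = 0) ∧
    (∀ β a x, IsCone M false a → IsCone M true x →
      pd β (δ a x) = δ (nab (pd β) c a) x + δ a (nab (pd β) c x)) ∧
    (∀ d : R →+ R, IsDer d → (∀ β, d (c β) = 0) → (∀ β x, d (pd β x) = pd β (d x)) →
      ∀ a x, IsCone M false a → IsCone M true x → d (δ a x) = δ (cder d a) x + δ a (cder d x))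

end Pool.Agent.Helper95_CM
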