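import Pool.Agent.Helper95_CM.StF

/-!
# Block K: number field level
Statements for the CM project (MP_31342c_an).
-/

set_option autoImplicit false
set_option linter.unusedSectionVars false

noncomputable section

namespace Pool.Agent.Helper95_CM

open MvPolynomial

/-- inclusion `ℤ_p → ℚ_p` -/
abbrev zq (p : ℕ) [Fact p.Prime] : ℤ_[p] →+* ℚ_[p] := algebraMap ℤ_[p] ℚ_[p]

section spr
variable {q : ℕ} {K : Type} [Field K]

/-- spreadable: `p`-integral for all large `p` and all embeddings `K → ℚ_p` -/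
def SprC (x : CC q K) : Prop := ∃ p0 : ℕ, ∀ (p : ℕ) [Fact p.Prime], p0 ≤ p →
  ∀ ι : K →+* ℚ_[p], ∃ y : CC q ℤ_[p], mC q ι x = mC q (zq p) y

def SprO (x : OO q K) : Prop := ∃ p0 : ℕ, ∀ (p : ℕ) [Fact p.Prime], p0 ≤ p →
  ∀ ι : K →+* ℚ_[p], ∃ y : OO q ℤ_[p], mO q ι x = mO q (zq p) y

def SprL (x : LL q K) : Prop := ∃ p0 : ℕ, ∀ (p : ℕ) [Fact p.Prime], p0 ≤ p →
  ∀ ι : K →+* ℚ_[p], ∃ y : LL q ℤ_[p], mL q ι x = mL q (zq p) y

variable (q K) in
/-- rational functions in `w` over the spreadable series in the generic parameters -/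
def kF : Subfield (OO q K) :=
  Subfield.closure ({x | ∃ y : CC q K, SprC y ∧ x = HahnSeries.C y} ∪ {wO q K})

/-- the working field inside `LL q K` -/
def InG (x : LL q K) : Prop := SprL x ∧ ∀ m : ℤ, x.coeff m ∈ kF q K

/-- entrywise lift -/
def LiftM {I J : Type} {p : ℕ} [Fact p.Prime] (ι : K →+* ℚ_[p]) (Q : Matrix I J (LL q K))
    (Q' : Matrix I J (LL q ℤ_[p])) : Prop :=
  Q.map (mL q ι) = Q'.map (mL q (zq p))

/-- Frobenius structures for almost all `p`, with pole orders `O(p)` -/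
def FrobK {I : Type} [Fintype I] [DecidableEq I] (L : ℕ) (Q : Matrix I I (LL q K)) : Prop :=
  (∀ i j, InG (Q i j)) ∧ ∀ N : ℕ, ∃ C p0 : ℕ, ∀ (p : ℕ) [Fact p.Prime], p0 ≤ p →
    ∀ (ι : K →+* ℚ_[p]) (Q' : Matrix I I (LL q ℤ_[p])), LiftM ι Q Q' →
      FAll p L (phO q ℤ_[p] p) Q' ∧
      ∃ P F, FStr (phL q ℤ_[p] p) (thLt q ℤ_[p]) p N L Q' P F ∧ PolLe (C * p) P ∧ PolLe (C * p) F

end spr

/-! ### ARI: arithmetic -/

/-- SPLIT. A number field embeds into `ℚ_p` for infinitely many `p`. -/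
def SplitStmt : Prop := ∀ (K : Type) [Field K] [NumberField K] (p0 : ℕ),
  ∃ (p : ℕ) (_ : Fact p.Prime), p0 ≤ p ∧ Nonempty (K →+* ℚ_[p])

/-- UNI. A nonzero element is a `p`-adic unit for large `p`. -/
def UniStmt : Prop := ∀ (K : Type) [Field K] [NumberField K] (x : K), x ≠ 0 →
  ∃ p0 : ℕ, ∀ (p : ℕ) [Fact p.Prime], p0 ≤ p → ∀ ι : K →+* ℚ_[p], ‖ι x‖ = 1

/-- NRM. The norm argument. -/
def NrmStmt : Prop := ∀ (K : Type) [Field K] [NumberField K] (a a' : K) (C : ℕ),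
  ∃ p0 : ℕ, ∀ (p : ℕ) [Fact p.Prime], p0 ≤ p → ∀ (ι : K →+* ℚ_[p]) (m : ℤ), |m| ≤ C * p →
    ‖ι ((p : K) * a - a' - (m : K))‖ ≤ ((p : ℝ) ^ (Module.finrank ℚ K + 1))⁻¹ →
    (p : K) * a - a' - (m : K) = 0

/-! ### SPR: spreadable series -/

/-- SPC. Spreadable elements of `CC` form a subfield; nonzero ones are nonzero modulo `p`. -/
def SpcStmt : Prop := ∀ (q : ℕ) (K : Type) [Field K] [NumberField K],
  (∃ S : Subfield (CC q K), ∀ x, x ∈ S ↔ SprC x) ∧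
  (∀ (a : K) (g : Gam q), SprC (HahnSeries.single g a : CC q K)) ∧
  (∀ x : CC q K, SprC x → x ≠ 0 → ∃ p0 : ℕ, ∀ (p : ℕ) [Fact p.Prime], p0 ≤ p →
    ∀ (ι : K →+* ℚ_[p]) (y : CC q ℤ_[p]), mC q ι x = mC q (zq p) y → IsUnit y)

/-- SPO. Properties of the field `kF`. -/
def SpoStmt : Prop := ∀ (q : ℕ) (K : Type) [Field K] [NumberField K] (x : OO q K),
  x ∈ kF q K →
  SprO x ∧ (∀ m, SprC (x.coeff m)) ∧
  (∃ A B : Polynomial (CC q K), (∀ i, SprC (A.coeff i)) ∧ (∀ i, SprC (B.coeff i)) ∧ B ≠ 0 ∧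
    x * B.eval₂ HahnSeries.C (wO q K) = A.eval₂ HahnSeries.C (wO q K)) ∧
  (x ≠ 0 → ∃ p0 : ℕ, ∀ (p : ℕ) [Fact p.Prime], p0 ≤ p →
    ∀ (ι : K →+* ℚ_[p]) (y : OO q ℤ_[p]), mO q ι x = mO q (zq p) y → IsUnit y)

/-- SPG. The working field. -/
def SpgStmt : Prop := ∀ (q : ℕ) (K : Type) [Field K] [NumberField K],
  (∃ S : Subfield (LL q K), ∀ x, x ∈ S ↔ InG x) ∧
  (∀ x : OO q K, x ∈ kF q K → InG (HahnSeries.C x : LL q K)) ∧
  InG (tL q K) ∧ InG (wL q K) ∧ (∀ i, InG (vL q K i)) ∧ (∀ a : K, InG (kL q K a)) ∧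
  (∀ x : LL q K, InG x → InG (thLt q K x)) ∧
  (∀ x : LL q K, (∀ m, x.coeff m ∈ kF q K) → (∃ a : ℤ, ∀ m, a < m → x.coeff m = 0) → InG x)

/-- LFT. Lifts: uniqueness, divisibility, compatibility of all operations. -/
def LftStmt : Prop := ∀ (q p : ℕ) [Fact p.Prime],
  Function.Injective (mL q (zq p)) ∧
  (∀ x : LL q ℤ_[p], (p : LL q ℤ_[p]) ∣ x ↔ ∀ m m' g, (p : ℤ_[p]) ∣ ((x.coeff m).coeff m').coeff g) ∧
  (∀ (N : ℕ) (x : LL q ℤ_[p]), (p : LL q ℤ_[p]) ^ N ∣ x ↔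
    ∀ m, (p : OO q ℤ_[p]) ^ N ∣ x.coeff m) ∧
  (∀ (N : ℕ) (x : OO q ℤ_[p]), (p : OO q ℤ_[p]) ^ N ∣ x ↔
    ∀ m, (p : CC q ℤ_[p]) ^ N ∣ x.coeff m) ∧
  (∀ (N : ℕ) (x : CC q ℤ_[p]), (p : CC q ℤ_[p]) ^ N ∣ x ↔
    ∀ g, (p : ℤ_[p]) ^ N ∣ x.coeff g)

/-- OPC. Operators commute with change of coefficients; projection formulas. -/
def OpcStmt : Prop := ∀ (q : ℕ) (R S : Type) [CommRing R] [CommRing S] (g : R →+* S) (p : ℕ),
  0 < p →
  (∀ x, mL q g (phL q R p x) = phL q S p (mL q g x)) ∧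
  (∀ x, mL q g (thLt q R x) = thLt q S (mL q g x)) ∧
  (∀ x, mL q g (thLw q R x) = thLw q S (mL q g x)) ∧
  (∀ i x, mL q g (thLc q R i x) = thLc q S i (mL q g x)) ∧
  (∀ x, mL q g (psL q R p x) = psL q S p (mL q g x)) ∧
  (∀ x y, psL q R p (phL q R p x * y) = x * psL q R p y) ∧
  (∀ x, thLt q R (phL q R p x) = (p : LL q R) * phL q R p (thLt q R x)) ∧
  (∀ (m : ℤ) (x : LL q R), OrdGe m x → ∀ i : ℤ, (p : ℤ) * i < m → (psL q R p x).coeff i = 0) ∧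
  (IsDer (R := LL q R) (thLt q R) ∧ IsDer (R := LL q R) (thLw q R) ∧
    ∀ i, IsDer (R := LL q R) (thLc q R i))

/-! ### LAT: lattices over a field of characteristic zero -/

/-- LATK. From pole-free cyclic relations to a stable lattice. -/
def LatkStmt : Prop := ∀ (k : Type) [Field k] (I : Type) [Fintype I] [DecidableEq I]
  (Q : Matrix I I (LaurentSeries k)),
  (∀ (i : I) (m : ℕ) (f : Fin m → LaurentSeries k),
    LinearIndependent (LaurentSeries k)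
      (fun j : Fin m => ((nbE (tht k) Q) ^ (j : ℕ)) (Pi.single i 1)) →
    ((nbE (tht k) Q) ^ m) (Pi.single i 1) =
      ∑ j, f j • ((nbE (tht k) Q) ^ (j : ℕ)) (Pi.single i 1) → ∀ j, OrdGe 0 (f j)) →
  ∃ U Ui Q' : Matrix I I (LaurentSeries k), Gauge (tht k) U Ui Q Q' ∧ PolF Q' ∧ LPol U

/-- SHEAR. From integral exponents to a nilpotent residue. -/
def ShearStmt : Prop := ∀ (k : Type) [Field k] [CharZero k] (I : Type) [Fintype I] [DecidableEq I]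
  (Q : Matrix I I (LaurentSeries k)) (al : List ℤ), PolF Q →
  ((mco 0 Q).charpoly = (al.map fun a => Polynomial.X - Polynomial.C (a : k)).prod) →
  ∃ U Ui Q' : Matrix I I (LaurentSeries k), Gauge (tht k) U Ui Q Q' ∧ PolF Q' ∧
    (mco 0 Q') ^ Fintype.card I = 0 ∧ LPol U

/-- FLAT. Killing the coefficients `0 < m < E`. -/
def FlatStmt : Prop := ∀ (k : Type) [Field k] [CharZero k] (I : Type) [Fintype I] [DecidableEq I]
  (Q : Matrix I I (LaurentSeries k)) (E : ℕ), PolF Q → (mco 0 Q) ^ Fintype.card I = 0 →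
  ∃ G Gi Q' : Matrix I I (LaurentSeries k), Gauge (tht k) G Gi Q Q' ∧ PolF Q' ∧ PolF G ∧
    PolF Gi ∧ LPol G ∧ mco 0 Q' = mco 0 Q ∧ ∀ m : ℤ, 0 < m → m < E → mco m Q' = 0

/-- HPOL. Solutions of inhomogeneous equations with nilpotent residue have no poles. -/
def HpolStmt : Prop := ∀ (k : Type) [Field k] [CharZero k] (I : Type) [Fintype I] [DecidableEq I]
  (Q : Matrix I I (LaurentSeries k)), PolF Q → (mco 0 Q) ^ Fintype.card I = 0 →
  (∀ x : I → LaurentSeries k, (∀ i, OrdGe 0 (nbv (tht k) Q x i)) → ∀ i, OrdGe 0 (x i)) ∧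
  (∀ G : I → LaurentSeries k, (∀ j, OrdGe 0 (tht k (G j) - ∑ i, G i * Q i j)) →
    ∀ j, OrdGe 0 (G j)) ∧
  (∀ (J : Type) [Fintype J] [DecidableEq J] (Q1 : Matrix J J (LaurentSeries k))
    (S : Matrix J I (LaurentSeries k)), PolF Q1 → (mco 0 Q1) ^ Fintype.card J = 0 →
    (∀ j i, tht k (S j i) = ∑ j', Q1 j' j * S j' i + ∑ i', S j i' * Q i' i) → PolF S)

/-- REGP. Over a field: a cyclic vector killed by a monic polynomial in `∇` has pole-free
relation coefficients. -/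
def RegpStmt : Prop := ∀ (k : Type) [Field k] (I : Type) [Fintype I] [DecidableEq I]
  (Q : Matrix I I (LaurentSeries k)) (x : I → LaurentSeries k) (m : ℕ)
  (f : Fin m → LaurentSeries k) (g : Polynomial ℤ), g.Monic →
  (Polynomial.aeval (nbE (tht k) Q) g) x = 0 →
  LinearIndependent (LaurentSeries k) (fun j : Fin m => ((nbE (tht k) Q) ^ (j : ℕ)) x) →
  ((nbE (tht k) Q) ^ m) x = ∑ j, f j • ((nbE (tht k) Q) ^ (j : ℕ)) x →
  ∀ j, OrdGe 0 (f j)

/-! ### FK: consequences of `FrobK` -/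

/-- GAUK. Gauge and duality invariance of `FrobK`. -/
def GaukStmt : Prop := ∀ (q : ℕ) (K : Type) [Field K] [NumberField K] (I : Type) [Fintype I]
  [DecidableEq I] (L : ℕ) (Q Q' U Ui : Matrix I I (LL q K)), FrobK L Q →
  (∀ i j, InG (U i j)) → (∀ i j, InG (Ui i j)) → Gauge (thLt q K) U Ui Q Q' →
  FrobK L Q' ∧ FrobK L (-Q.transpose)

/-- BCK. Base change to a larger number field. -/
def BckStmt : Prop := ∀ (q : ℕ) (K K' : Type) [Field K] [NumberField K] [Field K'] [NumberField K']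
  (j : K →+* K') (I : Type) [Fintype I] [DecidableEq I] (L : ℕ) (Q : Matrix I I (LL q K)),
  FrobK L Q → FrobK L (Q.map (mL q j))

/-- RELK. Cyclic relations are pole-free. -/
def RelkStmt : Prop := ∀ (q : ℕ) (K : Type) [Field K] [NumberField K] (I : Type) [Fintype I]
  [DecidableEq I] (L : ℕ) (Q : Matrix I I (LL q K)), FrobK L Q →
  ∀ (i : I) (m : ℕ) (f : Fin m → LL q K),
    LinearIndependent (LL q K)
      (fun j : Fin m => ((nbE (thLt q K) Q) ^ (j : ℕ)) (Pi.single i 1)) →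
    ((nbE (thLt q K) Q) ^ m) (Pi.single i 1) =
      ∑ j, f j • ((nbE (thLt q K) Q) ^ (j : ℕ)) (Pi.single i 1) → ∀ j, OrdGe 0 (f j)

/-- REGK. Regularity: a stable lattice. -/
def RegkStmt : Prop := ∀ (q : ℕ) (K : Type) [Field K] [NumberField K] (I : Type) [Fintype I]
  [DecidableEq I] (L : ℕ) (Q : Matrix I I (LL q K)), FrobK L Q →
  ∃ U Ui Q' : Matrix I I (LL q K), Gauge (thLt q K) U Ui Q Q' ∧ PolF Q' ∧ LPol U ∧
    (∀ i j, InG (U i j)) ∧ (∀ i j, InG (Ui i j)) ∧ (∀ i j, InG (Q' i j))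

/-- CHIK. The characteristic polynomial of the residue has coefficients in `K`. -/
def ChikStmt : Prop := ∀ (q : ℕ) (K : Type) [Field K] [NumberField K] (I : Type) [Fintype I]
  [DecidableEq I] (L : ℕ) (Q : Matrix I I (LL q K)), FrobK L Q → PolF Q →
  ∃ χ : Polynomial K, χ.Monic ∧ (mco 0 Q).charpoly = χ.map (kO q K)

/-- EXPK. The exponents are rational numbers. -/
def ExpkStmt : Prop := ∀ (q : ℕ) (K : Type) [Field K] [NumberField K] (I : Type) [Fintype I]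
  [DecidableEq I] (L : ℕ) (Q : Matrix I I (LL q K)) (χ : Polynomial K), FrobK L Q → PolF Q →
  (mco 0 Q).charpoly = χ.map (kO q K) →
  ∃ al : List ℚ, χ = (al.map fun a => Polynomial.X - Polynomial.C (a : K)).prod

/-- TRK. Transfer at the number field level, for any family of `F`'s with pole orders `O(p)`. -/
def TrkStmt : Prop := ∀ (q : ℕ) (K : Type) [Field K] [NumberField K] (I : Type) [Fintype I]
  [DecidableEq I] (L : ℕ) (Q : Matrix I I (LL q K)), FrobK L Q → PolF Q →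
  (mco 0 Q) ^ Fintype.card I = 0 →
  ∀ (N C : ℕ), ∃ p0 : ℕ, ∀ (p : ℕ) [Fact p.Prime], p0 ≤ p →
    ∀ (ι : K →+* ℚ_[p]) (Q' F : Matrix I I (LL q ℤ_[p])), LiftM ι Q Q' →
      Cong ((p : LL q ℤ_[p]) ^ N) (F.map (thLt q ℤ_[p]) + Q' * F)
        ((p : LL q ℤ_[p]) • (F * Q'.map (phL q ℤ_[p] p))) →
      PolLe (C * p) F → PolMod p (N - (2 * L + 1) * Fintype.card I ^ 2) F

end Pool.Agent.Helper95_CM
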