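import Pool.Agent.Helper95_CM.Geo

/-!
# Block G: the geometric family at the number field level, and the end of the proof
Statements for the CM project (MP_31342c_an).
-/

set_option autoImplicit false
set_option linter.unusedSectionVars false

noncomputable section

namespace Pool.Agent.Helper95_CM

open MvPolynomial

/-! ### reduction of the analytic statement -/

/-- INT. The integral over the cube is the formal moment. -/
def IntStmt : Prop := ∀ (n : ℕ) (f : MvPolynomial (Fin n) ℂ),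
  ∫ x in Set.Icc (0 : Fin n → ℝ) 1, (eval (fun i => ((x i : ℝ) : ℂ)) f) = Mom f

/-- NFR. Reduction to number fields: if some nonzero complex polynomial has vanishing moments,
then there is one over a number field in which all variables occur. -/
def NfrStmt : Prop :=
  (∃ (n : ℕ) (f : MvPolynomial (Fin n) ℂ), f ≠ 0 ∧ ∀ m : ℕ, 1 ≤ m → Mom (f ^ m) = 0) →
  ∃ (n : ℕ) (K : Type) (_ : Field K) (_ : NumberField K) (f : MvPolynomial (Fin n) K),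
    1 ≤ n ∧ (∀ k, ∃ u ∈ f.support, 0 < u k) ∧ ∀ m : ℕ, 1 ≤ m → Mom (f ^ m) = 0

section
variable {n M : ℕ} {b : Bool}

/-- unipotent lattice for the family -/
structure ULat (A : CAD n M b) (D : ℕ) {K : Type} [Field K] (f : MvPolynomial (Fin n) K)
    (U Ui Rv : Matrix A.Bas A.Bas (LL (qG n M) K)) : Prop where
  gau : Gauge (thLt (qG n M) K) U Ui (Rm A (thLt (qG n M) K) (cgen D f)) Rv
  gU : ∀ i j, InG (U i j)
  gUi : ∀ i j, InG (Ui i j)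
  gR : ∀ i j, InG (Rv i j)
  pf : PolF Rv
  nil : (mco 0 Rv) ^ Fintype.card A.Bas = 0
  lp : LPol U

/-- lifted data at a prime -/
structure PLift (A : CAD n M b) (D : ℕ) {K : Type} [Field K] (f : MvPolynomial (Fin n) K)
    (U Ui Rv : Matrix A.Bas A.Bas (LL (qG n M) K)) {p : ℕ} [Fact p.Prime] (ι : K →+* ℚ_[p])
    (f' : MvPolynomial (Fin n) ℤ_[p]) (Dl : PP n (LL (qG n M) ℤ_[p]))
    (U' Ui' Rv' : Matrix A.Bas A.Bas (LL (qG n M) ℤ_[p])) : Prop where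
  lf : LiftP ι f f'
  dl : IsDl p (phL (qG n M) ℤ_[p] p) (cgen D f') Dl
  un : IsUnit (dt A (cgen (M := M) D f'))
  lU : LiftM ι U U'
  lUi : LiftM ι Ui Ui'
  lR : LiftM ι Rv Rv'

/-- `P` in the lattice basis -/
def Pv (A : CAD n M b) (D N p : ℕ) [Fact p.Prime] (f' : MvPolynomial (Fin n) ℤ_[p])
    (Dl : PP n (LL (qG n M) ℤ_[p])) (U' Ui' : Matrix A.Bas A.Bas (LL (qG n M) ℤ_[p])) :
    Matrix A.Bas A.Bas (LL (qG n M) ℤ_[p]) :=
  Ui'.map (phL (qG n M) ℤ_[p] p) *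
    Pm A p (kL (qG n M) ℤ_[p]) N (phL (qG n M) ℤ_[p] p) (cgen D f') Dl * U'

/-- `F` in the lattice basis -/
def Fv (A : CAD n M b) (D N p : ℕ) [Fact p.Prime] (f' : MvPolynomial (Fin n) ℤ_[p])
    (Dl : PP n (LL (qG n M) ℤ_[p])) (U' Ui' : Matrix A.Bas A.Bas (LL (qG n M) ℤ_[p])) :
    Matrix A.Bas A.Bas (LL (qG n M) ℤ_[p]) :=
  Ui' * Fm A p (kL (qG n M) ℤ_[p]) N (phL (qG n M) ℤ_[p] p) (cgen D f') Dl *
    U'.map (phL (qG n M) ℤ_[p] p)

end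

/-! ### the family at the number field level -/

/-- CGU. The discriminant of the family does not vanish; all coefficients are in the working
field and have no poles. -/
def CguStmt : Prop := ∀ (n M D : ℕ) (b : Bool) (A : CAD n M b) (K : Type) [Field K]
  [NumberField K] (f : MvPolynomial (Fin n) K), GData n M D K f →
  dt A (cgen D f) ≠ 0 ∧ InG (dt A (cgen D f)) ∧
  (∀ β : Grid n M, InG (cgen D f β) ∧ OrdGe 0 (cgen D f β)) ∧
  (∀ (x : PP n (LL (qG n M) K)), (∀ s, InG (coeff s x)) → ∀ s, InG (crd A (cgen D f) x s)) ∧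
  (∀ i j, InG (Rm A (thLt (qG n M) K) (cgen D f) i j))

/-- CGP. Lifts of the family at large primes. -/
def CgpStmt : Prop := ∀ (n M D : ℕ) (b : Bool) (A : CAD n M b) (K : Type) [Field K]
  [NumberField K] (f : MvPolynomial (Fin n) K), GData n M D K f →
  ∃ p0 e : ℕ, ∀ (p : ℕ) [Fact p.Prime], p0 ≤ p → ∀ (ι : K →+* ℚ_[p]),
    (∃ f' : MvPolynomial (Fin n) ℤ_[p], LiftP ι f f') ∧
    ∀ f' : MvPolynomial (Fin n) ℤ_[p], LiftP ι f f' →
      (∀ β : Grid n M, mL (qG n M) ι (cgen D f β) = mL (qG n M) (zq p) (cgen D f' β)) ∧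
      IsUnit (dt A (cgen (M := M) D f')) ∧
      OrdGe (-(e : ℤ)) (Ring.inverse (dt A (cgen (M := M) D f'))) ∧
      (∀ β : Grid n M, OrdGe 0 (cgen D f' β)) ∧
      (∀ (x : PP n (LL (qG n M) K)) (x' : PP n (LL (qG n M) ℤ_[p])),
        map (mL (qG n M) ι) x = map (mL (qG n M) (zq p)) x' →
        ∀ s, mL (qG n M) ι (crd A (cgen D f) x s) =
          mL (qG n M) (zq p) (crd A (cgen D f') x' s)) ∧
      LiftM ι (Rm A (thLt (qG n M) K) (cgen D f))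
        (Rm A (thLt (qG n M) ℤ_[p]) (cgen D f'))

/-- FRK. The Frobenius structure of the family. -/
def FrkStmt : Prop := ∀ (n M D : ℕ) (b : Bool) (A : CAD n M b) (K : Type) [Field K]
  [NumberField K] (f : MvPolynomial (Fin n) K), GData n M D K f →
  FrobK (Lb n b) (Rm A (thLt (qG n M) K) (cgen D f))

/-- DSUB. Substitution `t ↦ t^D`. -/
def DsubStmt : Prop := ∀ (n M D : ℕ) (b : Bool) (A : CAD n M b) (K : Type) [Field K]
  [NumberField K] (f : MvPolynomial (Fin n) K), GData n M D K f →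
  Rm A (thLt (qG n M) K) (cgen D f) =
    (D : LL (qG n M) K) • (Rm A (thLt (qG n M) K) (cgen 1 f)).map (tsub (qG n M) K D)

/-- ULA. Unipotent lattices exist after `t ↦ t^D`. -/
def UlaStmt : Prop := ∀ (n M : ℕ) (b : Bool) (A : CAD n M b) (K : Type) [Field K]
  [NumberField K] (f : MvPolynomial (Fin n) K), GData n M 1 K f →
  ∃ D0 : ℕ, 1 ≤ D0 ∧ ∀ D : ℕ, 1 ≤ D → D0 ∣ D →
    ∃ U Ui Rv : Matrix A.Bas A.Bas (LL (qG n M) K), ULat A D f U Ui Rv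

/-- PLX. Lifts of a unipotent lattice exist at large primes. -/
def PlxStmt : Prop := ∀ (n M D : ℕ) (b : Bool) (A : CAD n M b) (K : Type) [Field K]
  [NumberField K] (f : MvPolynomial (Fin n) K) (U Ui Rv : Matrix A.Bas A.Bas (LL (qG n M) K)),
  GData n M D K f → ULat A D f U Ui Rv →
  ∃ p0 : ℕ, ∀ (p : ℕ) [Fact p.Prime], p0 ≤ p → ∀ (ι : K →+* ℚ_[p]),
    ∃ f' Dl U' Ui' Rv', PLift A D f U Ui Rv ι f' Dl U' Ui' Rv'

/-- TKG. Frobenius on the unipotent lattice has no poles modulo `p^N'`. -/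
def TkgStmt : Prop := ∀ (n M D : ℕ) (b : Bool) (A : CAD n M b) (K : Type) [Field K]
  [NumberField K] (f : MvPolynomial (Fin n) K) (U Ui Rv : Matrix A.Bas A.Bas (LL (qG n M) K)),
  GData n M D K f → ULat A D f U Ui Rv →
  ∀ N' : ℕ, ∃ N C p0 : ℕ, 1 ≤ N ∧ N' ≤ N ∧ ∀ (p : ℕ) [Fact p.Prime], p0 ≤ p →
    ∀ (ι : K →+* ℚ_[p]) (f' : MvPolynomial (Fin n) ℤ_[p]) (Dl : PP n (LL (qG n M) ℤ_[p]))
      (U' Ui' Rv' : Matrix A.Bas A.Bas (LL (qG n M) ℤ_[p])),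
      PLift A D f U Ui Rv ι f' Dl U' Ui' Rv' →
      FStr (phL (qG n M) ℤ_[p] p) (thLt (qG n M) ℤ_[p]) p N' (Lb n b) Rv'
        (Pv A D N p f' Dl U' Ui') (Fv A D N p f' Dl U' Ui') ∧
      PolMod p N' (Pv A D N p f' Dl U' Ui') ∧ PolMod p N' (Fv A D N p f' Dl U' Ui') ∧
      PolLe (C * p) (Pm A p (kL (qG n M) ℤ_[p]) N (phL (qG n M) ℤ_[p] p) (cgen D f') Dl)

/-- ORDP. Orders along the operator `σ ↦ ψ_all(σ F^(p-1))`, on level one. -/
def OrdpStmt : Prop := ∀ (n M D : ℕ) (b : Bool) (A : CAD n M b) (K : Type) [Field K]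
  [NumberField K] (f : MvPolynomial (Fin n) K) (U Ui Rv : Matrix A.Bas A.Bas (LL (qG n M) K)),
  GData n M D K f → ULat A D f U Ui Rv →
  ∃ p0 : ℕ, ∀ (p : ℕ) [Fact p.Prime], p0 ≤ p →
    ∀ (ι : K →+* ℚ_[p]) (f' : MvPolynomial (Fin n) ℤ_[p]) (Dl : PP n (LL (qG n M) ℤ_[p]))
      (U' Ui' Rv' : Matrix A.Bas A.Bas (LL (qG n M) ℤ_[p])),
      PLift A D f U Ui Rv ι f' Dl U' Ui' Rv' →
      ∀ (σ : PP n (LL (qG n M) ℤ_[p])) (a : ℤ), IsCone M b σ → HasLev 1 σ →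
        (∀ i, OrdGe a ((Ui'.mulVec (crd A (cgen D f') σ)) i)) →
        ∀ i, ∀ m : ℤ, (p : ℤ) * m < a → (p : OO (qG n M) ℤ_[p]) ∣
          ((Ui'.mulVec (crd A (cgen D f') (cder (psL (qG n M) ℤ_[p] p)
            (psi p (σ * Fp (cgen (M := M) D f') ^ (p - 1)))))) i).coeff m

/-! ### S1, S2 -/

/-- MONO. A power of `f(1-u)` has a monomial with all exponents large, modulo `p`. -/
def MonoStmt : Prop := ∀ (n : ℕ) (K : Type) [Field K] [NumberField K]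
  (f : MvPolynomial (Fin n) K), 1 ≤ n → (∀ k, ∃ u ∈ f.support, 0 < u k) →
  ∃ p0 : ℕ, ∀ (p : ℕ) [Fact p.Prime], p0 ≤ p → ∀ (ι : K →+* ℚ_[p])
    (f' : MvPolynomial (Fin n) ℤ_[p]), LiftP ι f f' → ∀ j a : ℕ, j < p → n * a ≤ j →
    ∃ i ≤ j, ∃ v : Fin n →₀ ℕ, (∀ k, a ≤ v k) ∧
      ¬ (p : ℤ_[p]) ∣ coeff v ((aeval (fun k => 1 - X k : Fin n → MvPolynomial (Fin n) ℤ_[p]) f') ^ i)

/-- WIN. Window lemma: passage from exponents of `f(1-u)^i` to exponents of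
`h = Π(1+y_k)^(r_k) (Σ_u f_u Π y_k^(u_k) (1+y_k)^(d_k-u_k))^i`. -/
def WinStmt : Prop := ∀ (n p i lo : ℕ) [Fact p.Prime] (dd : Fin n → ℕ)
  (g : MvPolynomial (Fin n) ℤ_[p]), (∀ k, degreeOf k g ≤ dd k) → (∀ k, dd k * i ≤ p - 1) →
  1 ≤ lo → lo ≤ p - 1 → (∀ k, dd k * i ≤ p - 1 + lo) →
  (∃ v : Fin n →₀ ℕ, (∀ k, lo ≤ v k) ∧
    ¬ (p : ℤ_[p]) ∣ coeff v ((aeval (fun k => 1 - X k : Fin n → MvPolynomial (Fin n) ℤ_[p]) g) ^ i)) →
  ∃ e : Fin n →₀ ℕ, (∀ k, lo ≤ e k ∧ e k ≤ p - 1) ∧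
    ¬ (p : ℤ_[p]) ∣ coeff e ((∏ k, (1 + X k) ^ (p - 1 + lo - dd k * i)) *
      (g.support.sum fun u => C (coeff u g) *
        ∏ k, (X k ^ (u k) * (1 + X k) ^ (dd k - u k))) ^ i)

/-- S1P. The polynomial identity behind S1. -/
def S1pStmt : Prop := ∀ (n M : ℕ) (K : Type) [Field K] [NumberField K]
  (f : MvPolynomial (Fin n) K), GData n M 1 K f → (∀ k, ∃ u ∈ f.support, 0 < u k) →
  ∃ κ p0 : ℕ, 1 ≤ κ ∧ ∀ (p : ℕ) [Fact p.Prime], p0 ≤ p → ∀ (ι : K →+* ℚ_[p])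
    (f' : MvPolynomial (Fin n) ℤ_[p]), LiftP ι f f' →
    ∃ (m i : ℕ) (μ : Grid n M → ℕ) (u : Fin n → ℕ) (a : ℤ_[p]),
      ∑ β, μ β = m ∧ m + i + 1 ≤ p ∧ (∀ k, 0 < u k ∧ u k < M) ∧ IsUnit a ∧
      κ * M * m + p ≤ κ * p ∧
      C (p : ℤ_[p]) ∣ psi p (mon (mkE 1 u) * (∏ β : Grid n M, mon (gex β) ^ μ β) *
          Fp (fun β : Grid n M => ((bin β : ℕ) : ℤ_[p])) ^ (p - 1 - m - i) *
          Fp (fun β : Grid n M => ftil f' β) ^ i)
        - C a * omg n M ℤ_[p]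

/-- S1. The order of `ω` in the unipotent lattice is larger than `-D/M`. -/
def S1Stmt : Prop := ∀ (n M D : ℕ) (A : CAD n M true) (K : Type) [Field K]
  [NumberField K] (f : MvPolynomial (Fin n) K) (U Ui Rv : Matrix A.Bas A.Bas (LL (qG n M) K)),
  GData n M D K f → ULat A D f U Ui Rv → (∀ k, ∃ u ∈ f.support, 0 < u k) →
  ∃ q0 : ℕ, q0 * M < D ∧
    ∀ i, OrdGe (-(q0 : ℤ)) ((Ui.mulVec (crd A (cgen D f) (omg n M (LL (qG n M) K)))) i)

/-- S2. The order of `t^D m_β` in the unipotent lattice of the full cone is at least `D/M`. -/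
def S2Stmt : Prop := ∀ (n M D : ℕ) (A : CAD n M false) (K : Type) [Field K]
  [NumberField K] (f : MvPolynomial (Fin n) K) (U Ui Rv : Matrix A.Bas A.Bas (LL (qG n M) K)),
  GData n M D K f → ULat A D f U Ui Rv → M ∣ D →
  ∀ (β : Grid n M) (i : A.Bas),
    OrdGe (-(D : ℤ) + ((D / M : ℕ) : ℤ))
      ((Ui.mulVec (crd A (cgen D f) (mon (gex β) : PP n (LL (qG n M) K)))) i)

/-- index of the top element -/
def topI {n M : ℕ} (A : CAD n M true) : A.Bas := ⟨A.top, A.top_mem rfl⟩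

/-- KAP. The derivative of the top coordinate has order at least `D/M`; the top coordinate has no
poles; the Jacobian lies in the lattice. -/
def KapStmt : Prop := ∀ (n M D : ℕ) (A : CAD n M true) (K : Type) [Field K]
  [NumberField K] (f : MvPolynomial (Fin n) K) (U Ui Rv : Matrix A.Bas A.Bas (LL (qG n M) K)),
  GData n M D K f → ULat A D f U Ui Rv →
  (∃ (A0 : CAD n M false) (U0 Ui0 Rv0 : Matrix A0.Bas A0.Bas (LL (qG n M) K)),
    ULat A0 D f U0 Ui0 Rv0) → M ∣ D →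
  (∀ j, OrdGe ((D / M : ℕ) : ℤ) (thLt (qG n M) K (U (topI A) j) -
    ∑ i, U (topI A) i * Rv i j)) ∧
  (∀ j, OrdGe 0 (U (topI A) j)) ∧ (∀ j, OrdGe 0 (Ui j (topI A)))

/-- row vector of the values of `C` on the lattice basis -/
def Cv {n M : ℕ} (A : CAD n M true) (D : ℕ) {K : Type} [Field K] [CharZero K]
    (f : MvPolynomial (Fin n) K) (U : Matrix A.Bas A.Bas (LL (qG n M) K)) :
    A.Bas → LL (qG n M) K :=
  fun j => ∑ s : A.Bas, Cfun M D f (bb A (cgen D f) s) * U s j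

/-- X0. The modified class of `ω`. -/
def X0Stmt : Prop := ∀ (n M D q0 : ℕ) (A : CAD n M true) (K : Type) [Field K]
  [NumberField K] (f : MvPolynomial (Fin n) K) (U Ui Rv : Matrix A.Bas A.Bas (LL (qG n M) K)),
  GData n M D K f → ULat A D f U Ui Rv → M ∣ D → q0 * M < D →
  (∀ i, OrdGe (-(q0 : ℤ)) ((Ui.mulVec (crd A (cgen D f) (omg n M (LL (qG n M) K)))) i)) →
  (∀ j, OrdGe ((D / M : ℕ) : ℤ) (thLt (qG n M) K (U (topI A) j) -
    ∑ i, U (topI A) i * Rv i j)) →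
  ∃ ξ : A.Bas → LL (qG n M) K, (∀ i, InG (ξ i)) ∧ (∀ i, OrdGe 0 (ξ i)) ∧
    OrdGe 1 (∑ j, U (topI A) j * ξ j) ∧
    ∀ G : A.Bas → LL (qG n M) K, (∀ j, thLt (qG n M) K (G j) = ∑ i, G i * Rv i j) →
      OrdGe 0 (∑ j, G j * (Ui.mulVec (crd A (cgen D f) (omg n M (LL (qG n M) K)))) j) →
      (∑ j, G j * ξ j).coeff 0 =
        (∑ j, G j * (Ui.mulVec (crd A (cgen D f) (omg n M (LL (qG n M) K)))) j).coeff 0

/-! ### the functional `C` -/

/-- IFN. The functional `I` kills the operators for `F_00 = T Π (1+y_k)^M`, and is unique up to a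
scalar. -/
def IfnStmt : Prop := ∀ (n M : ℕ) (K : Type) [Field K] [CharZero K], 1 ≤ n → 2 ≤ M →
  (∀ i (σ : PP n K), IsCone M true σ →
    Ifun M (Dop (fun β : Grid n M => ((bin β : ℕ) : K)) i σ) = 0) ∧
  (∀ G : PP n K →ₗ[K] K, (∀ i (σ : PP n K), IsCone M true σ →
    G (Dop (fun β : Grid n M => ((bin β : ℕ) : K)) i σ) = 0) →
    ∀ s0 : Expo n, InCone M true s0 → s0 0 = 1 →
    ∀ s : Expo n, InCone M true s →
      G (mon s) * algebraMap ℚ K (Iq M s0) = G (mon s0) * algebraMap ℚ K (Iq M s))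

/-- CFN. Properties of the functional `C`. -/
def CfnStmt : Prop := ∀ (n M D : ℕ) (K : Type) [Field K] [CharZero K]
  (f : MvPolynomial (Fin n) K), GData n M D K f →
  (∀ i (σ : PP n (LL (qG n M) K)), IsCone M true σ → Cfun M D f (Dop (cgen D f) i σ) = 0) ∧
  (∀ x : PP n (LL (qG n M) K), IsCone M true x →
    thLt (qG n M) K (Cfun M D f x) = Cfun M D f (nab (thLt (qG n M) K) (cgen D f) x)) ∧
  (∀ x : PP n (LL (qG n M) K), IsCone M true x →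
    thLw (qG n M) K (Cfun M D f x) = Cfun M D f (nab (thLw (qG n M) K) (cgen D f) x)) ∧
  (∀ s, OrdGe 0 (Cm M D f s)) ∧
  ((∀ m : ℕ, 1 ≤ m → Mom (f ^ m) = 0) →
    OrdGe 0 (Cfun M D f (omg n M (LL (qG n M) K))) ∧
    (Cfun M D f (omg n M (LL (qG n M) K))).coeff 0 = 1)

/-- CMN. Naturality of `C`, and integrality of its coefficients for large `p`. -/
def CmnStmt : Prop := ∀ (n M D : ℕ) (K K' : Type) [Field K] [CharZero K] [Field K'] [CharZero K']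
  (j : K →+* K') (f : MvPolynomial (Fin n) K) (s : Expo n),
  mL (qG n M) j (Cm M D f s) = Cm M D (map j f) s

/-- `C^φ` applied to an element over `ℤ_p` -/
def Cph {n : ℕ} (M D p : ℕ) [Fact p.Prime] (f : MvPolynomial (Fin n) ℚ_[p])
    (x : PP n (LL (qG n M) ℤ_[p])) : LL (qG n M) ℚ_[p] :=
  x.support.sum fun s => mL (qG n M) (zq p) (coeff s x) *
    phL (qG n M) ℚ_[p] p (Cm M D f s)

/-- OMG. The element `ω` lies in the interior cone, at level one. -/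
def OmgStmt : Prop := ∀ (n M : ℕ) (R : Type) [CommRing R], 2 ≤ M →
  IsCone M true (omg n M R) ∧ HasLev 1 (omg n M R)

/-- EST. Estimate of the coefficients of `C`. -/
def EstStmt : Prop := ∀ (n M D p : ℕ) [Fact p.Prime] (f' : MvPolynomial (Fin n) ℤ_[p]),
  1 ≤ n → 2 ≤ M → 1 ≤ D → (∀ k, degreeOf k f' ≤ M) →
  ∀ (s : Expo n), InCone M true s → ∀ (m m' : ℕ) (g : Gam (qG n M)),
    ‖(((Cm M D (map (zq p) f') s).coeff (m : ℤ)).coeff (m' : ℤ)).coeff g‖ ≤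
      ‖(((s 0 - 1).factorial : ℕ) : ℚ_[p])‖ * (p : ℝ) ^ (2 * n * Nat.log p (M * (s 0 + m + m')))

/-- CPH. `C^φ` kills the operators for `φ(c)` and is horizontal. -/
def CphStmt : Prop := ∀ (n M D p : ℕ) [Fact p.Prime] (f' : MvPolynomial (Fin n) ℤ_[p]),
  1 ≤ n → 2 ≤ M → 1 ≤ D → (∀ k, degreeOf k f' ≤ M) →
  (∀ i (σ : PP n (LL (qG n M) ℤ_[p])), IsCone M true σ →
    Cph M D p (map (zq p) f')
      (Dop (fun β : Grid n M => phL (qG n M) ℤ_[p] p (cgen D f' β)) i σ) = 0) ∧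
  (∀ x : PP n (LL (qG n M) ℤ_[p]), IsCone M true x →
    thLt (qG n M) ℚ_[p] (Cph M D p (map (zq p) f') x) = Cph M D p (map (zq p) f')
      (nab (thLt (qG n M) ℤ_[p]) (fun β : Grid n M => phL (qG n M) ℤ_[p] p (cgen D f' β)) x)) ∧
  (∀ x : PP n (LL (qG n M) ℤ_[p]), IsCone M true x →
    thLw (qG n M) ℚ_[p] (Cph M D p (map (zq p) f') x) = Cph M D p (map (zq p) f')
      (nab (thLw (qG n M) ℤ_[p]) (fun β : Grid n M => phL (qG n M) ℤ_[p] p (cgen D f' β)) x))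

/-- VALI. The values at `w = t = 0`: `p^(n+1)` divides `I(Psi_J m_s)`. -/
def ValiStmt : Prop := ∀ (n M p J : ℕ) [Fact p.Prime], 1 ≤ n → 2 ≤ M → M < p → 3 ≤ p →
  ∀ (Dl : PP n ℤ_[p]), IsDl p (RingHom.id ℤ_[p]) (fun β : Grid n M => ((bin β : ℕ) : ℤ_[p])) Dl →
  ∀ s : Expo n, InCone M true s → s 0 = 1 →
    ‖(Ifun M (map (zq p) (Psi p (RingHom.id ℤ_[p]) J
      (Fp (fun β : Grid n M => ((bin β : ℕ) : ℤ_[p]))) Dl (mon s))) : ℚ_[p])‖
      ≤ ((p : ℝ) ^ (n + 1))⁻¹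

/-- CLIM. The limit of `C^φ ∘ Psi_J` is a multiple of `C`. -/
def ClimStmt : Prop := ∀ (n M D p : ℕ) [Fact p.Prime] (f' : MvPolynomial (Fin n) ℤ_[p])
  (Dl : PP n (LL (qG n M) ℤ_[p])), 1 ≤ n → 2 ≤ M → 1 ≤ D → (∀ k, degreeOf k f' ≤ M) → M < p →
  3 ≤ p → IsDl p (phL (qG n M) ℤ_[p] p) (cgen (M := M) D f') Dl →
  ∃ lam : ℤ_[p], (p : ℤ_[p]) ^ (n + 1) ∣ lam ∧
    ∀ s : Expo n, InCone M true s → ∀ (m m' : ℤ) (g : Gam (qG n M)),
      Filter.Tendsto (fun J : ℕ => (((Cph M D p (map (zq p) f')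
        (Psi p (kL (qG n M) ℤ_[p]) J (Fp (cgen (M := M) D f')) Dl (mon s))).coeff m).coeff m').coeff g)
        Filter.atTop
        (nhds ((((kL (qG n M) ℚ_[p] (zq p lam) * Cm M D (map (zq p) f') s).coeff m).coeff m').coeff g))

/-- TAIL. Estimate of the tail. -/
def TailStmt : Prop := ∀ (n M N X : ℕ), ∃ p0 : ℕ, ∀ (p : ℕ) [Fact p.Prime] (D : ℕ)
  (f' : MvPolynomial (Fin n) ℤ_[p]) (Dl : PP n (LL (qG n M) ℤ_[p])), p0 ≤ p → 1 ≤ n → 2 ≤ M →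
  1 ≤ D → (∀ k, degreeOf k f' ≤ M) → IsDl p (phL (qG n M) ℤ_[p] p) (cgen (M := M) D f') Dl →
  ∀ s : Expo n, InCone M true s → s 0 ≤ n + 1 → ∀ J ≥ 2 * N, ∀ (m m' : ℤ) (g : Gam (qG n M)),
    m ≤ X → m' ≤ X * p →
    ‖(((Cph M D p (map (zq p) f') (Psi p (kL (qG n M) ℤ_[p]) J (Fp (cgen (M := M) D f')) Dl (mon s))
      - Cph M D p (map (zq p) f') (Psi p (kL (qG n M) ℤ_[p]) (2 * N) (Fp (cgen (M := M) D f')) Dl
        (mon s))).coeff m).coeff m').coeff g‖ ≤ ((p : ℝ) ^ N)⁻¹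

/-- CPS. Conclusion: `C^φ ∘ Psi = λ C` on low order coefficients. -/
def CpsStmt : Prop := ∀ (n M D N X : ℕ), ∃ p0 : ℕ, ∀ (p : ℕ) [Fact p.Prime]
  (f' : MvPolynomial (Fin n) ℤ_[p]) (Dl : PP n (LL (qG n M) ℤ_[p])), p0 ≤ p → 1 ≤ n → 2 ≤ M →
  1 ≤ D → (∀ k, degreeOf k f' ≤ M) → IsDl p (phL (qG n M) ℤ_[p] p) (cgen (M := M) D f') Dl →
  ∃ lam : ℤ_[p], (p : ℤ_[p]) ^ (n + 1) ∣ lam ∧
  ∀ s : Expo n, InCone M true s → s 0 ≤ n + 1 → ∀ (m m' : ℤ) (g : Gam (qG n M)),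
    m ≤ X → m' ≤ X * p →
    ‖(((Cph M D p (map (zq p) f') (Psi p (kL (qG n M) ℤ_[p]) (2 * N) (Fp (cgen (M := M) D f')) Dl
        (mon s)) - kL (qG n M) ℚ_[p] (zq p lam) * Cm M D (map (zq p) f') s).coeff m).coeff m').coeff g‖
      ≤ ((p : ℝ) ^ N)⁻¹

end Pool.Agent.Helper95_CM
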