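import Pool.Agent.Helper95_CM.StE
import Pool.Agent.Helper95_CM.Base

/-!
# Semilinear functionals `x ↦ Σ φ(x_s) g(s)` (CM project)
-/

set_option autoImplicit false
set_option linter.unusedSectionVars false

noncomputable section

namespace Pool.Agent.Helper95_CM

open MvPolynomial

section
variable {n : ℕ} {R S : Type} [CommRing R] [CommRing S]

/-- `Σ_s φ(x_s) g(s)` -/
def lsm (φ : R →+* S) (g : Expo n → S) (x : PP n R) : S :=
  x.support.sum fun s => φ (coeff s x) * g s

lemma lsm_of_subset (φ : R →+* S) (g : Expo n → S) (x : PP n R) (t : Finset (Expo n))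
    (h : x.support ⊆ t) : lsm φ g x = ∑ s ∈ t, φ (coeff s x) * g s := by
  unfold lsm
  apply Finset.sum_subset h
  intro s _ hs
  rw [notMem_support_iff.mp hs, map_zero, zero_mul]

lemma lsm_zero (φ : R →+* S) (g : Expo n → S) : lsm φ g 0 = 0 := by
  unfold lsm; rw [support_zero, Finset.sum_empty]

lemma lsm_add (φ : R →+* S) (g : Expo n → S) (x y : PP n R) :
    lsm φ g (x + y) = lsm φ g x + lsm φ g y := by
  classical
  rw [lsm_of_subset φ g (x + y) (x.support ∪ y.support) support_add,
    lsm_of_subset φ g x (x.support ∪ y.support) Finset.subset_union_left,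
    lsm_of_subset φ g y (x.support ∪ y.support) Finset.subset_union_right,
    ← Finset.sum_add_distrib]
  apply Finset.sum_congr rfl
  intro s _
  rw [coeff_add, map_add, add_mul]

lemma lsm_sum (φ : R →+* S) (g : Expo n → S) {ι : Type} (t : Finset ι) (x : ι → PP n R) :
    lsm φ g (∑ i ∈ t, x i) = ∑ i ∈ t, lsm φ g (x i) := by
  classical
  induction t using Finset.induction_on with
  | empty => rw [Finset.sum_empty, Finset.sum_empty, lsm_zero]
  | insert a t ha ih => rw [Finset.sum_insert ha, Finset.sum_insert ha, lsm_add, ih]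

lemma lsm_C_mul (φ : R →+* S) (g : Expo n → S) (a : R) (x : PP n R) :
    lsm φ g (C a * x) = φ a * lsm φ g x := by
  classical
  have h : (C a * x).support ⊆ x.support := by
    intro s hs
    rw [mem_support_iff, coeff_C_mul] at hs
    rw [mem_support_iff]
    exact right_ne_zero_of_mul hs
  rw [lsm_of_subset φ g _ _ h, lsm, Finset.mul_sum]
  apply Finset.sum_congr rfl
  intro s _
  rw [coeff_C_mul, map_mul, mul_assoc]

lemma lsm_neg (φ : R →+* S) (g : Expo n → S) (x : PP n R) :
    lsm φ g (-x) = -lsm φ g x := by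
  have h := lsm_C_mul φ g (-1) x
  rw [map_neg, map_neg, C_1, map_one, neg_one_mul, neg_one_mul] at h
  exact h

lemma lsm_sub (φ : R →+* S) (g : Expo n → S) (x y : PP n R) :
    lsm φ g (x - y) = lsm φ g x - lsm φ g y := by
  rw [sub_eq_add_neg, lsm_add, lsm_neg, sub_eq_add_neg]

lemma lsm_monomial (φ : R →+* S) (g : Expo n → S) (s : Expo n) (a : R) :
    lsm φ g (monomial s a) = φ a * g s := by
  classical
  rw [lsm_of_subset φ g _ {s} support_monomial_subset, Finset.sum_singleton, coeff_monomial,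
    if_pos rfl]

lemma lsm_mon (φ : R →+* S) (g : Expo n → S) (s : Expo n) :
    lsm φ g (mon s) = g s := by
  unfold mon
  rw [lsm_monomial, map_one, one_mul]

/-- decomposition into monomials -/
lemma eq_sum_mon (x : PP n R) : x = ∑ s ∈ x.support, C (coeff s x) * mon s := by
  conv_lhs => rw [as_sum x]
  apply Finset.sum_congr rfl
  intro s _
  unfold mon
  rw [C_mul_monomial, mul_one]

lemma lsm_map {T : Type} [CommRing T] (ψ : T →+* R) (φ : R →+* S) (g : Expo n → S)
    (x : PP n T) : lsm φ g (map ψ x) = lsm (φ.comp ψ) g x := by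
  classical
  have h : (map ψ x).support ⊆ x.support := support_map_subset ψ x
  rw [lsm_of_subset φ g _ _ h]
  unfold lsm
  apply Finset.sum_congr rfl
  intro s _
  rw [coeff_map]
  rfl

lemma lsm_hom {T : Type} [CommRing T] (ψ : S →+* T) (φ : R →+* S) (g : Expo n → S)
    (x : PP n R) : ψ (lsm φ g x) = lsm (ψ.comp φ) (fun s => ψ (g s)) x := by
  unfold lsm
  rw [map_sum]
  apply Finset.sum_congr rfl
  intro s _
  rw [map_mul]
  rfl

end

lemma Cfun_eq {n M D : ℕ} {K : Type} [Field K] [CharZero K] (f : MvPolynomial (Fin n) K)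
    (x : PP n (LL (qG n M) K)) : Cfun M D f x = lsm (RingHom.id _) (Cm M D f) x := rfl

lemma Cph_eq {n M D p : ℕ} [Fact p.Prime] (f : MvPolynomial (Fin n) ℚ_[p])
    (x : PP n (LL (qG n M) ℤ_[p])) : Cph M D p f x =
      lsm (mL (qG n M) (zq p)) (fun s => phL (qG n M) ℚ_[p] p (Cm M D f s)) x := rfl

/-! `Psi` is additive and linear -/

section
variable {n M : ℕ} {R : Type} [CommRing R] (p : ℕ) [Fact p.Prime] (z : ℤ_[p] →+* R)

lemma VV_eq (F x : PP n R) : VV p F x = lsm (C : R →+* PP n R)
    (fun s => C (gam p (s 0) : R) * mon s * F ^ (p * mm p (s 0) - s 0)) x := by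
  unfold VV lsm
  apply Finset.sum_congr rfl
  intro s _
  have : monomial s ((gam p (s 0) : R) * coeff s x) =
      C (coeff s x) * (C (gam p (s 0) : R) * mon s) := by
    unfold mon
    rw [C_mul_monomial, C_mul_monomial, mul_one, mul_comm]
  rw [this, mul_assoc]

lemma VV_add (F x y : PP n R) : VV p F (x + y) = VV p F x + VV p F y := by
  rw [VV_eq, VV_eq, VV_eq, lsm_add]

lemma VV_sum (F : PP n R) {ι : Type} (t : Finset ι) (x : ι → PP n R) :
    VV p F (∑ i ∈ t, x i) = ∑ i ∈ t, VV p F (x i) := by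
  rw [VV_eq, lsm_sum]
  simp only [VV_eq]

lemma VV_C_mul (F : PP n R) (a : R) (x : PP n R) : VV p F (C a * x) = C a * VV p F x := by
  rw [VV_eq, VV_eq, lsm_C_mul]

lemma VV_hasLev (F : PP n R) {l : ℕ} {x : PP n R} (hx : HasLev l x) :
    VV p F x = C (gam p l : R) * x * F ^ (p * mm p l - l) := by
  rw [VV_eq]
  unfold lsm
  conv_rhs => rw [eq_sum_mon x]
  rw [Finset.mul_sum, Finset.sum_mul]
  apply Finset.sum_congr rfl
  intro s hs
  have h0 : s 0 = l := hx s (mem_support_iff.mp hs)
  beta_reduce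
  rw [h0]
  ring

lemma Psi_add (J : ℕ) (F Dl x y : PP n R) :
    Psi p z J F Dl (x + y) = Psi p z J F Dl x + Psi p z J F Dl y := by
  unfold Psi
  rw [VV_add, mul_add, psi_add (Fact.out : p.Prime).pos]

lemma Psi_sum (J : ℕ) (F Dl : PP n R) {ι : Type} (t : Finset ι) (x : ι → PP n R) :
    Psi p z J F Dl (∑ i ∈ t, x i) = ∑ i ∈ t, Psi p z J F Dl (x i) := by
  unfold Psi
  rw [VV_sum, Finset.mul_sum, psi_sum (Fact.out : p.Prime).pos]

lemma Psi_C_mul (J : ℕ) (F Dl : PP n R) (a : R) (x : PP n R) :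
    Psi p z J F Dl (C a * x) = C a * Psi p z J F Dl x := by
  unfold Psi
  rw [VV_C_mul, ← psi_C_mul (Fact.out : p.Prime).pos]
  congr 1
  ring

end

end Pool.Agent.Helper95_CM
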