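import Pool.Agent.Helper95_CM.StE
import Pool.Agent.Helper95_CM.Base

/-!
# Orders of Laurent series and the subring of series with nonnegative exponents in `t` and `w`
(CM project)
-/

set_option autoImplicit false
set_option linter.unusedSectionVars false

noncomputable section

namespace Pool.Agent.Helper95_CM

open MvPolynomial

section
variable {R : Type} [CommRing R]

lemma OrdGe.zero' (a : ℤ) : OrdGe a (0 : LaurentSeries R) := fun _ _ => HahnSeries.coeff_zero

lemma OrdGe.add {a : ℤ} {x y : LaurentSeries R} (hx : OrdGe a x) (hy : OrdGe a y) :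
    OrdGe a (x + y) := fun i hi => by rw [HahnSeries.coeff_add, hx i hi, hy i hi, add_zero]

lemma OrdGe.neg {a : ℤ} {x : LaurentSeries R} (hx : OrdGe a x) : OrdGe a (-x) :=
  fun i hi => by rw [HahnSeries.coeff_neg, hx i hi, neg_zero]

lemma OrdGe.sub {a : ℤ} {x y : LaurentSeries R} (hx : OrdGe a x) (hy : OrdGe a y) :
    OrdGe a (x - y) := by rw [sub_eq_add_neg]; exact hx.add hy.neg

lemma OrdGe.sum {a : ℤ} {ι : Type} (t : Finset ι) (x : ι → LaurentSeries R)
    (h : ∀ i ∈ t, OrdGe a (x i)) : OrdGe a (∑ i ∈ t, x i) := by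
  intro i hi
  rw [HahnSeries.coeff_sum]
  exact Finset.sum_eq_zero fun j hj => h j hj i hi

lemma OrdGe.mul {a b : ℤ} {x y : LaurentSeries R} (hx : OrdGe a x) (hy : OrdGe b y) :
    OrdGe (a + b) (x * y) := by
  intro i hi
  rw [HahnSeries.coeff_mul]
  apply Finset.sum_eq_zero
  intro ij hij
  rw [Finset.mem_antidiagonal] at hij
  obtain ⟨h1, h2, h3⟩ := hij
  by_cases h : ij.1 < a
  · rw [hx _ h, zero_mul]
  · rw [hy _ (by omega), mul_zero]

lemma ordGe_C (a : R) : OrdGe 0 (HahnSeries.C a : LaurentSeries R) := by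
  intro i hi
  rw [HahnSeries.C_apply, HahnSeries.coeff_single_of_ne (by omega)]

lemma ordGe_one : OrdGe 0 (1 : LaurentSeries R) := by
  have := ordGe_C (1 : R)
  rwa [map_one] at this

lemma ordGe_tt : OrdGe 1 (tt R) := by
  intro i hi
  unfold tt
  rw [HahnSeries.coeff_single_of_ne (by omega)]

lemma OrdGe.pow {x : LaurentSeries R} (hx : OrdGe 0 x) (k : ℕ) : OrdGe 0 (x ^ k) := by
  induction k with
  | zero => rw [pow_zero]; exact ordGe_one
  | succ k ih =>
    rw [pow_succ]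
    have := ih.mul hx
    rwa [add_zero] at this

lemma ordGe_natCast (k : ℕ) : OrdGe 0 (k : LaurentSeries R) := by
  have := ordGe_C (k : R)
  rwa [map_natCast] at this

lemma OrdGe.tht {a : ℤ} {x : LaurentSeries R} (hx : OrdGe a x) : OrdGe a (tht R x) := by
  intro i hi
  rw [tht_coeff, hx i hi, mul_zero]

lemma OrdGe.phT {p : ℕ} (hp : 0 < p) (f : R →+* R) {a : ℤ} {x : LaurentSeries R}
    (hx : OrdGe a x) : OrdGe (p * a) (phT p f x) := by
  intro i hi
  by_cases h : (p : ℤ) ∣ i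
  · obtain ⟨j, rfl⟩ := h
    rw [phT_coeff hp, hx j, map_zero]
    have hp' : (0 : ℤ) < p := by exact_mod_cast hp
    exact lt_of_mul_lt_mul_left hi hp'.le
  · exact phT_coeff_ne hp f x i h

end

section
variable (q : ℕ) (R : Type) [CommRing R]

/-- power series in `t` -/
def PFsub : Subring (LaurentSeries R) where
  carrier := {x | OrdGe 0 x}
  mul_mem' hx hy := by
    have := OrdGe.mul hx hy
    rwa [add_zero] at this
  one_mem' := ordGe_one
  add_mem' hx hy := OrdGe.add hx hy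
  zero_mem' := OrdGe.zero' 0
  neg_mem' hx := OrdGe.neg hx

lemma mem_PFsub (x : LaurentSeries R) : x ∈ PFsub R ↔ OrdGe 0 x := Iff.rfl

/-- series in `LL q R` with nonnegative exponents in `t` and in `w` -/
def NNsub : Subring (LL q R) where
  carrier := {x | OrdGe 0 x ∧ ∀ m, OrdGe 0 (x.coeff m)}
  mul_mem' := by
    rintro x y ⟨hx, hx'⟩ ⟨hy, hy'⟩
    refine ⟨?_, ?_⟩
    · have := OrdGe.mul hx hy
      rwa [add_zero] at this
    · intro m
      rw [HahnSeries.coeff_mul]
      apply OrdGe.sum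
      intro i _
      have := OrdGe.mul (hx' i.1) (hy' i.2)
      rwa [add_zero] at this
  one_mem' := by
    refine ⟨ordGe_one, fun m => ?_⟩
    rw [HahnSeries.coeff_one]
    split_ifs
    · exact ordGe_one
    · exact OrdGe.zero' 0
  add_mem' := by
    rintro x y ⟨hx, hx'⟩ ⟨hy, hy'⟩
    refine ⟨hx.add hy, fun m => ?_⟩
    rw [HahnSeries.coeff_add]
    exact (hx' m).add (hy' m)
  zero_mem' := ⟨OrdGe.zero' 0, fun m => by rw [HahnSeries.coeff_zero]; exact OrdGe.zero' 0⟩
  neg_mem' := by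
    rintro x ⟨hx, hx'⟩
    refine ⟨hx.neg, fun m => ?_⟩
    rw [HahnSeries.coeff_neg]
    exact (hx' m).neg

variable {q R}

lemma mem_NNsub (x : LL q R) : x ∈ NNsub q R ↔ OrdGe 0 x ∧ ∀ m, OrdGe 0 (x.coeff m) := Iff.rfl

lemma C_mem_NNsub {x : OO q R} (hx : OrdGe 0 x) : (HahnSeries.C x : LL q R) ∈ NNsub q R := by
  refine ⟨ordGe_C _, fun m => ?_⟩
  rw [HahnSeries.C_apply]
  by_cases h : m = 0
  · subst h; rw [HahnSeries.coeff_single_same]; exact hx
  · rw [HahnSeries.coeff_single_of_ne h]; exact OrdGe.zero' 0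

lemma kL_mem_NNsub (a : R) : kL q R a ∈ NNsub q R := C_mem_NNsub (ordGe_C _)

lemma wL_mem_NNsub : wL q R ∈ NNsub q R := C_mem_NNsub (ordGe_tt.mono' )
  where
  ordGe_tt.mono' : OrdGe 0 (wO q R) := fun i hi => ordGe_tt i (by omega)

lemma vL_mem_NNsub (i : Fin q) : vL q R i ∈ NNsub q R := C_mem_NNsub (ordGe_C _)

lemma tL_mem_NNsub : tL q R ∈ NNsub q R := by
  refine ⟨fun i hi => ordGe_tt i (by omega), fun m => ?_⟩
  unfold tL tt
  by_cases h : m = 1
  · subst h; rw [HahnSeries.coeff_single_same]; exact ordGe_one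
  · rw [HahnSeries.coeff_single_of_ne h]; exact OrdGe.zero' 0

lemma cgen_mem_NNsub {n M : ℕ} (D : ℕ) (f : MvPolynomial (Fin n) R) (β : Grid n M) :
    cgen D f β ∈ NNsub (qG n M) R := by
  unfold cgen
  have h1 : ((bin β : ℕ) : LL (qG n M) R) ∈ NNsub (qG n M) R := by
    have h2 : ((bin β : ℕ) : LL (qG n M) R) = HahnSeries.C ((bin β : ℕ) : OO (qG n M) R) := by
      rw [map_natCast]
    rw [h2]
    exact C_mem_NNsub (ordGe_natCast _)
  exact (NNsub (qG n M) R).add_mem
    ((NNsub (qG n M) R).sub_mem h1 ((NNsub (qG n M) R).mul_mem wL_mem_NNsub (kL_mem_NNsub _)))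
    ((NNsub (qG n M) R).mul_mem ((NNsub (qG n M) R).pow_mem tL_mem_NNsub _) (vL_mem_NNsub _))

lemma phL_mem_NNsub {p : ℕ} (hp : 0 < p) {x : LL q R} (hx : x ∈ NNsub q R) :
    phL q R p x ∈ NNsub q R := by
  refine ⟨?_, ?_⟩
  · have := OrdGe.phT hp (phO q R p) hx.1
    rwa [mul_zero] at this
  · intro m
    by_cases h : (p : ℤ) ∣ m
    · obtain ⟨j, rfl⟩ := h
      rw [phT_coeff hp]
      have := OrdGe.phT hp (phC q R p) (hx.2 j)
      rwa [mul_zero] at this
    · rw [phT_coeff_ne hp _ _ _ h]; exact OrdGe.zero' 0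

lemma thLt_mem_NNsub {x : LL q R} (hx : x ∈ NNsub q R) : thLt q R x ∈ NNsub q R := by
  refine ⟨hx.1.tht, fun m => ?_⟩
  rw [tht_coeff]
  intro i hi
  have h1 := hx.2 m i hi
  have h2 : ((m : ℤ) : OO q R) = HahnSeries.C ((m : ℤ) : CC q R) := by rw [map_intCast]
  rw [h2, HahnSeries.C_mul_eq_smul, HahnSeries.coeff_smul, h1, smul_zero]

lemma thLw_mem_NNsub {x : LL q R} (hx : x ∈ NNsub q R) : thLw q R x ∈ NNsub q R := by
  refine ⟨?_, fun m => ?_⟩
  · intro i hi
    change thOw q R (x.coeff i) = 0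
    rw [hx.1 i hi, map_zero]
  · exact (hx.2 m).tht

end

/-- the subring of nonnegative series is stable under the whole Frobenius structure -/
theorem subB_NN (n M D p : ℕ) [Fact p.Prime] (f : MvPolynomial (Fin n) ℤ_[p]) :
    SubB p (kL (qG n M) ℤ_[p]) (phL (qG n M) ℤ_[p] p) (thLt (qG n M) ℤ_[p])
      (cgen (M := M) D f) (NNsub (qG n M) ℤ_[p]) ∧
    SubB p (kL (qG n M) ℤ_[p]) (phL (qG n M) ℤ_[p] p) (thLw (qG n M) ℤ_[p])
      (cgen (M := M) D f) (NNsub (qG n M) ℤ_[p]) := by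
  have hp := (Fact.out : p.Prime).pos
  have hsat : ∀ x : LL (qG n M) ℤ_[p], (p : LL (qG n M) ℤ_[p]) * x ∈ NNsub (qG n M) ℤ_[p] →
      x ∈ NNsub (qG n M) ℤ_[p] := by
    intro x hx
    have hc : ∀ m, ((p : LL (qG n M) ℤ_[p]) * x).coeff m =
        (p : OO (qG n M) ℤ_[p]) * x.coeff m := by
      intro m
      have : (p : LL (qG n M) ℤ_[p]) = HahnSeries.C (p : OO (qG n M) ℤ_[p]) := by
        rw [map_natCast]
      rw [this, HahnSeries.C_mul_eq_smul, HahnSeries.coeff_smul, smul_eq_mul]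
    have hc' : ∀ (y : OO (qG n M) ℤ_[p]) m, ((p : OO (qG n M) ℤ_[p]) * y).coeff m =
        (p : CC (qG n M) ℤ_[p]) * y.coeff m := by
      intro y m
      have : (p : OO (qG n M) ℤ_[p]) = HahnSeries.C (p : CC (qG n M) ℤ_[p]) := by
        rw [map_natCast]
      rw [this, HahnSeries.C_mul_eq_smul, HahnSeries.coeff_smul, smul_eq_mul]
    have hc'' : ∀ (y : CC (qG n M) ℤ_[p]), (p : CC (qG n M) ℤ_[p]) * y = 0 → y = 0 := by
      intro y hy
      ext g
      have h1 : ((p : CC (qG n M) ℤ_[p]) * y).coeff g = (p : ℤ_[p]) * y.coeff g := by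
        have : (p : CC (qG n M) ℤ_[p]) = HahnSeries.C (p : ℤ_[p]) := by rw [map_natCast]
        rw [this, HahnSeries.C_mul_eq_smul, HahnSeries.coeff_smul, smul_eq_mul]
      rw [hy, HahnSeries.coeff_zero] at h1
      rw [HahnSeries.coeff_zero]
      rcases mul_eq_zero.mp h1.symm with h | h
      · exfalso
        exact hp.ne' (by exact_mod_cast h)
      · exact h
    have hc3 : ∀ (y : OO (qG n M) ℤ_[p]), (p : OO (qG n M) ℤ_[p]) * y = 0 → y = 0 := by
      intro y hy
      apply HahnSeries.ext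
      funext m
      rw [HahnSeries.coeff_zero]
      apply hc''
      rw [← hc', hy, HahnSeries.coeff_zero]
    refine ⟨?_, ?_⟩
    · intro i hi
      have h1 := hx.1 i hi
      rw [hc] at h1
      exact hc3 _ h1
    · intro m i hi
      have h1 := hx.2 m i hi
      rw [hc, hc'] at h1
      exact hc'' _ h1
  refine ⟨⟨fun β => cgen_mem_NNsub D f β, fun a => kL_mem_NNsub a, hsat,
    fun x hx => phL_mem_NNsub hp hx, fun x hx => thLt_mem_NNsub hx⟩,
    ⟨fun β => cgen_mem_NNsub D f β, fun a => kL_mem_NNsub a, hsat,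
    fun x hx => phL_mem_NNsub hp hx, fun x hx => thLw_mem_NNsub hx⟩⟩

end Pool.Agent.Helper95_CM
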