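import Pool.Agent.Helper95_CM.Ser

/-!
# The cone algebra of the cube: definitions for the CM project (MP_31342c_an)
-/

set_option autoImplicit false
set_option linter.unusedSectionVars false

noncomputable section

namespace Pool.Agent.Helper95_CM

open MvPolynomial

/-- variable `0` is `T`, variable `k.succ` is `y_k` -/
abbrev PP (n : ℕ) (R : Type) [CommRing R] := MvPolynomial (Fin (n + 1)) R

abbrev Expo (n : ℕ) := Fin (n + 1) →₀ ℕ

abbrev Grid (n M : ℕ) := Fin n → Fin (M + 1)

/-- the cone over the cube `[0,M]^n` (`false`) and its interior (`true`); level = exponent of `T` -/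
def InCone {n : ℕ} (M : ℕ) (b : Bool) (s : Expo n) : Prop :=
  match b with
  | true => ∀ k : Fin n, 0 < s k.succ ∧ s k.succ < M * s 0
  | false => ∀ k : Fin n, s k.succ ≤ M * s 0

/-- all monomials of `x` satisfy `P` -/
def Supp {n : ℕ} {R : Type} [CommRing R] (P : Expo n → Prop) (x : PP n R) : Prop :=
  ∀ s, coeff s x ≠ 0 → P s

/-- `x` lies in the cone algebra (`false`) or in its interior ideal (`true`) -/
def IsCone {n : ℕ} (M : ℕ) (b : Bool) {R : Type} [CommRing R] (x : PP n R) : Prop :=
  Supp (InCone M b) x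

/-- `x` is homogeneous of level `l` -/
def HasLev {n : ℕ} (l : ℕ) {R : Type} [CommRing R] (x : PP n R) : Prop :=
  Supp (fun s => s 0 = l) x

/-- all levels of `x` are `≤ l` -/
def LevLe {n : ℕ} (l : ℕ) {R : Type} [CommRing R] (x : PP n R) : Prop :=
  Supp (fun s => s 0 ≤ l) x

section
variable {n M : ℕ} {R : Type} [CommRing R]

/-- monomial -/
def mon (s : Expo n) : PP n R := monomial s 1

/-- exponent of the monomial `T y^β` -/
def gex (β : Grid n M) : Expo n :=
  Finsupp.equivFunOnFinite.symm (Fin.cons 1 (fun k => ((β k : Fin (M + 1)) : ℕ)))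

@[simp] lemma gex_zero (β : Grid n M) : gex β 0 = 1 := rfl
@[simp] lemma gex_succ (β : Grid n M) (k : Fin n) : gex β k.succ = (β k : ℕ) := rfl

/-- exponent as a function of level and `y`-exponents -/
def mkE (l : ℕ) (u : Fin n → ℕ) : Expo n := Finsupp.equivFunOnFinite.symm (Fin.cons l u)

@[simp] lemma mkE_zero (l : ℕ) (u : Fin n → ℕ) : mkE l u 0 = l := rfl
@[simp] lemma mkE_succ (l : ℕ) (u : Fin n → ℕ) (k : Fin n) : mkE l u k.succ = u k := rfl

/-- the polynomial `F = Σ c_β T y^β` -/
def Fp (c : Grid n M → R) : PP n R := ∑ β, monomial (gex β) (c β)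

/-- `θ_i = X_i ∂/∂X_i` -/
def th (i : Fin (n + 1)) : Derivation R (PP n R) (PP n R) := (X i : PP n R) • pderiv i

/-- `Y_i = θ_i F` -/
def Yp (c : Grid n M → R) (i : Fin (n + 1)) : PP n R := th i (Fp c)

/-- `D_i x = θ_i x - (θ_i F) x` -/
def Dop (c : Grid n M → R) (i : Fin (n + 1)) : PP n R →ₗ[R] PP n R :=
  (th i).toLinearMap - LinearMap.mulLeft R (Yp c i)

lemma Dop_apply (c : Grid n M → R) (i : Fin (n + 1)) (x : PP n R) :
    Dop c i x = th i x - Yp c i * x := rfl

/-- the Hessian and its determinant -/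
def Hes (c : Grid n M → R) : Matrix (Fin (n + 1)) (Fin (n + 1)) (PP n R) :=
  Matrix.of fun i j => th i (th j (Fp c))

def Jac (c : Grid n M → R) : PP n R := (Hes c).det

/-- additive map applied to all coefficients -/
def cder {S : Type} [CommRing S] (d : R →+ S) (x : PP n R) : PP n S :=
  x.support.sum fun s => monomial s (d (coeff s x))

lemma coeff_cder {S : Type} [CommRing S] (d : R →+ S) (x : PP n R) (s : Expo n) :
    coeff s (cder d x) = d (coeff s x) := by
  classical
  unfold cder
  rw [coeff_sum]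
  simp only [coeff_monomial]
  rw [Finset.sum_ite_eq' x.support s]
  split_ifs with h
  · rfl
  · rw [notMem_support_iff.mp h, map_zero]

/-- `∇_d x = d x - (d F) x` -/
def nab (d : R →+ R) (c : Grid n M → R) (x : PP n R) : PP n R :=
  cder d x - cder d (Fp c) * x

/-- `d` is a derivation -/
def IsDer (d : R →+ R) : Prop := ∀ x y, d (x * y) = d x * y + x * d y

/-- contraction of exponents by `p`: coefficient of `s` in `psi p x` is the coefficient of `p s` -/
def psi (p : ℕ) (x : PP n R) : PP n R :=
  x.support.sum fun s =>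
    if ∀ i, p ∣ s i then
      monomial (Finsupp.equivFunOnFinite.symm fun i => s i / p) (coeff s x) else 0

lemma coeff_psi {p : ℕ} (hp : 0 < p) (x : PP n R) (s : Expo n) :
    coeff s (psi p x) = coeff (p • s) x := by
  classical
  unfold psi
  rw [coeff_sum]
  have h1 : ∀ s' ∈ x.support, coeff s (if ∀ i, p ∣ s' i then
      monomial (Finsupp.equivFunOnFinite.symm fun i => s' i / p) (coeff s' x) else 0)
      = if s' = p • s then coeff (p • s) x else 0 := by
    intro s' _
    by_cases h : ∀ i, p ∣ s' i
    · rw [if_pos h, coeff_monomial]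
      by_cases h2 : s' = p • s
      · subst h2
        rw [if_pos, if_pos rfl]
        ext i
        simp [Nat.mul_div_cancel_left _ hp]
      · rw [if_neg h2, if_neg]
        intro h3
        apply h2
        rw [← h3]
        ext i
        simp [Nat.mul_div_cancel' (h i)]
    · rw [if_neg h, coeff_zero, if_neg]
      intro h2
      apply h
      intro i
      rw [h2]
      simp
  rw [Finset.sum_congr rfl h1, Finset.sum_ite_eq' x.support (p • s)]
  split_ifs with h
  · rfl
  · rw [notMem_support_iff.mp h]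

/-! ### the data of a Cohen-Macaulay type presentation -/

/-- basis elements: monomials, except that the top one is replaced by `Jac` when `b = true` -/
def bbo (b : Bool) (top : Expo n) (c : Grid n M → R) (s : Expo n) : PP n R :=
  if b = true ∧ s = top then Jac c else mon s

end

/-- generic coefficients -/
def gen (n M : ℕ) : Grid n M → MvPolynomial (Grid n M) ℤ := fun β => X β

/-- Cohen-Macaulay data: `Bas` gives module generators of the cone over `R[Y_0..Y_n]`, free when
`Dt(c)` is a unit. -/
structure CAD (n M : ℕ) (b : Bool) where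
  Bas : Finset (Expo n)
  top : Expo n
  Dt : MvPolynomial (Grid n M) ℤ
  Dt_ne : Dt ≠ 0
  cone : ∀ s ∈ Bas, InCone M b s
  lev : ∀ s ∈ Bas, s 0 ≤ n ∨ (b = true ∧ s = top)
  top_mem : b = true → top ∈ Bas
  top_lev : top 0 = n + 1
  zero_mem : b = false → (0 : Expo n) ∈ Bas
  red : ∀ s : Expo n, InCone M b s →
    ∃ (a : Expo n → MvPolynomial (Grid n M) ℤ)
      (σ : Fin (n + 1) → PP n (MvPolynomial (Grid n M) ℤ)),
      (∀ i, IsCone M b (σ i)) ∧
      (∀ i, Supp (fun s' => s' 0 + 1 = s 0) (σ i)) ∧
      C Dt * mon s = (∑ s' ∈ Bas with s' 0 = s 0, C (a s') * bbo b top (gen n M) s')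
        + ∑ i, Yp (gen n M) i * σ i
  inj : ∀ (R : Type) [CommRing R] (c : Grid n M → R), IsUnit (aeval c Dt) →
    ∀ P : Expo n → MvPolynomial (Fin (n + 1)) R,
      (∑ s ∈ Bas, aeval (Yp c) (P s) * bbo b top c s = 0) → ∀ s ∈ Bas, P s = 0

section
variable {n M : ℕ} {b : Bool} (A : CAD n M b) {R : Type} [CommRing R]

/-- basis element -/
def bb (c : Grid n M → R) (s : Expo n) : PP n R := bbo b A.top c s

/-- value of the discriminant -/
def dt (c : Grid n M → R) : R := aeval c A.Dt

/-- coordinates in cohomology -/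
structure IsCrd (c : Grid n M → R) (C : PP n R →ₗ[R] (A.Bas → R)) : Prop where
  basis : ∀ s : A.Bas, C (bb A c s) = Pi.single s 1
  kill : ∀ (i : Fin (n + 1)) (σ : PP n R), IsCone M b σ → C (Dop c i σ) = 0
  out : ∀ s : Expo n, ¬ InCone M b s → C (mon s) = 0

open Classical in
/-- the coordinate map -/
def crd (c : Grid n M → R) : PP n R →ₗ[R] (A.Bas → R) :=
  if h : ∃ C, IsCrd A c C then h.choose else 0

end

end Pool.Agent.Helper95_CM
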