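import Pool.Agent.Helper95_CM.StE

/-!
# FINL: the final linear algebra contradiction (CM project)
-/

set_option autoImplicit false
set_option linter.unusedSectionVars false

noncomputable section

namespace Pool.Agent.Helper95_CM

lemma sum_split_lo {I X : Type} [Fintype I] [DecidableEq I] [AddCommMonoid X] (Lo : Finset I)
    [Fintype {j : I // j ∉ Lo}] (f : I → X) :
    ∑ i, f i = ∑ i ∈ Lo, f i + ∑ i : {j : I // j ∉ Lo}, f i := by
  rw [← Finset.sum_add_sum_compl Lo f]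
  congr 1
  exact Finset.sum_subtype (Loᶜ) (fun x => Finset.mem_compl) f

theorem finl : FinlStmt := by
  intro 𝒪 _ p L N I _ _ P0 S lam i1 Lo htf h1 hN hPS hi1 hb hrow hlam hS
  classical
  have htf' : ∀ (a : ℕ) (x : 𝒪), (p : 𝒪) ^ a * x = 0 → x = 0 := by
    intro a
    induction a with
    | zero => intro x hx; simpa using hx
    | succ a ih =>
      intro x hx
      apply ih
      apply htf
      rw [← hx]
      ring
  have cancel : ∀ (a b : ℕ) (x : 𝒪), (p : 𝒪) ^ (a + b) ∣ (p : 𝒪) ^ a * x →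
      (p : 𝒪) ^ b ∣ x := by
    intro a b x hx
    obtain ⟨y, hy⟩ := hx
    refine ⟨y, ?_⟩
    have h2 := htf' a (x - (p : 𝒪) ^ b * y) (by rw [mul_sub, hy]; ring)
    exact sub_eq_zero.mp h2
  set H := {j : I // j ∉ Lo} with hH
  set r := Fintype.card H with hr
  have hrI : r ≤ Fintype.card I := Fintype.card_subtype_le _
  set π : 𝒪 →+* 𝒪 ⧸ (Ideal.span {(p : 𝒪) ^ N}) := Ideal.Quotient.mk _ with hπ
  have hπ0 : ∀ x : 𝒪, π x = 0 ↔ (p : 𝒪) ^ N ∣ x := by
    intro x
    rw [hπ, Ideal.Quotient.eq_zero_iff_mem, Ideal.mem_span_singleton]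
  have hsplit : ∀ (j k : I), j ∉ Lo → ∑ i : H, π (P0 j i.1) * π (S i.1 k) =
      π ((P0 * S) j k) := by
    intro j k hj
    rw [Matrix.mul_apply, map_sum]
    rw [sum_split_lo Lo (fun i => π (P0 j i * S i k))]
    have h0 : ∑ i ∈ Lo, π (P0 j i * S i k) = 0 := by
      apply Finset.sum_eq_zero
      intro i hi
      rw [map_mul, (hπ0 _).mpr (hb j hj i hi), zero_mul]
    rw [h0, zero_add]
    apply Finset.sum_congr rfl
    intro i _
    rw [map_mul]
  have hPSπ : ∀ j k : I, π ((P0 * S) j k) = if j = k then (π (p : 𝒪)) ^ L else 0 := by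
    intro j k
    have h2 := (hπ0 _).mpr (hPS j k)
    rw [map_sub, sub_eq_zero] at h2
    rw [h2, Matrix.smul_apply, Matrix.one_apply, smul_eq_mul]
    split_ifs
    · rw [mul_one, map_pow]
    · rw [mul_zero, map_zero]
  set D : Matrix H H (𝒪 ⧸ (Ideal.span {(p : 𝒪) ^ N})) :=
    Matrix.of fun i j => π (P0 i.1 j.1) with hD
  set T : Matrix H H (𝒪 ⧸ (Ideal.span {(p : 𝒪) ^ N})) :=
    Matrix.of fun i j => π (S i.1 j.1) with hT
  have hDT : D * T = (π (p : 𝒪)) ^ L • (1 : Matrix H H (𝒪 ⧸ (Ideal.span {(p : 𝒪) ^ N}))) := by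
    ext j k
    rw [Matrix.mul_apply, Matrix.smul_apply, Matrix.one_apply, smul_eq_mul]
    have h2 := hsplit j.1 k.1 j.2
    rw [hPSπ] at h2
    have h3 : ∑ i : H, D j i * T i k = ∑ i : H, π (P0 j.1 i.1) * π (S i.1 k.1) := rfl
    rw [h3, h2]
    by_cases h : j = k
    · rw [if_pos h, if_pos (by rw [h]), mul_one]
    · rw [if_neg h, if_neg (fun h' => h (Subtype.ext h')), mul_zero]
  set η : H → (𝒪 ⧸ (Ideal.span {(p : 𝒪) ^ N})) := fun i => π (S i.1 i1) with hη
  have hDη : D.mulVec η = 0 := by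
    ext j
    have h2 := hsplit j.1 i1 j.2
    have hne : j.1 ≠ i1 := by
      intro h
      apply j.2
      rw [h]
      exact hi1
    rw [hPSπ, if_neg hne] at h2
    exact h2
  have hdet : ∀ i, D.det * η i = 0 := by
    intro i
    have h2 : D.adjugate.mulVec (D.mulVec η) = 0 := by rw [hDη, Matrix.mulVec_zero]
    rw [Matrix.mulVec_mulVec, Matrix.adjugate_mul, Matrix.smul_mulVec, Matrix.one_mulVec] at h2
    exact congrFun h2 i
  have hdet2 : ∀ i, (π (p : 𝒪)) ^ (L * r) * η i = 0 := by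
    intro i
    have h2 : (D * T).det = (π (p : 𝒪)) ^ (L * r) := by
      rw [hDT, Matrix.det_smul, Matrix.det_one, mul_one, ← pow_mul]
    rw [← h2, Matrix.det_mul, mul_comm D.det, mul_assoc, hdet, mul_zero]
  have hLr : L * r ≤ L * Fintype.card I := Nat.mul_le_mul_left _ hrI
  obtain ⟨b, hb'⟩ : ∃ b, N = L * r + b := ⟨N - L * r, by omega⟩
  have hbL : L + 1 ≤ b := by omega
  have hη2 : ∀ i : H, (p : 𝒪) ^ b ∣ S i.1 i1 := by
    intro i
    have h2 := hdet2 i
    rw [hη] at h2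
    simp only at h2
    rw [← map_pow, ← map_mul, hπ0, hb'] at h2
    exact cancel _ _ _ h2
  -- the row `i1`
  have hrow1 : (p : 𝒪) ^ b ∣ (P0 * S) i1 i1 - (p : 𝒪) ^ L := by
    have h2 := hPS i1 i1
    rw [Matrix.smul_apply, Matrix.one_apply, if_pos rfl, smul_eq_mul, mul_one] at h2
    exact (pow_dvd_pow _ (by omega)).trans h2
  have hrow2 : (p : 𝒪) ^ b ∣ (P0 * S) i1 i1 - lam * S i1 i1 := by
    rw [Matrix.mul_apply, sum_split_lo Lo (fun i => P0 i1 i * S i i1)]
    have h3 : (∑ i ∈ Lo, P0 i1 i * S i i1) - lam * S i1 i1 =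
        ∑ i ∈ Lo, (P0 i1 i - (if i = i1 then lam else 0)) * S i i1 := by
      simp only [sub_mul, Finset.sum_sub_distrib]
      congr 1
      rw [Finset.sum_eq_single_of_mem i1 hi1]
      · rw [if_pos rfl]
      · intro i _ hi
        rw [if_neg hi, zero_mul]
    have h4 : (∑ i ∈ Lo, P0 i1 i * S i i1) +
        (∑ i : {x : I // x ∉ Lo}, P0 i1 i.1 * S i.1 i1) - lam * S i1 i1 =
        ((∑ i ∈ Lo, P0 i1 i * S i i1) - lam * S i1 i1) +
        ∑ i : {x : I // x ∉ Lo}, P0 i1 i.1 * S i.1 i1 := by ring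
    rw [h4, h3]
    apply dvd_add
    · apply Finset.dvd_sum
      intro i hi
      exact ((pow_dvd_pow (p : 𝒪) (by omega)).trans (hrow i hi)).mul_right _
    · apply Finset.dvd_sum
      intro i _
      exact (hη2 i).mul_left _
  have h5 : (p : 𝒪) ^ b ∣ lam * S i1 i1 - (p : 𝒪) ^ L := by
    have := dvd_sub hrow1 hrow2
    have h6 : (P0 * S) i1 i1 - (p : 𝒪) ^ L - ((P0 * S) i1 i1 - lam * S i1 i1) =
      lam * S i1 i1 - (p : 𝒪) ^ L := by ring
    rwa [h6] at this
  have h6 : (p : 𝒪) ^ (L + 1) ∣ lam * S i1 i1 := by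
    rw [pow_succ]
    exact mul_dvd_mul hlam (hS i1)
  have h7 : (p : 𝒪) ^ (L + 1) ∣ (p : 𝒪) ^ L * 1 := by
    have h8 := dvd_sub h6 ((pow_dvd_pow (p : 𝒪) hbL).trans h5)
    have h9 : lam * S i1 i1 - (lam * S i1 i1 - (p : 𝒪) ^ L) = (p : 𝒪) ^ L * 1 := by ring
    rwa [h9] at h8
  have h10 := cancel L 1 1 h7
  rw [pow_one] at h10
  exact h1 h10

end Pool.Agent.Helper95_CM
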