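import Pool.Agent.Helper95_CM.Krel2

/-!
# KREL: the relation between `P` and the values of `C` at `t = 0` (CM project)
-/

set_option autoImplicit false
set_option linter.unusedSectionVars false

noncomputable section

namespace Pool.Agent.Helper95_CM

open MvPolynomial

/-- finitely many eventual statements -/
lemma ev_all {ι : Type} (t : Finset ι) (P : ι → ℕ → Prop)
    (h : ∀ i ∈ t, ∃ p0 : ℕ, ∀ p, p0 ≤ p → P i p) : ∃ p0 : ℕ, ∀ p, p0 ≤ p → ∀ i ∈ t, P i p := by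
  classical
  induction t using Finset.induction_on with
  | empty => exact ⟨0, fun p _ i hi => absurd hi (Finset.notMem_empty i)⟩
  | insert a t ha ih =>
    obtain ⟨p1, h1⟩ := ih fun i hi => h i (Finset.mem_insert_of_mem hi)
    obtain ⟨p2, h2⟩ := h a (Finset.mem_insert_self a t)
    refine ⟨max p1 p2, fun p hp i hi => ?_⟩
    rcases Finset.mem_insert.mp hi with rfl | hi
    · exact h2 p (le_trans (le_max_right _ _) hp)
    · exact h1 p (le_trans (le_max_left _ _) hp) i hi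

/-- uniform bound over a finite set -/
lemma bd_all {ι : Type} (t : Finset ι) (P : ι → ℕ → Prop)
    (hm : ∀ i a b, a ≤ b → P i a → P i b)
    (h : ∀ i ∈ t, ∃ e : ℕ, P i e) : ∃ e : ℕ, ∀ i ∈ t, P i e := by
  obtain ⟨e, he⟩ := ev_all t P fun i hi => by
    obtain ⟨e, he⟩ := h i hi
    exact ⟨e, fun p hp => hm i e p hp he⟩
  exact ⟨e, fun i hi => he e le_rfl i hi⟩

lemma ordGe_mL {q : ℕ} {R S : Type} [CommRing R] [CommRing S] (g : R →+* S) {e : ℤ}
    {x : LL q R} (h : OrdGe e x) : OrdGe e (mL q g x) := by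
  intro m hm
  change mO q g (x.coeff m) = 0
  rw [h m hm, map_zero]

lemma mO_zq_inj {q p : ℕ} [Fact p.Prime] : Function.Injective (mO q (zq p)) := by
  intro x y h
  apply HahnSeries.ext
  funext m
  apply HahnSeries.ext
  funext g
  have h1 := congrArg (fun z : OO q ℚ_[p] => (z.coeff m).coeff g) h
  change zq p ((x.coeff m).coeff g) = zq p ((y.coeff m).coeff g) at h1
  exact IsFractionRing.injective ℤ_[p] ℚ_[p] h1

/-- pole order transfers to the lift -/
lemma ordGe_of_lift {q p : ℕ} [Fact p.Prime] {K : Type} [Field K] (ι : K →+* ℚ_[p])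
    {x : LL q K} {x' : LL q ℤ_[p]} (h : mL q ι x = mL q (zq p) x') {e : ℤ} (hx : OrdGe e x) :
    OrdGe e x' := by
  intro m hm
  have h1 := congrArg (fun z : LL q ℚ_[p] => z.coeff m) h
  change mO q ι (x.coeff m) = mO q (zq p) (x'.coeff m) at h1
  rw [hx m hm, map_zero] at h1
  apply mO_zq_inj
  rw [← h1, map_zero]

theorem krel (hcps : CpsStmt) (hrep : RepStmt) (hb2 : Hb2Stmt) (hcph : CphStmt)
    (hcmn : CmnStmt) (hcvf : CvfStmt) (hcgp : CgpStmt) (hpco : PcoStmt) (hfrb : FrbStmt)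
    (hjc : JConeStmt) (hspo : SpoStmt) (hopc : OpcStmt) : KrelStmt := by
  intro n M D A K _ _ f U Ui Rv hG hU N' N C X hNN hN
  classical
  obtain ⟨hn, hM, hD, hdeg⟩ := hG
  have hG : GData n M D K f := ⟨hn, hM, hD, hdeg⟩
  -- pole orders
  obtain ⟨e0, he0⟩ := bd_all (Finset.univ : Finset (A.Bas × A.Bas))
    (fun ij e => OrdGe (-(e : ℤ)) (U ij.1 ij.2))
    (fun i a b hab h => h.mono (by omega)) (fun ij _ => exists_ordGe _)
  obtain ⟨e2, he2⟩ := bd_all (Finset.univ : Finset (A.Bas × A.Bas))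
    (fun ij e => OrdGe (-(e : ℤ)) (Ui ij.1 ij.2))
    (fun i a b hab h => h.mono (by omega)) (fun ij _ => exists_ordGe _)
  obtain ⟨a1, ha1⟩ := hU.lp
  obtain ⟨ew, hew⟩ := bd_all ((Finset.univ : Finset (A.Bas × A.Bas)) ×ˢ
      (Finset.Icc (-(e0 : ℤ)) a1))
    (fun ijm e => OrdGe (-(e : ℤ)) ((U ijm.1.1 ijm.1.2).coeff ijm.2))
    (fun i a b hab h => h.mono (by omega)) (fun ij _ => exists_ordGe _)
  have hew' : ∀ i j m, OrdGe (-(ew : ℤ)) ((U i j).coeff m) := by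
    intro i j m
    by_cases h : m ∈ Finset.Icc (-(e0 : ℤ)) a1
    · exact hew ((i, j), m) (Finset.mem_product.mpr ⟨Finset.mem_univ _, h⟩)
    · rw [Finset.mem_Icc, not_and_or] at h
      rcases h with h | h
      · have : (U i j).coeff m = 0 := he0 (i, j) (Finset.mem_univ _) m (by omega)
        rw [this]
        intro _ _
        exact HahnSeries.coeff_zero
      · have : (U i j).coeff m = 0 := ha1 i j m (by omega)
        rw [this]
        intro _ _
        exact HahnSeries.coeff_zero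
  set X' : ℕ := e2 + C + e0 with hX'
  obtain ⟨ν, κ, d, p1, hκ, hrep'⟩ := hrep n M D A K f U Ui Rv hG hU N X' hN
  obtain ⟨-, hcv0, -, hcvs⟩ := hcvf n M D A K f U Ui Rv hG hU
  obtain ⟨p2, hp2⟩ := hcps n M D N (e0 + X + ew)
  obtain ⟨p3, e4, hp3⟩ := hcgp n M D true A K f hG
  -- integrality of finitely many coefficients
  obtain ⟨e3, he3⟩ := bd_all ((Finset.univ : Finset A.Bas) ×ˢ (Finset.Icc (1 : ℤ) X'))
    (fun jm e => OrdGe (-(e : ℤ)) ((Cv A D f U jm.1).coeff jm.2))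
    (fun i a b hab h => h.mono (by omega)) (fun ij _ => exists_ordGe _)
  obtain ⟨p4, hp4⟩ := ev_all (((Finset.univ : Finset A.Bas) ×ˢ (Finset.Icc (1 : ℤ) X')) ×ˢ
      (Finset.Icc (-(e3 : ℤ)) (X + d : ℤ)))
    (fun jmm p => ∀ [Fact p.Prime], ∀ ι : K →+* ℚ_[p], ∃ y : CC (qG n M) ℤ_[p],
      mC (qG n M) ι (((Cv A D f U jmm.1.1).coeff jmm.1.2).coeff jmm.2) = mC (qG n M) (zq p) y)
    (fun jmm _ => by
      obtain ⟨p0, hp0⟩ := hcvs jmm.1.1 jmm.1.2 jmm.2
      exact ⟨p0, fun p hp _ ι => hp0 p hp ι⟩)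
  obtain ⟨p5, hp5⟩ := ev_all (Finset.univ : Finset (Fin ν))
    (fun e p => ∀ [Fact p.Prime], ∀ ι : K →+* ℚ_[p], ∃ y : OO (qG n M) ℤ_[p],
      mO (qG n M) ι (κ e) = mO (qG n M) (zq p) y)
    (fun e _ => by
      obtain ⟨p0, hp0⟩ := (hspo (qG n M) K (κ e) (hκ e)).1
      exact ⟨p0, fun p hp _ ι => hp0 p hp ι⟩)
  refine ⟨max p1 (max p2 (max p3 (max p4 p5))), ?_⟩
  intro p _ hp ι f' Dl U' Ui' Rv' hPL hPM hPl
  simp only [max_le_iff] at hp
  obtain ⟨hq1, hq2, hq3, hq4, hq5⟩ := hp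
  have hpp : 0 < p := (Fact.out : p.Prime).pos
  have hdeg' : ∀ k, degreeOf k f' ≤ M := by
    intro k
    rw [degreeOf_lift ι f f' hPL.lf]
    exact hdeg k
  obtain ⟨lam, hlam, hlam2⟩ := hp2 p f' Dl hq2 hn hM hD hdeg' hPL.dl
  refine ⟨lam, hlam, ?_⟩
  -- lifts of the `κ e`
  choose κ' hκ' using fun e => hp5 p hq5 e (Finset.mem_univ e) ι
  have hB : (0 : ℝ) ≤ ((p : ℝ) ^ N)⁻¹ := by positivity
  have hB' : (0 : ℝ) ≤ ((p : ℝ) ^ N')⁻¹ := by positivity
  have hBB : ((p : ℝ) ^ N)⁻¹ ≤ ((p : ℝ) ^ N')⁻¹ := by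
    apply inv_anti₀
    · positivity
    · exact pow_le_pow_right₀ (by exact_mod_cast hpp) hNN
  have hlU : ∀ i j, mL (qG n M) ι (U i j) = mL (qG n M) (zq p) (U' i j) := fun i j =>
    congrFun (congrFun hPL.lU i) j
  have hlUi : ∀ i j, mL (qG n M) ι (Ui i j) = mL (qG n M) (zq p) (Ui' i j) := fun i j =>
    congrFun (congrFun hPL.lUi i) j
  have hU' : ∀ i j, OrdGe (-(e0 : ℤ)) (U' i j) := fun i j =>
    ordGe_of_lift ι (hlU i j) (he0 (i, j) (Finset.mem_univ _))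
  have hUi' : ∀ i j, OrdGe (-(e2 : ℤ)) (Ui' i j) := fun i j =>
    ordGe_of_lift ι (hlUi i j) (he2 (i, j) (Finset.mem_univ _))
  -- pole order of `Pv`
  have hPv : ∀ j i, OrdGe (-((X' * p : ℕ) : ℤ)) (Pv A D N p f' Dl U' Ui' j i) := by
    intro j i
    unfold Pv
    rw [Matrix.mul_apply]
    apply OrdGe.sum
    intro s _
    rw [Matrix.mul_apply, Finset.sum_mul]
    apply OrdGe.sum
    intro s' _
    rw [Matrix.map_apply]
    have h1 : OrdGe ((p : ℤ) * (-(e2 : ℤ))) (phL (qG n M) ℤ_[p] p (Ui' j s')) :=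
      OrdGe.phT hpp _ (hUi' j s')
    have h2 := (h1.mul (hPl s' s)).mul (hU' s i)
    refine h2.mono ?_
    have : (1 : ℤ) ≤ p := by exact_mod_cast hpp
    have h0 : (0 : ℤ) ≤ e0 := by positivity
    rw [hX']
    push_cast
    nlinarith
  intro i m' hm' g
  -- the algebraic identity
  have halg := krel_alg A f U Ui ι f' Dl U' Ui' N (zq p lam) hU.gau.inv hPL.lf hPL.lU hPL.lUi
    ((hp3 p hq3 ι).2 f' hPL.lf).1 hcmn
    (krel_psi hb2 hcph hpco hfrb hjc hopc A f' Dl N hn hM hD hdeg' hPL.dl hPL.un)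
    (hopc (qG n M) ℤ_[p] ℚ_[p] (zq p) p hpp).1 i
  have herr : NL ((p : ℝ) ^ N)⁻¹ (0 : ℤ) (X * p : ℤ) (∑ s : A.Bas, mL (qG n M) (zq p) (U' s i) *
      (Cph M D p (map (zq p) f')
        (Psi p (kL (qG n M) ℤ_[p]) (2 * N) (Fp (cgen (M := M) D f')) Dl (bb A (cgen D f') s)) -
        kL (qG n M) ℚ_[p] (zq p lam) * Cfun M D (map (zq p) f')
            (map (mL (qG n M) (zq p)) (bb A (cgen D f') s)))) := by
    apply NL.sum hB
    intro s _
    refine NL.int_mul (et := e0) (ew := ew) hB (fun m m' => NC_of_int _)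
      (ordGe_mL (zq p) (hU' s i)) ?_ ?_
    · intro m
      rw [← hlU]
      exact ordGe_mO ι (hew' s i m)
    · have h := krel_err hjc A f' Dl N (e0 + X + ew) lam hn hM hlam2 s
      refine h.mono ?_ ?_
      · push_cast; omega
      · have : (1 : ℤ) ≤ p := by exact_mod_cast hpp
        have h0 : (0 : ℤ) ≤ e0 := by positivity
        have h1 : (0 : ℤ) ≤ ew := by positivity
        push_cast
        nlinarith
  rw [halg] at herr
  have h0 := herr 0 le_rfl
  -- extraction of the constant terms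
  have hext : ∀ j, NO ((p : ℝ) ^ N')⁻¹ (X * p : ℤ)
      ((mL (qG n M) (zq p) (Pv A D N p f' Dl U' Ui' j i) *
        phL (qG n M) ℚ_[p] p (mL (qG n M) ι (Cv A D f U j))).coeff 0 -
        mO (qG n M) (zq p) ((Pv A D N p f' Dl U' Ui' j i).coeff 0) *
          phO (qG n M) ℚ_[p] p (mO (qG n M) ι ((Cv A D f U j).coeff 0))) := by
    intro j
    refine ext_zero (N' := N') (X := X) (X' := X') (d := d) _ _ (hPM j i) (hPv j i) ?_
      (ordGe_mL ι (hcv0 j)) ?_
    · intro m hm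
      exact (hrep' p hq1 ι f' Dl U' Ui' Rv' hPL κ' hκ' j i m hm).1
    · intro μ hμ1 hμ2 m'' hm''
      change NC 1 (mC (qG n M) ι (((Cv A D f U j).coeff μ).coeff m''))
      have hmem : μ ∈ Finset.Icc (1 : ℤ) X' := Finset.mem_Icc.mpr ⟨hμ1, hμ2⟩
      by_cases h : -(e3 : ℤ) ≤ m''
      · obtain ⟨y, hy⟩ := hp4 p hq4 ((j, μ), m'') (Finset.mem_product.mpr
          ⟨Finset.mem_product.mpr ⟨Finset.mem_univ _, hmem⟩, Finset.mem_Icc.mpr ⟨h, hm''⟩⟩) ι
        rw [hy]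
        exact NC_of_int y
      · have : ((Cv A D f U j).coeff μ).coeff m'' = 0 :=
          he3 (j, μ) (Finset.mem_product.mpr ⟨Finset.mem_univ _, hmem⟩) m'' (by omega)
        rw [this, map_zero]
        exact NC.zero zero_le_one
  have hfin : NO ((p : ℝ) ^ N')⁻¹ (X * p : ℤ)
      ((∑ j, mO (qG n M) (zq p) ((Pv A D N p f' Dl U' Ui' j i).coeff 0) *
              phO (qG n M) ℚ_[p] p (mO (qG n M) ι ((Cv A D f U j).coeff 0))) -
            kO (qG n M) ℚ_[p] (zq p lam) * mO (qG n M) ι ((Cv A D f U i).coeff 0)) := by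
    have h1 : (∑ j, mO (qG n M) (zq p) ((Pv A D N p f' Dl U' Ui' j i).coeff 0) *
              phO (qG n M) ℚ_[p] p (mO (qG n M) ι ((Cv A D f U j).coeff 0))) -
            kO (qG n M) ℚ_[p] (zq p lam) * mO (qG n M) ι ((Cv A D f U i).coeff 0) =
        ((∑ j : A.Bas, mL (qG n M) (zq p) (Pv A D N p f' Dl U' Ui' j i) *
          phL (qG n M) ℚ_[p] p (mL (qG n M) ι (Cv A D f U j))) -
          kL (qG n M) ℚ_[p] (zq p lam) * mL (qG n M) ι (Cv A D f U i)).coeff 0 -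
        ∑ j, ((mL (qG n M) (zq p) (Pv A D N p f' Dl U' Ui' j i) *
        phL (qG n M) ℚ_[p] p (mL (qG n M) ι (Cv A D f U j))).coeff 0 -
        mO (qG n M) (zq p) ((Pv A D N p f' Dl U' Ui' j i).coeff 0) *
          phO (qG n M) ℚ_[p] p (mO (qG n M) ι ((Cv A D f U j).coeff 0))) := by
      rw [HahnSeries.coeff_sub, HahnSeries.coeff_sum, kL_mul_coeff, Finset.sum_sub_distrib]
      have h2 : (mL (qG n M) ι (Cv A D f U i)).coeff 0 =
        mO (qG n M) ι ((Cv A D f U i).coeff 0) := rfl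
      rw [h2]
      ring
    rw [h1]
    apply NO.sub
    · exact h0.le hBB
    · exact NO.sum hB' _ _ fun j _ => hext j
  exact hfin m' hm' g

end Pool.Agent.Helper95_CM
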