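import Pool.Agent.Helper10_CM.Emx
import Pool.Agent.Helper10_CM.Lina
import Pool.Agent.Helper10_CM.Pfm
import Pool.Agent.Helper10_CM.Psd
import Pool.Agent.Helper12_CM.Cgp
import Pool.Agent.Helper12_CM.Frk
import Pool.Agent.Helper12_CM.Jac
import Pool.Agent.Helper13_CM.Clim
import Pool.Agent.Helper13_CM.Cph
import Pool.Agent.Helper13_CM.Cps
import Pool.Agent.Helper13_CM.Cvf
import Pool.Agent.Helper13_CM.Ind
import Pool.Agent.Helper15_CM.Genl
import Pool.Agent.Helper15_CM.Nfr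
import Pool.Agent.Helper17_CM.Rep
import Pool.Agent.Helper18_CM.Flat
import Pool.Agent.Helper18_CM.Gau
import Pool.Agent.Helper18_CM.Hpol
import Pool.Agent.Helper18_CM.Latsh
import Pool.Agent.Helper18_CM.Regp
import Pool.Agent.Helper18_CM.Vbin
import Pool.Agent.Helper1_CM.Cgu
import Pool.Agent.Helper1_CM.Plx
import Pool.Agent.Helper26_CM.Lft
import Pool.Agent.Helper2_CM.Expp
import Pool.Agent.Helper32_CM.Expk
import Pool.Agent.Helper32_CM.Latk
import Pool.Agent.Helper32_CM.Win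
import Pool.Agent.Helper33_CM.Adp
import Pool.Agent.Helper33_CM.Chik
import Pool.Agent.Helper33_CM.Finc
import Pool.Agent.Helper34_CM.Lex
import Pool.Agent.Helper34_CM.Omg
import Pool.Agent.Helper34_CM.Red
import Pool.Agent.Helper34_CM.Redfin
import Pool.Agent.Helper34_CM.Sort
import Pool.Agent.Helper34_CM.Vali
import Pool.Agent.Helper34_CM.X0
import Pool.Agent.Helper41_CM.Nrm
import Pool.Agent.Helper41_CM.Split
import Pool.Agent.Helper41_CM.Uni
import Pool.Agent.Helper46_CM.Mono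
import Pool.Agent.Helper46_CM.S12
import Pool.Agent.Helper46_CM.S1p
import Pool.Agent.Helper51_CM.Grow
import Pool.Agent.Helper51_CM.Pol
import Pool.Agent.Helper51_CM.Pso
import Pool.Agent.Helper51_CM.Shear
import Pool.Agent.Helper53_CM.HbMain
import Pool.Agent.Helper65_CM.Regk
import Pool.Agent.Helper65_CM.Relk
import Pool.Agent.Helper66_CM.Ula
import Pool.Agent.Helper68_CM.Bck
import Pool.Agent.Helper68_CM.Kap
import Pool.Agent.Helper68_CM.Ordp
import Pool.Agent.Helper68_CM.Spc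
import Pool.Agent.Helper68_CM.Spg
import Pool.Agent.Helper68_CM.Spo
import Pool.Agent.Helper69_CM.Divop
import Pool.Agent.Helper69_CM.Gauk
import Pool.Agent.Helper69_CM.Pcurv
import Pool.Agent.Helper69_CM.Trans
import Pool.Agent.Helper69_CM.Trk
import Pool.Agent.Helper69_CM.Wop
import Pool.Agent.Helper75_CM.Box
import Pool.Agent.Helper75_CM.Conn
import Pool.Agent.Helper75_CM.Del
import Pool.Agent.Helper75_CM.Det
import Pool.Agent.Helper75_CM.Rj
import Pool.Agent.Helper77_CM.Dle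
import Pool.Agent.Helper77_CM.Ee
import Pool.Agent.Helper77_CM.Frb
import Pool.Agent.Helper77_CM.Gam
import Pool.Agent.Helper77_CM.Opc
import Pool.Agent.Helper82_CM.Dsub
import Pool.Agent.Helper82_CM.Int
import Pool.Agent.Helper95_CM.Asm
import Pool.Agent.Helper95_CM.Finl
import Pool.Agent.Helper95_CM.Krel
import Pool.Agent.Helper95_CM.StE
import Pool.Agent.Helper98_CM.CFN2
import Pool.Agent.Helper98_CM.CMN
import Pool.Agent.Helper98_CM.EST
import Pool.Agent.Helper98_CM.IFN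
import Pool.Agent.Helper98_CM.TAIL

/-!
# Assembly of the whole proof (CM project, MP_31342c_an)
-/

set_option autoImplicit false
set_option linter.unusedSectionVars false

namespace Pool.Agent.Helper95_CM

theorem final  : MainStmt := by
  have hIntStmt : IntStmt := Pool.Agent.Helper95_CM.H82.int 
  have hNfrStmt : NfrStmt := Pool.Agent.Helper95_CM.H15.nfr 
  have hJConeStmt : JConeStmt := Pool.Agent.Helper95_CM.H12.jcone 
  have hSortStmt : SortStmt := Pool.Agent.Helper95_CM.H34.sort 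
  have hLexStmt : LexStmt := Pool.Agent.Helper95_CM.H34.lex 
  have hRedFinStmt : RedFinStmt := Pool.Agent.Helper95_CM.H34.redfin 
  have hGenLStmt : GenLStmt := Pool.Agent.Helper95_CM.H15.genl hSortStmt hLexStmt hRedFinStmt hJConeStmt
  have hRedStmt : RedStmt := Pool.Agent.Helper95_CM.H34.red hJConeStmt hGenLStmt
  have hCadStmt : CadStmt := Pool.Agent.Helper95_CM.H34.cadx hRedStmt
  have hDleStmt : DleStmt := Pool.Agent.Helper95_CM.H77.dle 
  have hFrbStmt : FrbStmt := Pool.Agent.Helper95_CM.H77.frb 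
  have hEeStmt : EeStmt := Pool.Agent.Helper95_CM.H77.ee' 
  have hGamStmt : GamStmt := Pool.Agent.Helper95_CM.H77.gam' 
  have hPsoStmt : PsoStmt := Pool.Agent.Helper95_CM.H51.pso hEeStmt hGamStmt hDleStmt
  have hHb1Stmt : Hb1Stmt := Pool.Agent.Helper95_CM.H53.hb1 hJConeStmt
  have hPsdStmt : PsdStmt := Pool.Agent.Helper95_CM.H10.psd hPsoStmt hEeStmt hHb1Stmt
  have hHb2Stmt : Hb2Stmt := Pool.Agent.Helper95_CM.H53.hb2 hHb1Stmt
  have hPmxStmt : PmxStmt := Pool.Agent.Helper95_CM.H10.pmx hPsdStmt hHb2Stmt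
  have hEmxStmt : EmxStmt := Pool.Agent.Helper95_CM.H10.emx hPmxStmt hGamStmt hEeStmt hHb1Stmt hJConeStmt
  have hPfmStmt : PfmStmt := Pool.Agent.Helper95_CM.H10.pfm hEmxStmt
  have hPsnStmt : PsnStmt := Pool.Agent.Helper95_CM.H10.psn hPsoStmt hEeStmt hHb1Stmt
  have hPcoStmt : PcoStmt := Pool.Agent.Helper95_CM.H77.pco hDleStmt
  have hHb3Stmt : Hb3Stmt := Pool.Agent.Helper95_CM.H53.hb3 hHb1Stmt
  have hCpmStmt : CpmStmt := Pool.Agent.Helper95_CM.H10.cpm hPmxStmt hPsnStmt hPcoStmt hHb1Stmt hHb2Stmt hHb3Stmt hJConeStmt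
  have hPfpStmt : PfpStmt := Pool.Agent.Helper95_CM.H10.pfp 
  have hHb4Stmt : Hb4Stmt := Pool.Agent.Helper95_CM.H53.hb4 hHb1Stmt
  have hPolStmt : PolStmt := Pool.Agent.Helper95_CM.H51P.pol hJConeStmt hGamStmt hHb4Stmt hPcoStmt hDleStmt
  have hUniStmt : UniStmt := Pool.Agent.Helper95_CM.H41.uni 
  have hSpcStmt : SpcStmt := Pool.Agent.Helper95_CM.H68.spc hUniStmt
  have hSpgStmt : SpgStmt := Pool.Agent.Helper95_CM.H68.spg hSpcStmt
  have hCguStmt : CguStmt := Pool.Agent.Helper95_CM.H1.cgu hHb4Stmt hSpgStmt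
  have hLftStmt : LftStmt := Pool.Agent.Helper95_CM.H26.lft 
  have hOpcStmt : OpcStmt := Pool.Agent.Helper95_CM.H77.opc 
  have hCgpStmt : CgpStmt := Pool.Agent.Helper95_CM.H12.cgp hCguStmt hHb3Stmt hSpgStmt hLftStmt hOpcStmt
  have hFrkStmt : FrkStmt := Pool.Agent.Helper95_CM.H12.frk hDleStmt hFrbStmt hPfmStmt hCpmStmt hPfpStmt hPolStmt hCgpStmt hCguStmt hLftStmt
  have hDsubStmt : DsubStmt := Pool.Agent.Helper95_CM.H82.dsub hHb3Stmt hCguStmt
  have hGrowStmt : GrowStmt := Pool.Agent.Helper95_CM.H51G.grow 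
  have hPcurvStmt : PcurvStmt := Pool.Agent.Helper95_CM.H69.pcurv hGrowStmt
  have hRegpStmt : RegpStmt := Pool.Agent.Helper95_CM.H18.regp 
  have hSpoStmt : SpoStmt := Pool.Agent.Helper95_CM.H68.spo hSpcStmt
  have hSplitStmt : SplitStmt := Pool.Agent.Helper95_CM.H41.split 
  have hRelkStmt : RelkStmt := Pool.Agent.Helper65_CM.relk hPcurvStmt hRegpStmt hSpoStmt hSpgStmt hLftStmt hFrbStmt hOpcStmt hSplitStmt
  have hLatkStmt : LatkStmt := Pool.Agent.Helper95_CM.H32.latk 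
  have hRegkStmt : RegkStmt := Pool.Agent.Helper65_CM.regk hRelkStmt hLatkStmt hSpgStmt
  have hGauStmt : GauStmt := Pool.Agent.Helper95_CM.H18.gau 
  have hDualStmt : DualStmt := Pool.Agent.Helper95_CM.H18.dual 
  have hGaukStmt : GaukStmt := Pool.Agent.Helper95_CM.H69.gauk hGauStmt hDualStmt hSpgStmt hOpcStmt
  have hChikStmt : ChikStmt := Pool.Agent.Helper95_CM.H33.chik hPcurvStmt hUniStmt hSplitStmt hFrbStmt
  have hDivopStmt : DivopStmt := Pool.Agent.Helper95_CM.H69.divop hGrowStmt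
  have hWopStmt : WopStmt := Pool.Agent.Helper95_CM.H69.wop hDivopStmt
  have hLatshStmt : LatshStmt := Pool.Agent.Helper95_CM.H18.latsh 
  have hVbinStmt : VbinStmt := Pool.Agent.Helper95_CM.H18.vbin 
  have hExppStmt : ExppStmt := Pool.Agent.Helper95_CM.H2.expp hWopStmt hLatshStmt hVbinStmt
  have hBckStmt : BckStmt := Pool.Agent.Helper95_CM.H68.bck 
  have hNrmStmt : NrmStmt := Pool.Agent.Helper95_CM.H41.nrm 
  have hExpkStmt : ExpkStmt := Pool.Agent.Helper95_CM.H32.expk hExppStmt hBckStmt hNrmStmt hSplitStmt hSpgStmt hSpoStmt hFrbStmt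
  have hShearStmt : ShearStmt := Pool.Agent.Helper95_CM.H51S.shear 
  have hUlaStmt : UlaStmt := Pool.Agent.Helper95_CM.H66.ula hFrkStmt hDsubStmt hRegkStmt hGaukStmt hChikStmt hExpkStmt hShearStmt hSpgStmt
  have hPlxStmt : PlxStmt := Pool.Agent.Helper95_CM.H1.plx hCgpStmt hDleStmt hFrbStmt
  have hTransStmt : TransStmt := Pool.Agent.Helper95_CM.H69.trans hWopStmt hLatshStmt
  have hFlatStmt : FlatStmt := Pool.Agent.Helper95_CM.H18.flat 
  have hTrkStmt : TrkStmt := Pool.Agent.Helper95_CM.H69.trk hTransStmt hFlatStmt hGaukStmt hSpgStmt hOpcStmt hFrbStmt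
  have hTkgStmt : TkgStmt := Pool.Agent.Helper95_CM.H12.tkg hFrkStmt hTrkStmt hFrbStmt hPfmStmt hCpmStmt hPfpStmt hPolStmt hGauStmt hDualStmt hGaukStmt hCgpStmt hLftStmt hOpcStmt
  have hMonoStmt : MonoStmt := Pool.Agent.Helper95_CM.H46.mono hUniStmt
  have hWinStmt : WinStmt := Pool.Agent.Helper95_CM.H32.win 
  have hDecStmt : DecStmt := Pool.Agent.Helper95_CM.H75.dec 
  have hS1pStmt : S1pStmt := Pool.Agent.Helper95_CM.H46.s1p hMonoStmt hWinStmt hDecStmt
  have hLv1Stmt : Lv1Stmt := Pool.Agent.Helper95_CM.H77.lv1 hEeStmt hGamStmt hDleStmt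
  have hHb5Stmt : Hb5Stmt := Pool.Agent.Helper95_CM.H53.hb5 hHb3Stmt
  have hOrdpStmt : OrdpStmt := Pool.Agent.Helper95_CM.H68.ordp hTkgStmt hLv1Stmt hPmxStmt hHb5Stmt hOpcStmt hFrbStmt
  have hS1Stmt : S1Stmt := Pool.Agent.Helper95_CM.H46.s1 hS1pStmt hOrdpStmt hPlxStmt hCgpStmt hCguStmt hSpoStmt hSpgStmt hSplitStmt
  have hJHorStmt : JHorStmt := Pool.Agent.Helper95_CM.H12.jhor 
  have hConnStmt : ConnStmt := Pool.Agent.Helper95_CM.H75.conn 
  have hDetStmt : DetStmt := Pool.Agent.Helper95_CM.H75.det hHb2Stmt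
  have hGtopStmt : GtopStmt := Pool.Agent.Helper95_CM.H75.gtop_ hHb1Stmt hHb2Stmt
  have hJZetaStmt : JZetaStmt := Pool.Agent.Helper95_CM.H12.jzeta 
  have hRjStmt : RjStmt := Pool.Agent.Helper95_CM.H75.rj hHb1Stmt hGtopStmt hJConeStmt hJZetaStmt
  have hBoxStmt : BoxStmt := Pool.Agent.Helper95_CM.H75.box hDetStmt hGtopStmt hRjStmt hJHorStmt
  have hEulStmt : EulStmt := Pool.Agent.Helper95_CM.H75.eul hDetStmt hGtopStmt hJHorStmt
  have hDelStmt : DelStmt := Pool.Agent.Helper95_CM.H75.del hConnStmt hDecStmt hBoxStmt hEulStmt hDetStmt hGtopStmt hJHorStmt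
  have hHpolStmt : HpolStmt := Pool.Agent.Helper95_CM.H18.hpol 
  have hS2Stmt : S2Stmt := Pool.Agent.Helper95_CM.H46.s2 hOrdpStmt hPlxStmt hCgpStmt hCguStmt hSpoStmt hSpgStmt hSplitStmt
  have hKapStmt : KapStmt := Pool.Agent.Helper95_CM.H68.kap hHb1Stmt hHb2Stmt hJConeStmt hJHorStmt hDelStmt hHpolStmt hS2Stmt hCguStmt hOpcStmt
  have hX0Stmt : X0Stmt := Pool.Agent.Helper95_CM.H34.x0 hGtopStmt hSpgStmt hCguStmt hOpcStmt
  have hCfnStmt : CfnStmt := Pool.Agent.Helper95_CM.H98.cfn 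
  have hCvfStmt : CvfStmt := Pool.Agent.Helper95_CM.cvf hOpcStmt hCguStmt hHb2Stmt hCfnStmt hHpolStmt hSpcStmt hSpoStmt hJConeStmt
  have hLinaStmt : LinaStmt := Pool.Agent.Helper95_CM.H10.lina 
  have hAdpStmt : AdpStmt := Pool.Agent.Helper95_CM.H33.adp hLinaStmt hSpgStmt hCvfStmt
  have hFincStmt : FincStmt := Pool.Agent.Helper95_CM.H33.finc hPfmStmt hFrbStmt
  have hRepStmt : RepStmt := Pool.Agent.Helper95_CM.H17.rep hHb3Stmt hPcoStmt hFrbStmt hJConeStmt hCgpStmt hCguStmt hSpoStmt hSpgStmt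
  have hIndStmt : IndStmt := Pool.Agent.Helper95_CM.ind hSpcStmt hSpoStmt hLftStmt
  have hIfnStmt : IfnStmt := Pool.Agent.Helper95_CM.H98.ifn 
  have hCphStmt : CphStmt := Pool.Agent.Helper95_CM.cph hCfnStmt hOpcStmt
  have hValiStmt : ValiStmt := Pool.Agent.Helper95_CM.H34.vali 
  have hEstStmt : EstStmt := Pool.Agent.Helper95_CM.H98.est 
  have hClimStmt : ClimStmt := Pool.Agent.Helper95_CM.clim hPsoStmt hIfnStmt hCfnStmt hCphStmt hValiStmt hEstStmt hFrbStmt hDleStmt hEeStmt hOpcStmt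
  have hTailStmt : TailStmt := Pool.Agent.Helper95_CM.H98.tail hEeStmt hGamStmt hDleStmt hFrbStmt
  have hCpsStmt : CpsStmt := Pool.Agent.Helper95_CM.cps hClimStmt hTailStmt
  have hCmnStmt : CmnStmt := Pool.Agent.Helper95_CM.H98.cmn 
  have hKrelStmt : KrelStmt := Pool.Agent.Helper95_CM.krel hCpsStmt hRepStmt hHb2Stmt hCphStmt hCmnStmt hCvfStmt hCgpStmt hPcoStmt hFrbStmt hJConeStmt hSpoStmt hOpcStmt
  have hFinlStmt : FinlStmt := Pool.Agent.Helper95_CM.finl 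
  have hOmgStmt : OmgStmt := Pool.Agent.Helper95_CM.H34.omg 
  have hNokStmt : NokStmt := Pool.Agent.Helper95_CM.nok hCadStmt hUlaStmt hPlxStmt hTkgStmt hS1Stmt hKapStmt hX0Stmt hCfnStmt hCvfStmt hAdpStmt hFincStmt hRepStmt hIndStmt hKrelStmt hFinlStmt hSplitStmt hSpoStmt hOmgStmt
  have hMainStmt : MainStmt := Pool.Agent.Helper95_CM.main_of hIntStmt hNfrStmt hNokStmt
  exact hMainStmt

end Pool.Agent.Helper95_CM
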