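import Pool.Agent.Helper95_CM.Alg

/-!
# Frobenius on the cone algebra: definitions for the CM project (MP_31342c_an)
-/

set_option autoImplicit false
set_option linter.unusedSectionVars false

noncomputable section

namespace Pool.Agent.Helper95_CM

open MvPolynomial

/-- `(-p)^j / j!` as a `p`-adic integer -/
def ee (p : ℕ) [Fact p.Prime] (j : ℕ) : ℤ_[p] :=
  open Classical in
  if h : ∃ z : ℤ_[p], (j.factorial : ℤ_[p]) * z = (-(p : ℤ_[p])) ^ j then h.choose else 0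

/-- `⌈l/p⌉` -/
def mm (p l : ℕ) : ℕ := (l + p - 1) / p

/-- `γ_0 = 1`, `γ_l = p (l-1)! / (⌈l/p⌉ - 1)!` -/
def gam (p l : ℕ) : ℕ :=
  if l = 0 then 1 else p * ((l - 1).factorial / (mm p l - 1).factorial)

/-- `u_l = (p l - 1)! / (p^(l-1) (l-1)!)`, a `p`-adic unit; `u_0 = 1` -/
def uu (p l : ℕ) : ℕ :=
  if l = 0 then 1 else (p * l - 1).factorial / (p ^ (l - 1) * (l - 1).factorial)

section
variable {n M : ℕ} {R : Type} [CommRing R] (p : ℕ) [Fact p.Prime] (z : ℤ_[p] →+* R)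

/-- truncated exponential `Σ_{j<J} e_j Δ^j` -/
def TJ (J : ℕ) (Dl : PP n R) : PP n R :=
  ∑ j ∈ Finset.range J, C (z (ee p j)) * Dl ^ j

/-- `V(m_s) = γ_l m_s F^(pm-l)`, extended linearly -/
def VV (F : PP n R) (x : PP n R) : PP n R :=
  x.support.sum fun s =>
    monomial s ((gam p (s 0) : R) * coeff s x) * F ^ (p * mm p (s 0) - s 0)

/-- the Frobenius operator `Psi_J` -/
def Psi (J : ℕ) (F Dl : PP n R) (x : PP n R) : PP n R := psi p (TJ p z J Dl * VV p F x)

end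

/-- `F^p = expand_p(F^φ) + p Δ` -/
def IsDl {n M : ℕ} {R : Type} [CommRing R] (p : ℕ) (f : R →+* R) (c : Grid n M → R)
    (Dl : PP n R) : Prop :=
  Fp c ^ p = expand p (Fp (fun β => f (c β))) + C (p : R) * Dl

/-- Frobenius base: `p`-torsion free ring with `ℤ_p → R`, a lift of Frobenius `f` and a
derivation `d` with `d f = p f d` -/
structure FBase (p : ℕ) [Fact p.Prime] {R : Type} [CommRing R] (z : ℤ_[p] →+* R)
    (f : R →+* R) (d : R →+ R) : Prop where
  tf : ∀ x : R, (p : R) * x = 0 → x = 0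
  lift : ∀ x : R, (p : R) ∣ f x - x ^ p
  lin : ∀ a : ℤ_[p], f (z a) = z a
  der : IsDer d
  derZ : ∀ a : ℤ_[p], d (z a) = 0
  comm : ∀ x, d (f x) = (p : R) * f (d x)

/-- the rank-level: `n + 1` for the interior, `n` for the full cone -/
def Lb (n : ℕ) (b : Bool) : ℕ := if b = true then n + 1 else n

section
variable {n M : ℕ} {b : Bool} (A : CAD n M b) {R : Type} [CommRing R]
variable (p : ℕ) [Fact p.Prime] (z : ℤ_[p] →+* R)

/-- connection matrix of `∇_d` on the basis -/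
def Rm (d : R →+ R) (c : Grid n M → R) : Matrix A.Bas A.Bas R :=
  Matrix.of fun s' s => crd A c (nab d c (bb A c s)) s'

/-- matrix of `Psi_(2N)` -/
def Pm (N : ℕ) (f : R →+* R) (c : Grid n M → R) (Dl : PP n R) : Matrix A.Bas A.Bas R :=
  Matrix.of fun s' s =>
    crd A (fun β => f (c β)) (Psi p z (2 * N) (Fp c) Dl (bb A c s)) s'

/-- `Θ`: class of `u^{-1} expand_p(b_s^φ)` -/
def Thm (f : R →+* R) (c : Grid n M → R) : Matrix A.Bas A.Bas R :=
  Matrix.of fun s' s =>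
    Ring.inverse ((uu p (s.1 0) : ℕ) : R) *
      crd A c (expand p (bb A (fun β => f (c β)) s.1)) s'

/-- the error matrix `E` : class of `(Σ_{j<2N} e_j ψ(Δ^j)) b_s^φ` -/
def Em (N : ℕ) (f : R →+* R) (c : Grid n M → R) (Dl : PP n R) : Matrix A.Bas A.Bas R :=
  Matrix.of fun s' s =>
    crd A (fun β => f (c β)) (psi p (TJ p z (2 * N) Dl) * bb A (fun β => f (c β)) s) s'

/-- `F = Θ diag(p^(L-l_s)) Σ_{i<N} (1-E)^i` -/
def Fm (N : ℕ) (f : R →+* R) (c : Grid n M → R) (Dl : PP n R) : Matrix A.Bas A.Bas R :=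
  Thm A p f c * Matrix.diagonal (fun s : A.Bas => (p : R) ^ (Lb n b - s.1 0)) *
    ∑ i ∈ Finset.range N, (1 - Em A p z N f c Dl) ^ i

end

/-! ### matrix level -/

/-- `a` divides every entry of `X - Y` -/
def Cong {I J R : Type} [CommRing R] (a : R) (X Y : Matrix I J R) : Prop :=
  ∀ i j, a ∣ X i j - Y i j

/-- Frobenius structure modulo `p^N`, over any ring with `f` and `d` -/
structure FStr {I R : Type} [Fintype I] [DecidableEq I] [CommRing R] (f : R →+* R) (d : R →+ R)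
    (p N L : ℕ) (Q P F : Matrix I I R) : Prop where
  PF : Cong ((p : R) ^ N) (P * F) ((p : R) ^ L • (1 : Matrix I I R))
  FP : Cong ((p : R) ^ N) (F * P) ((p : R) ^ L • (1 : Matrix I I R))
  cP : Cong ((p : R) ^ N) (P.map d + (p : R) • (Q.map f * P)) (P * Q)
  cF : Cong ((p : R) ^ N) (F.map d + Q * F) ((p : R) • (F * Q.map f))

/-- `∇ x = d x + Q x` on column vectors -/
def nbv {I R : Type} [Fintype I] [CommRing R] (d : R →+ R) (Q : Matrix I I R) :
    (I → R) →+ (I → R) where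
  toFun x := fun i => d (x i) + (Q.mulVec x) i
  map_zero' := by ext i; simp
  map_add' x y := by ext i; simp [Matrix.mulVec_add]; abel

/-- `∇` as an additive endomorphism -/
def nbE {I R : Type} [Fintype I] [CommRing R] (d : R →+ R) (Q : Matrix I I R) :
    AddMonoid.End (I → R) := nbv d Q

/-- `Π_{j<i} (∇ + a - j) x` -/
def dsc {I R : Type} [Fintype I] [CommRing R] (d : R →+ R) (Q : Matrix I I R) (a : R) :
    ℕ → (I → R) → (I → R)
  | 0, x => x
  | i + 1, x => nbv d Q (dsc d Q a i x) + (a - (i : R)) • dsc d Q a i x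

/-- gauge transformation: `U` invertible and `d U + Q U = U Q'` -/
structure Gauge {I R : Type} [Fintype I] [DecidableEq I] [CommRing R] (d : R →+ R)
    (U Ui Q Q' : Matrix I I R) : Prop where
  inv : U * Ui = 1
  inv' : Ui * U = 1
  eq : U.map d + Q * U = U * Q'

/-- all entries are power series -/
def PolF {I J 𝒪 : Type} [CommRing 𝒪] (Q : Matrix I J (LaurentSeries 𝒪)) : Prop :=
  ∀ i j, OrdGe 0 (Q i j)

/-- all pole orders are `≤ a` -/
def PolLe {I J 𝒪 : Type} [CommRing 𝒪] (a : ℕ) (Q : Matrix I J (LaurentSeries 𝒪)) : Prop :=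
  ∀ i j, OrdGe (-(a : ℤ)) (Q i j)

/-- pole-free modulo `p^N` -/
def PolMod {I J 𝒪 : Type} [CommRing 𝒪] (p N : ℕ) (Q : Matrix I J (LaurentSeries 𝒪)) : Prop :=
  ∀ i j, ∀ m : ℤ, m < 0 → (p : 𝒪) ^ N ∣ (Q i j).coeff m

/-- coefficient matrix -/
def mco {I J 𝒪 : Type} [CommRing 𝒪] (m : ℤ) (Q : Matrix I J (LaurentSeries 𝒪)) :
    Matrix I J 𝒪 := Q.map fun x => x.coeff m

/-- Laurent polynomials: finite support -/
def LPol {I J 𝒪 : Type} [CommRing 𝒪] (Q : Matrix I J (LaurentSeries 𝒪)) : Prop :=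
  ∃ a : ℤ, ∀ i j, ∀ m : ℤ, a < m → (Q i j).coeff m = 0

end Pool.Agent.Helper95_CM
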