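import Pool.Agent.Helper95_CM.StK

/-!
# The geometric family: definitions for the CM project (MP_31342c_an)
-/

set_option autoImplicit false
set_option linter.unusedSectionVars false

noncomputable section

namespace Pool.Agent.Helper95_CM

open MvPolynomial

/-- number of generic parameters -/
abbrev qG (n M : ℕ) : ℕ := Fintype.card (Grid n M)

/-- numbering of the generic parameters -/
def gi {n M : ℕ} : Grid n M ≃ Fin (qG n M) := Fintype.equivFin _

/-- coefficients of `Π (1+y_k)^M` -/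
def bin {n M : ℕ} (β : Grid n M) : ℕ := ∏ k, Nat.choose M (β k)

/-- coefficients of `f~ = Σ_u f_u Π y_k^(u_k) (1+y_k)^(M-u_k)` -/
def ftil {n M : ℕ} {R : Type} [CommRing R] (f : MvPolynomial (Fin n) R) (β : Grid n M) : R :=
  f.support.sum fun u => coeff u f *
    ∏ k, (if u k ≤ (β k : ℕ) then (Nat.choose (M - u k) ((β k : ℕ) - u k) : R) else 0)

/-- coefficients of `F = T Π(1+y_k)^M - w T f~ + t^D T Σ c'_β y^β` -/
def cgen {n M : ℕ} {R : Type} [CommRing R] (D : ℕ) (f : MvPolynomial (Fin n) R)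
    (β : Grid n M) : LL (qG n M) R :=
  ((bin β : ℕ) : LL (qG n M) R) - wL (qG n M) R * kL (qG n M) R (ftil f β)
    + tL (qG n M) R ^ D * vL (qG n M) R (gi β)

/-- `ω = T Π y_k (1+y_k)^(M-2)` -/
def omg (n M : ℕ) (R : Type) [CommRing R] : PP n R :=
  X 0 * ∏ k : Fin n, X k.succ * (1 + X k.succ) ^ (M - 2)

/-- formal moment over the unit cube -/
def Mom {n : ℕ} {K : Type} [Field K] (f : MvPolynomial (Fin n) K) : K :=
  f.support.sum fun u => coeff u f * ∏ k, ((u k + 1 : ℕ) : K)⁻¹

/-- standing data at the number field level -/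
structure GData (n M D : ℕ) (K : Type) [Field K] (f : MvPolynomial (Fin n) K) : Prop where
  hn : 1 ≤ n
  hM : 2 ≤ M
  hD : 1 ≤ D
  deg : ∀ k, degreeOf k f ≤ M

/-- lift of the polynomial `f` to `ℤ_p` -/
def LiftP {n p : ℕ} [Fact p.Prime] {K : Type} [Field K] (ι : K →+* ℚ_[p])
    (f : MvPolynomial (Fin n) K) (f' : MvPolynomial (Fin n) ℤ_[p]) : Prop :=
  map ι f = map (zq p) f'

/-! ### the functional `I` and the functional `C` -/

/-- `I(m_s) = (l-1)! Π_k B(u_k, M l - u_k)` on the interior cone -/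
def Iq {n : ℕ} (M : ℕ) (s : Expo n) : ℚ :=
  open Classical in
  if InCone M true s then
    ((s 0 - 1).factorial : ℚ) * ∏ k : Fin n,
      (((s k.succ - 1).factorial : ℚ) * ((M * s 0 - s k.succ - 1).factorial : ℚ) /
        ((M * s 0 - 1).factorial : ℚ))
  else 0

/-- linear extension of `Iq` -/
def Ifun {n : ℕ} (M : ℕ) {R : Type} [CommRing R] [Algebra ℚ R] (x : PP n R) : R :=
  x.support.sum fun s => coeff s x * algebraMap ℚ R (Iq M s)

/-- `[t^(Db) w^a] C(m_s) = (-1)^b/(a! b!) I(m_s f~^a G^b)`, a polynomial in the parameters -/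
def Cab {n : ℕ} (M : ℕ) {K : Type} [Field K] [CharZero K] (f : MvPolynomial (Fin n) K) (a b : ℕ)
    (s : Expo n) : CC (qG n M) K :=
  HahnSeries.C ((-1) ^ b / ((a.factorial : K) * (b.factorial : K))) *
    Ifun M (mon s * Fp (fun β : Grid n M => HahnSeries.C (ftil f β)) ^ a *
      Fp (fun β : Grid n M => vC (qG n M) K (gi β)) ^ b)

/-- value of the functional `C` on a monomial -/
def Cm {n : ℕ} (M D : ℕ) {K : Type} [Field K] [CharZero K] (f : MvPolynomial (Fin n) K)
    (s : Expo n) : LL (qG n M) K :=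
  HahnSeries.ofPowerSeries ℤ _ (PowerSeries.mk fun m =>
    if D ∣ m then
      (HahnSeries.ofPowerSeries ℤ _ (PowerSeries.mk fun a => Cab M f a (m / D) s) : OO (qG n M) K)
    else 0)

/-- the functional `C` -/
def Cfun {n : ℕ} (M D : ℕ) {K : Type} [Field K] [CharZero K] (f : MvPolynomial (Fin n) K)
    (x : PP n (LL (qG n M) K)) : LL (qG n M) K :=
  x.support.sum fun s => coeff s x * Cm M D f s

end Pool.Agent.Helper95_CM
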