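import Pool.Agent.Helper95_CM.Norm
import Pool.Agent.Helper95_CM.Lsm

/-!
# Preparations for KREL (CM project)
-/

set_option autoImplicit false
set_option linter.unusedSectionVars false

noncomputable section

namespace Pool.Agent.Helper95_CM

open MvPolynomial

section
variable {p : ℕ} [Fact p.Prime] {q : ℕ}

lemma exists_ordGe {𝒪 : Type} [CommRing 𝒪] (x : LaurentSeries 𝒪) :
    ∃ e : ℕ, OrdGe (-(e : ℤ)) x := by
  by_cases hx : x = 0
  · exact ⟨0, fun m _ => by rw [hx, HahnSeries.coeff_zero]⟩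
  · refine ⟨(HahnSeries.order x).natAbs, fun m hm => ?_⟩
    apply HahnSeries.coeff_eq_zero_of_lt_order
    omega

lemma OrdGe.mono {𝒪 : Type} [CommRing 𝒪] {x : LaurentSeries 𝒪} {a b : ℤ} (h : OrdGe a x)
    (hab : b ≤ a) : OrdGe b x := fun i hi => h i (lt_of_lt_of_le hi hab)

lemma NO.gen_mul {B B' : ℝ} (hB : 0 ≤ B) (hB' : 0 ≤ B') {b e : ℤ} {x y : OO q ℚ_[p]}
    (hx : ∀ m, NC B' (x.coeff m)) (hxo : OrdGe (-e) x) (hy : NO B (b + e) y) :
    NO (B' * B) b (x * y) := by
  intro m hm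
  rw [HahnSeries.coeff_mul]
  refine NC.sum (mul_nonneg hB' hB) _ _ ?_
  intro a ha
  rw [Finset.mem_antidiagonal] at ha
  obtain ⟨h1, h2, h3⟩ := ha
  rw [HahnSeries.mem_support] at h1 h2
  have h4 : -e ≤ a.1 := by
    by_contra h
    exact h1 (hxo a.1 (by omega))
  exact NC.mul hB hB' (hx a.1) (hy a.2 (by omega))

lemma NC.phC {B : ℝ} (hB : 0 ≤ B) {x : CC q ℚ_[p]} (hx : NC B x) :
    NC B (phC q ℚ_[p] p x) := by
  intro g
  unfold Helper95_CM.phC
  by_cases h : ∃ g', p • g' = g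
  · obtain ⟨g', rfl⟩ := h
    rw [hphi_coeff (Fact.out : p.Prime).pos]
    exact hx g'
  · push Not at h
    rw [hphi_coeff_ne (Fact.out : p.Prime).pos _ _ h, norm_zero]
    exact hB

lemma NO.phO {B : ℝ} (hB : 0 ≤ B) {b : ℤ} {x : OO q ℚ_[p]} (hx : NO B b x) :
    NO B (b * p) (phO q ℚ_[p] p x) := by
  intro m hm
  have hp : (0 : ℤ) < p := by exact_mod_cast (Fact.out : p.Prime).pos
  unfold Helper95_CM.phO
  by_cases h : (p : ℤ) ∣ m
  · obtain ⟨m', rfl⟩ := h
    rw [phT_coeff (Fact.out : p.Prime).pos]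
    refine NC.phC hB (hx m' ?_)
    nlinarith
  · rw [phT_coeff_ne (Fact.out : p.Prime).pos _ _ _ h]
    exact NC.zero hB

/-- extraction of the constant coefficient -/
lemma ext_zero {N' X X' d : ℕ} (P : LL q ℤ_[p]) (y : LL q ℚ_[p])
    (h1 : ∀ m : ℤ, m < 0 → (p : OO q ℤ_[p]) ^ N' ∣ P.coeff m)
    (h2 : OrdGe (-((X' * p : ℕ) : ℤ)) P)
    (h3 : ∀ m : ℤ, |m| ≤ X' * p → OrdGe (-((d * p : ℕ) : ℤ)) (P.coeff m))
    (h4 : OrdGe 0 y) (h5 : ∀ μ : ℤ, 1 ≤ μ → μ ≤ X' → NO 1 (X + d : ℤ) (y.coeff μ)) :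
    NO ((p : ℝ) ^ N')⁻¹ (X * p : ℤ) ((mL q (zq p) P * phL q ℚ_[p] p y).coeff 0 -
      mO q (zq p) (P.coeff 0) * phO q ℚ_[p] p (y.coeff 0)) := by
  classical
  have hp : (0 : ℤ) < p := by exact_mod_cast (Fact.out : p.Prime).pos
  have hB : (0 : ℝ) ≤ ((p : ℝ) ^ N')⁻¹ := by positivity
  rw [HahnSeries.coeff_mul]
  set s := Finset.antidiagonal (mL q (zq p) P).isPWO_support (phL q ℚ_[p] p y).isPWO_support (0 : ℤ)
    with hs
  have key : ∀ ij ∈ s, ij ≠ (0, 0) → NO ((p : ℝ) ^ N')⁻¹ (X * p : ℤ)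
      ((mL q (zq p) P).coeff ij.1 * (phL q ℚ_[p] p y).coeff ij.2) := by
    intro ij hij hne
    rw [hs, Finset.mem_antidiagonal] at hij
    obtain ⟨h6, h7, h8⟩ := hij
    rw [HahnSeries.mem_support] at h6 h7
    -- the second exponent is `p μ`
    have h9 : (p : ℤ) ∣ ij.2 := by
      by_contra h
      exact h7 (phT_coeff_ne (Fact.out : p.Prime).pos _ _ _ h)
    obtain ⟨μ, hμ⟩ := h9
    have h10 : (phL q ℚ_[p] p y).coeff ij.2 = phO q ℚ_[p] p (y.coeff μ) := by
      rw [hμ]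
      exact phT_coeff (Fact.out : p.Prime).pos _ _ _
    have h11 : 0 ≤ μ := by
      by_contra h
      apply h7
      rw [h10, h4 μ (by omega), map_zero]
    have h12 : 1 ≤ μ := by
      rcases lt_or_eq_of_le h11 with h | h
      · omega
      · exfalso
        apply hne
        rw [← h, mul_zero] at hμ
        exact Prod.ext (by simp only; omega) hμ
    have h13 : ij.1 = -(p * μ) := by omega
    have h14 : (mL q (zq p) P).coeff ij.1 = mO q (zq p) (P.coeff ij.1) := rfl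
    have h15 : μ ≤ X' := by
      by_contra h
      push Not at h
      apply h6
      rw [h14, h2 ij.1 ?_, map_zero]
      rw [h13]
      push_cast
      nlinarith
    rw [h10, h14]
    have h16 : ij.1 < 0 := by rw [h13]; nlinarith
    have h17 : |ij.1| ≤ X' * p := by
      rw [abs_of_neg h16, h13]
      nlinarith
    have h18 : ∀ m, NC ((p : ℝ) ^ N')⁻¹ ((mO q (zq p) (P.coeff ij.1)).coeff m) := by
      intro m
      refine NC_of_dvd N' _ ?_
      exact pow_natCast_dvd_coeff p N' _ (h1 _ h16) m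
    have h19 := NO.phO (p := p) (q := q) zero_le_one (h5 μ h12 h15)
    have h20 := NO.gen_mul (b := (X * p : ℤ)) (e := ((d * p : ℕ) : ℤ)) zero_le_one hB h18
      (ordGe_mO (zq p) (h3 _ h17)) (by
        have : (X * p : ℤ) + ((d * p : ℕ) : ℤ) = (X + d : ℤ) * p := by push_cast; ring
        rw [this]
        exact h19)
    rwa [mul_one] at h20
  by_cases h : ((0 : ℤ), (0 : ℤ)) ∈ s
  · rw [← Finset.add_sum_erase _ _ h]
    have h21 : (phL q ℚ_[p] p y).coeff 0 = phO q ℚ_[p] p (y.coeff 0) := by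
      have := phT_coeff (Fact.out : p.Prime).pos (phO q ℚ_[p] p) y 0
      rw [mul_zero] at this
      exact this
    have h22 : (mL q (zq p) P).coeff 0 = mO q (zq p) (P.coeff 0) := rfl
    simp only
    rw [h21, h22, add_sub_cancel_left]
    apply NO.sum hB
    intro ij hij
    rw [Finset.mem_erase] at hij
    exact key ij hij.2 hij.1
  · have h21 : (phL q ℚ_[p] p y).coeff 0 = phO q ℚ_[p] p (y.coeff 0) := by
      have := phT_coeff (Fact.out : p.Prime).pos (phO q ℚ_[p] p) y 0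
      rw [mul_zero] at this
      exact this
    have h0 : mO q (zq p) (P.coeff 0) * phO q ℚ_[p] p (y.coeff 0) = 0 := by
      rw [hs, Finset.mem_antidiagonal] at h
      by_contra hne
      apply h
      refine ⟨?_, ?_, by simp⟩
      · rw [HahnSeries.mem_support]
        exact left_ne_zero_of_mul hne
      · rw [HahnSeries.mem_support, h21]
        exact right_ne_zero_of_mul hne
    rw [h0, sub_zero]
    apply NO.sum hB
    intro ij hij
    exact key ij hij (fun h' => h (h' ▸ hij))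

end

end Pool.Agent.Helper95_CM
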