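import Pool.Agent.Helper95_CM.Krel0
import Pool.Agent.Helper95_CM.NN

/-!
# KREL: algebraic identities at one prime (CM project)
-/

set_option autoImplicit false
set_option linter.unusedSectionVars false

noncomputable section

namespace Pool.Agent.Helper95_CM

open MvPolynomial

section
variable {p : ℕ} [Fact p.Prime] {q : ℕ}

lemma NL.mono {B : ℝ} {a b a' b' : ℤ} {x : LL q ℚ_[p]} (h : NL B a b x) (ha : a' ≤ a)
    (hb : b' ≤ b) : NL B a' b' x := fun m hm m' hm' => h m (hm.trans ha) m' (hm'.trans hb)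

lemma NO.mono {B : ℝ} {b b' : ℤ} {x : OO q ℚ_[p]} (h : NO B b x)
    (hb : b' ≤ b) : NO B b' x := fun m' hm' => h m' (hm'.trans hb)

lemma NO.le {B B' : ℝ} {b : ℤ} {x : OO q ℚ_[p]} (h : NO B b x)
    (hb : B ≤ B') : NO B' b x := fun m' hm' g => (h m' hm' g).trans hb

lemma kL_mul_coeff {R : Type} [CommRing R] (a : R) (x : LL q R) (m : ℤ) :
    (kL q R a * x).coeff m = kO q R a * x.coeff m := by
  have : kL q R a = HahnSeries.C (kO q R a) := rfl
  rw [this, HahnSeries.C_mul_eq_smul, HahnSeries.coeff_smul, smul_eq_mul]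

/-- degrees of a lift -/
lemma degreeOf_lift {n : ℕ} {K : Type} [Field K] (ι : K →+* ℚ_[p]) (f : MvPolynomial (Fin n) K)
    (f' : MvPolynomial (Fin n) ℤ_[p]) (h : LiftP ι f f') (k : Fin n) :
    degreeOf k f' = degreeOf k f := by
  have h1 : f'.support = f.support := by
    rw [← support_map_of_injective f (ι.injective), h,
      support_map_of_injective f' (IsFractionRing.injective ℤ_[p] ℚ_[p])]
  rw [degreeOf_eq_sup, degreeOf_eq_sup, h1]

end

/-- all the algebra at one prime -/
theorem krel_alg {n M D p : ℕ} [Fact p.Prime] (A : CAD n M true) {K : Type} [Field K] [CharZero K]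
    (f : MvPolynomial (Fin n) K) (U Ui : Matrix A.Bas A.Bas (LL (qG n M) K))
    (ι : K →+* ℚ_[p]) (f' : MvPolynomial (Fin n) ℤ_[p]) (Dl : PP n (LL (qG n M) ℤ_[p]))
    (U' Ui' : Matrix A.Bas A.Bas (LL (qG n M) ℤ_[p])) (N : ℕ) (lam : ℚ_[p])
    (hU : U * Ui = 1) (lf : LiftP ι f f') (lU : LiftM ι U U') (lUi : LiftM ι Ui Ui')
    (hc : ∀ β : Grid n M, mL (qG n M) ι (cgen D f β) = mL (qG n M) (zq p) (cgen D f' β))
    (hcmn : CmnStmt)
    (hΨ : ∀ s : A.Bas, Cph M D p (map (zq p) f')
        (Psi p (kL (qG n M) ℤ_[p]) (2 * N) (Fp (cgen (M := M) D f')) Dl (bb A (cgen D f') s)) =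
        ∑ s' : A.Bas, mL (qG n M) (zq p)
          (Pm A p (kL (qG n M) ℤ_[p]) N (phL (qG n M) ℤ_[p] p) (cgen D f') Dl s' s) *
          phL (qG n M) ℚ_[p] p (Cfun M D (map (zq p) f')
            (map (mL (qG n M) (zq p)) (bb A (cgen D f') s'))))
    (hopc : ∀ x, mL (qG n M) (zq p) (phL (qG n M) ℤ_[p] p x) =
      phL (qG n M) ℚ_[p] p (mL (qG n M) (zq p) x)) (i : A.Bas) :
    ∑ s : A.Bas, mL (qG n M) (zq p) (U' s i) * (Cph M D p (map (zq p) f')
        (Psi p (kL (qG n M) ℤ_[p]) (2 * N) (Fp (cgen (M := M) D f')) Dl (bb A (cgen D f') s)) -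
        kL (qG n M) ℚ_[p] lam * Cfun M D (map (zq p) f')
            (map (mL (qG n M) (zq p)) (bb A (cgen D f') s))) =
    (∑ j : A.Bas, mL (qG n M) (zq p) (Pv A D N p f' Dl U' Ui' j i) *
      phL (qG n M) ℚ_[p] p (mL (qG n M) ι (Cv A D f U j))) -
      kL (qG n M) ℚ_[p] lam * mL (qG n M) ι (Cv A D f U i) := by
  classical
  set zl := mL (qG n M) (zq p) with hzl
  set il := mL (qG n M) ι with hil
  set φQ := phL (qG n M) ℚ_[p] p with hφQ
  set cb : A.Bas → LL (qG n M) ℚ_[p] := fun s => Cfun M D (map (zq p) f')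
      (map zl (bb A (cgen D f') s)) with hcb
  have lf' : map ι f = map (zq p) f' := lf
  have fact1 : ∀ s : A.Bas, il (Cfun M D f (bb A (cgen D f) s)) = cb s := by
    intro s
    rw [hcb]
    simp only
    rw [Cfun_eq, Cfun_eq, lsm_hom, ← lf']
    have h1 : (fun s => il (Cm M D f s)) = Cm M D (map ι f) := by
      funext u
      exact hcmn n M D K ℚ_[p] ι f u
    rw [h1]
    have h2 : map zl (bb A (cgen D f') s) = map il (bb A (cgen D f) (s : Expo n)) := by
      rw [map_bb, map_bb]
      congr 1
      funext β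
      exact (hc β).symm
    rw [h2, lsm_map]
    rfl
  have hUe : ∀ a b, zl (U' a b) = il (U a b) := by
    intro a b
    have := congrFun (congrFun lU a) b
    exact this.symm
  have hUie : ∀ a b, zl (Ui' a b) = il (Ui a b) := by
    intro a b
    have := congrFun (congrFun lUi a) b
    exact this.symm
  have hcv : ∀ j, il (Cv A D f U j) = ∑ s, cb s * zl (U' s j) := by
    intro j
    unfold Cv
    rw [map_sum]
    apply Finset.sum_congr rfl
    intro s _
    rw [map_mul, fact1, hUe]
  have fact2 : ∀ s, cb s = ∑ j, il (Cv A D f U j) * zl (Ui' j s) := by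
    intro s
    have h1 : ∀ s', ∑ j, zl (U' s' j) * zl (Ui' j s) = if s' = s then 1 else 0 := by
      intro s'
      have h2 : il ((U * Ui) s' s) = ∑ j, zl (U' s' j) * zl (Ui' j s) := by
        rw [Matrix.mul_apply, map_sum]
        apply Finset.sum_congr rfl
        intro j _
        rw [map_mul, hUe, hUie]
      rw [← h2, hU, Matrix.one_apply]
      split_ifs
      · exact map_one _
      · exact map_zero _
    calc cb s = ∑ s', cb s' * (if s' = s then 1 else 0) := by
          rw [Finset.sum_eq_single s]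
          · rw [if_pos rfl, mul_one]
          · intro b _ hb
            rw [if_neg hb, mul_zero]
          · intro h; exact absurd (Finset.mem_univ _) h
      _ = ∑ s', cb s' * ∑ j, zl (U' s' j) * zl (Ui' j s) := by
          apply Finset.sum_congr rfl
          intro s' _
          rw [h1]
      _ = ∑ j, il (Cv A D f U j) * zl (Ui' j s) := by
          simp only [Finset.mul_sum]
          rw [Finset.sum_comm]
          apply Finset.sum_congr rfl
          intro j _
          rw [hcv, Finset.sum_mul]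
          apply Finset.sum_congr rfl
          intro s' _
          ring
  have hPv : ∀ j, zl (Pv A D N p f' Dl U' Ui' j i) = ∑ s' : A.Bas, ∑ s : A.Bas,
      φQ (zl (Ui' j s')) *
        (zl (Pm A p (kL (qG n M) ℤ_[p]) N (phL (qG n M) ℤ_[p] p) (cgen D f') Dl s' s) *
          zl (U' s i)) := by
    intro j
    unfold Pv
    rw [Matrix.mul_assoc, Matrix.mul_apply, map_sum]
    apply Finset.sum_congr rfl
    intro s' _
    rw [map_mul, Matrix.map_apply, hopc, Matrix.mul_apply, map_sum, Finset.mul_sum]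
    apply Finset.sum_congr rfl
    intro s _
    rw [map_mul]
  have h3 : ∑ s : A.Bas, zl (U' s i) * (Cph M D p (map (zq p) f')
        (Psi p (kL (qG n M) ℤ_[p]) (2 * N) (Fp (cgen (M := M) D f')) Dl (bb A (cgen D f') s))) =
      ∑ j : A.Bas, zl (Pv A D N p f' Dl U' Ui' j i) * φQ (il (Cv A D f U j)) := by
    calc ∑ s : A.Bas, zl (U' s i) * (Cph M D p (map (zq p) f')
        (Psi p (kL (qG n M) ℤ_[p]) (2 * N) (Fp (cgen (M := M) D f')) Dl (bb A (cgen D f') s)))
        = ∑ s : A.Bas, ∑ s' : A.Bas, ∑ j : A.Bas, φQ (il (Cv A D f U j)) * (φQ (zl (Ui' j s')) *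
        (zl (Pm A p (kL (qG n M) ℤ_[p]) N (phL (qG n M) ℤ_[p] p) (cgen D f') Dl s' s) *
          zl (U' s i))) := by
          apply Finset.sum_congr rfl
          intro s _
          rw [hΨ s, Finset.mul_sum]
          apply Finset.sum_congr rfl
          intro s' _
          have h4 : φQ (Cfun M D (map (zq p) f') (map zl (bb A (cgen D f') s'))) =
              ∑ j, φQ (il (Cv A D f U j)) * φQ (zl (Ui' j s')) := by
            have h5 := fact2 s'
            rw [hcb] at h5
            simp only at h5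
            rw [h5, map_sum]
            apply Finset.sum_congr rfl
            intro j _
            rw [map_mul]
          rw [h4, Finset.mul_sum, Finset.mul_sum]
          apply Finset.sum_congr rfl
          intro j _
          ring
      _ = ∑ j : A.Bas, zl (Pv A D N p f' Dl U' Ui' j i) * φQ (il (Cv A D f U j)) := by
          rw [Finset.sum_comm]
          rw [show (∑ s' : A.Bas, ∑ s : A.Bas, ∑ j : A.Bas, φQ (il (Cv A D f U j)) *
            (φQ (zl (Ui' j s')) *
            (zl (Pm A p (kL (qG n M) ℤ_[p]) N (phL (qG n M) ℤ_[p] p) (cgen D f') Dl s' s) *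
              zl (U' s i)))) = ∑ s' : A.Bas, ∑ j : A.Bas, ∑ s : A.Bas, φQ (il (Cv A D f U j)) *
            (φQ (zl (Ui' j s')) *
            (zl (Pm A p (kL (qG n M) ℤ_[p]) N (phL (qG n M) ℤ_[p] p) (cgen D f') Dl s' s) *
              zl (U' s i))) from Finset.sum_congr rfl fun s' _ => Finset.sum_comm]
          rw [Finset.sum_comm]
          apply Finset.sum_congr rfl
          intro j _
          rw [hPv j, Finset.sum_mul]
          apply Finset.sum_congr rfl
          intro s' _
          rw [Finset.sum_mul]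
          apply Finset.sum_congr rfl
          intro s _
          ring
  have h6 : ∑ s : A.Bas, zl (U' s i) * (kL (qG n M) ℚ_[p] lam * cb s) =
      kL (qG n M) ℚ_[p] lam * il (Cv A D f U i) := by
    rw [hcv, Finset.mul_sum]
    apply Finset.sum_congr rfl
    intro s _
    ring
  calc _ = ∑ s : A.Bas, zl (U' s i) * (Cph M D p (map (zq p) f')
        (Psi p (kL (qG n M) ℤ_[p]) (2 * N) (Fp (cgen (M := M) D f')) Dl (bb A (cgen D f') s))) -
        ∑ s : A.Bas, zl (U' s i) * (kL (qG n M) ℚ_[p] lam * cb s) := by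
        rw [← Finset.sum_sub_distrib]
        apply Finset.sum_congr rfl
        intro s _
        rw [mul_sub]
    _ = _ := by rw [h3, h6]

end Pool.Agent.Helper95_CM
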