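import Pool.Agent.Helper95_CM.Krel1

/-!
# KREL: Frobenius on the basis elements at one prime (CM project)
-/

set_option autoImplicit false
set_option linter.unusedSectionVars false

noncomputable section

namespace Pool.Agent.Helper95_CM

open MvPolynomial

/-- the Jacobian: cone and level -/
lemma jac_cone (hjc : JConeStmt) {n M : ℕ} {R : Type} [CommRing R] (c : Grid n M → R)
    (h1 : 1 ≤ n) (h2 : 1 ≤ M) : IsCone M true (Jac c) ∧ HasLev (n + 1) (Jac c) :=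
  hjc n M R (fun i => Yp c i) h1 h2 (fun i => ⟨isCone_Yp c i, hasLev_Yp c i⟩)

/-- basis elements: cone and level -/
lemma bb_cone (hjc : JConeStmt) {n M : ℕ} {R : Type} [CommRing R] (A : CAD n M true)
    (c : Grid n M → R) (h1 : 1 ≤ n) (h2 : 1 ≤ M) (s : A.Bas) :
    IsCone M true (bb A c s) ∧ LevLe (n + 1) (bb A c s) := by
  unfold bb bbo
  split_ifs with h
  · exact ⟨(jac_cone hjc c h1 h2).1, (jac_cone hjc c h1 h2).2.levLe le_rfl⟩
  · have hl : s.1 0 ≤ n + 1 := by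
      rcases A.lev s.1 s.2 with h' | h'
      · omega
      · exact absurd h' h
    exact ⟨Supp.monomial (A.cone s.1 s.2) 1,
      Supp.monomial (P := fun s : Expo n => s 0 ≤ n + 1) hl 1⟩

/-- coefficients of the basis elements in a subring -/
lemma coeff_bb_mem {n M : ℕ} {R : Type} [CommRing R] (A : CAD n M true)
    (c : Grid n M → R) (S : Subring R) (hc : ∀ β, c β ∈ S) (s : Expo n) (u : Expo n) :
    coeff u (bb A c s) ∈ S := by
  have h := map_bb A S.subtype (fun β => (⟨c β, hc β⟩ : S)) s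
  have h2 : bb A c s = map S.subtype (bb A (fun β => (⟨c β, hc β⟩ : S)) s) := by
    rw [h]
    rfl
  rw [h2, coeff_map]
  exact (coeff u (bb A (fun β => (⟨c β, hc β⟩ : S)) s)).2

/-- the whole ring as a `SubB` -/
lemma subB_top {n M : ℕ} (p : ℕ) [Fact p.Prime] {R : Type} [CommRing R] (z : ℤ_[p] →+* R)
    (f : R →+* R) (d : R →+ R) (c : Grid n M → R) : SubB p z f d c ⊤ :=
  ⟨fun _ => Subring.mem_top _, fun _ => Subring.mem_top _, fun _ _ => Subring.mem_top _,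
    fun _ _ => Subring.mem_top _, fun _ _ => Subring.mem_top _⟩

/-- `C^φ` on the Frobenius of the basis elements -/
theorem krel_psi (hb2 : Hb2Stmt) (hcph : CphStmt) (hpco : PcoStmt) (hfrb : FrbStmt)
    (hjc : JConeStmt) (hopc : OpcStmt)
    {n M D p : ℕ} [Fact p.Prime] (A : CAD n M true) (f' : MvPolynomial (Fin n) ℤ_[p])
    (Dl : PP n (LL (qG n M) ℤ_[p])) (N : ℕ)
    (h1 : 1 ≤ n) (h2 : 2 ≤ M) (h3 : 1 ≤ D) (hdeg : ∀ k, degreeOf k f' ≤ M)
    (hdl : IsDl p (phL (qG n M) ℤ_[p] p) (cgen D f') Dl)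
    (hun : IsUnit (dt A (cgen (M := M) D f'))) (s : A.Bas) :
    Cph M D p (map (zq p) f')
        (Psi p (kL (qG n M) ℤ_[p]) (2 * N) (Fp (cgen (M := M) D f')) Dl (bb A (cgen D f') s)) =
        ∑ s' : A.Bas, mL (qG n M) (zq p)
          (Pm A p (kL (qG n M) ℤ_[p]) N (phL (qG n M) ℤ_[p] p) (cgen D f') Dl s' s) *
          phL (qG n M) ℚ_[p] p (Cfun M D (map (zq p) f')
            (map (mL (qG n M) (zq p)) (bb A (cgen D f') s'))) := by
  have hp := (Fact.out : p.Prime).pos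
  have hF := (hfrb (qG n M) p).1
  obtain ⟨-, hpsi⟩ := hpco n M p true (LL (qG n M) ℤ_[p]) (kL (qG n M) ℤ_[p])
    (phL (qG n M) ℤ_[p] p) (thLt (qG n M) ℤ_[p]) (cgen (M := M) D f') Dl (2 * N) (n + 1) ⊤ hF hdl
    (subB_top p _ _ _ _)
  obtain ⟨hco, hlv⟩ := bb_cone hjc A (cgen (M := M) D f') h1 (by omega) s
  obtain ⟨hc1, hc2, -⟩ := hpsi _ hco hlv (fun _ => Subring.mem_top _)
  have hunφ : IsUnit (dt A (fun β => phL (qG n M) ℤ_[p] p (cgen (M := M) D f' β))) := by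
    rw [dt_map]
    exact hun.map _
  obtain ⟨σ, hσ1, hσ2, hσ3, hσ4⟩ := hb2 n M true A (LL (qG n M) ℤ_[p])
    (fun β => phL (qG n M) ℤ_[p] p (cgen (M := M) D f' β)) h1 (by omega) hunφ _ _ hc1 hc2
  have hkill := (hcph n M D p f' h1 h2 h3 hdeg).1
  have hOP := (hopc (qG n M) ℤ_[p] ℚ_[p] (zq p) p hp).1
  have hbb : ∀ s' : A.Bas, Cph M D p (map (zq p) f')
      (bb A (fun β => phL (qG n M) ℤ_[p] p (cgen (M := M) D f' β)) s') =
      phL (qG n M) ℚ_[p] p (Cfun M D (map (zq p) f')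
            (map (mL (qG n M) (zq p)) (bb A (cgen D f') s'))) := by
    intro s'
    rw [← map_bb, Cph_eq, lsm_map, Cfun_eq, lsm_map, lsm_hom]
    have : (mL (qG n M) (zq p)).comp (phL (qG n M) ℤ_[p] p) =
        (phL (qG n M) ℚ_[p] p).comp ((RingHom.id (LL (qG n M) ℚ_[p])).comp
          (mL (qG n M) (zq p))) := by
      ext x : 1
      exact hOP x
    rw [this]
  conv_lhs => rw [hσ3]
  rw [Cph_eq, lsm_add, lsm_sum, lsm_sum]
  have h0 : ∑ i, lsm (mL (qG n M) (zq p)) (fun s => phL (qG n M) ℚ_[p] p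
      (Cm M D (map (zq p) f') s)) (Dop (fun β => phL (qG n M) ℤ_[p] p (cgen (M := M) D f' β)) i
        (σ i)) = 0 := by
    apply Finset.sum_eq_zero
    intro i _
    exact hkill i (σ i) (hσ1 i)
  rw [h0, add_zero]
  apply Finset.sum_congr rfl
  intro s' _
  rw [lsm_C_mul]
  have h5 := hbb s'
  rw [Cph_eq] at h5
  rw [h5]
  rfl

/-- the error terms are small -/
theorem krel_err {n M D p : ℕ} [Fact p.Prime] (hjc : JConeStmt) (A : CAD n M true)
    (f' : MvPolynomial (Fin n) ℤ_[p]) (Dl : PP n (LL (qG n M) ℤ_[p])) (N X : ℕ) (lam : ℤ_[p])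
    (h1 : 1 ≤ n) (h2 : 2 ≤ M)
    (hcps : ∀ s : Expo n, InCone M true s → s 0 ≤ n + 1 → ∀ (m m' : ℤ) (g : Gam (qG n M)),
    m ≤ X → m' ≤ X * p →
    ‖(((Cph M D p (map (zq p) f') (Psi p (kL (qG n M) ℤ_[p]) (2 * N) (Fp (cgen (M := M) D f')) Dl
        (mon s)) - kL (qG n M) ℚ_[p] (zq p lam) * Cm M D (map (zq p) f') s).coeff m).coeff m').coeff g‖
      ≤ ((p : ℝ) ^ N)⁻¹) (s : A.Bas) :
    NL ((p : ℝ) ^ N)⁻¹ (X : ℤ) (X * p : ℤ) (Cph M D p (map (zq p) f')
        (Psi p (kL (qG n M) ℤ_[p]) (2 * N) (Fp (cgen (M := M) D f')) Dl (bb A (cgen D f') s)) -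
        kL (qG n M) ℚ_[p] (zq p lam) * Cfun M D (map (zq p) f')
            (map (mL (qG n M) (zq p)) (bb A (cgen D f') s))) := by
  have hB : (0 : ℝ) ≤ ((p : ℝ) ^ N)⁻¹ := by positivity
  obtain ⟨hco, hlv⟩ := bb_cone hjc A (cgen (M := M) D f') h1 (by omega) s
  set x := bb A (cgen (M := M) D f') s with hx
  have hmem : ∀ u, coeff u x ∈ NNsub (qG n M) ℤ_[p] := fun u =>
    coeff_bb_mem A _ _ (fun β => cgen_mem_NNsub D f' β) s u
  have e1 : Cph M D p (map (zq p) f')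
        (Psi p (kL (qG n M) ℤ_[p]) (2 * N) (Fp (cgen (M := M) D f')) Dl x) =
      ∑ u ∈ x.support, mL (qG n M) (zq p) (coeff u x) * Cph M D p (map (zq p) f')
        (Psi p (kL (qG n M) ℤ_[p]) (2 * N) (Fp (cgen (M := M) D f')) Dl (mon u)) := by
    conv_lhs => rw [eq_sum_mon x]
    rw [Psi_sum, Cph_eq, lsm_sum]
    apply Finset.sum_congr rfl
    intro u _
    rw [Psi_C_mul, lsm_C_mul]
    rfl
  have e2 : Cfun M D (map (zq p) f') (map (mL (qG n M) (zq p)) x) =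
      ∑ u ∈ x.support, mL (qG n M) (zq p) (coeff u x) * Cm M D (map (zq p) f') u := by
    rw [Cfun_eq, lsm_map]
    rfl
  rw [e1, e2, Finset.mul_sum, ← Finset.sum_sub_distrib]
  apply NL.sum hB
  intro u hu
  have e3 : mL (qG n M) (zq p) (coeff u x) * Cph M D p (map (zq p) f')
        (Psi p (kL (qG n M) ℤ_[p]) (2 * N) (Fp (cgen (M := M) D f')) Dl (mon u)) -
      kL (qG n M) ℚ_[p] (zq p lam) * (mL (qG n M) (zq p) (coeff u x) *
        Cm M D (map (zq p) f') u) = mL (qG n M) (zq p) (coeff u x) *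
      (Cph M D p (map (zq p) f')
        (Psi p (kL (qG n M) ℤ_[p]) (2 * N) (Fp (cgen (M := M) D f')) Dl (mon u)) -
        kL (qG n M) ℚ_[p] (zq p lam) * Cm M D (map (zq p) f') u) := by ring
  rw [e3]
  have hc := hco u (mem_support_iff.mp hu)
  have hl := hlv u (mem_support_iff.mp hu)
  refine NL.int_mul (et := 0) (ew := 0) hB ?_ ?_ ?_ ?_
  · intro m m'
    exact NC_of_int _
  · rw [neg_zero]
    intro m hm
    change mO (qG n M) (zq p) ((coeff u x).coeff m) = 0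
    rw [(hmem u).1 m hm, map_zero]
  · intro m
    rw [neg_zero]
    exact ordGe_mO (zq p) ((hmem u).2 m)
  · rw [add_zero, add_zero]
    intro m hm m' hm' g
    exact hcps u hc hl m m' g hm hm'

end Pool.Agent.Helper95_CM
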