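import Pool.Agent.Helper95_CM.Asm
import Pool.Agent.Helper95_CM.Base

/-!
# Norm estimates for coefficients of nested series over `ℚ_p` (CM project)
-/

set_option autoImplicit false
set_option linter.unusedSectionVars false

noncomputable section

namespace Pool.Agent.Helper95_CM

open MvPolynomial

variable {p : ℕ} [Fact p.Prime]

lemma norm_sum_le_q {ι : Type} (t : Finset ι) (x : ι → ℚ_[p]) (B : ℝ) (hB : 0 ≤ B)
    (h : ∀ i ∈ t, ‖x i‖ ≤ B) : ‖∑ i ∈ t, x i‖ ≤ B := by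
  classical
  induction t using Finset.induction_on with
  | empty => simpa using hB
  | insert a t ha ih =>
    rw [Finset.sum_insert ha]
    refine (Padic.nonarchimedean _ _).trans (max_le ?_ ?_)
    · exact h a (Finset.mem_insert_self a t)
    · exact ih fun i hi => h i (Finset.mem_insert_of_mem hi)

/-- all coefficients have norm `≤ B` -/
def NC {q : ℕ} (B : ℝ) (x : CC q ℚ_[p]) : Prop := ∀ g, ‖x.coeff g‖ ≤ B

/-- all coefficients with `w`-exponent `≤ b` have norm `≤ B` -/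
def NO {q : ℕ} (B : ℝ) (b : ℤ) (x : OO q ℚ_[p]) : Prop := ∀ m ≤ b, NC B (x.coeff m)

/-- all coefficients with `t`-exponent `≤ a` and `w`-exponent `≤ b` have norm `≤ B` -/
def NL {q : ℕ} (B : ℝ) (a b : ℤ) (x : LL q ℚ_[p]) : Prop := ∀ m ≤ a, NO B b (x.coeff m)

section
variable {q : ℕ}

lemma NC.zero {B : ℝ} (hB : 0 ≤ B) : NC (q := q) (p := p) B 0 := by
  intro g; rw [HahnSeries.coeff_zero, norm_zero]; exact hB

lemma NO.zero {B : ℝ} (hB : 0 ≤ B) (b : ℤ) : NO (q := q) (p := p) B b 0 := by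
  intro m _; rw [HahnSeries.coeff_zero]; exact NC.zero hB

lemma NL.zero {B : ℝ} (hB : 0 ≤ B) (a b : ℤ) : NL (q := q) (p := p) B a b 0 := by
  intro m _; rw [HahnSeries.coeff_zero]; exact NO.zero hB b

lemma NC.sum {B : ℝ} (hB : 0 ≤ B) {ι : Type} (t : Finset ι) (x : ι → CC q ℚ_[p])
    (h : ∀ i ∈ t, NC B (x i)) : NC B (∑ i ∈ t, x i) := by
  intro g
  rw [HahnSeries.coeff_sum]
  exact norm_sum_le_q t _ B hB fun i hi => h i hi g

lemma NO.sum {B : ℝ} (hB : 0 ≤ B) {b : ℤ} {ι : Type} (t : Finset ι) (x : ι → OO q ℚ_[p])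
    (h : ∀ i ∈ t, NO B b (x i)) : NO B b (∑ i ∈ t, x i) := by
  intro m hm
  rw [HahnSeries.coeff_sum]
  exact NC.sum hB t _ fun i hi => h i hi m hm

lemma NL.sum {B : ℝ} (hB : 0 ≤ B) {a b : ℤ} {ι : Type} (t : Finset ι) (x : ι → LL q ℚ_[p])
    (h : ∀ i ∈ t, NL B a b (x i)) : NL B a b (∑ i ∈ t, x i) := by
  intro m hm
  rw [HahnSeries.coeff_sum]
  exact NO.sum hB t _ fun i hi => h i hi m hm

lemma NC.add {B : ℝ} {x y : CC q ℚ_[p]} (hx : NC B x) (hy : NC B y) : NC B (x + y) := by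
  intro g
  rw [HahnSeries.coeff_add]
  exact (Padic.nonarchimedean _ _).trans (max_le (hx g) (hy g))

lemma NC.neg {B : ℝ} {x : CC q ℚ_[p]} (hx : NC B x) : NC B (-x) := by
  intro g
  rw [HahnSeries.coeff_neg, norm_neg]
  exact hx g

lemma NO.add {B : ℝ} {b : ℤ} {x y : OO q ℚ_[p]} (hx : NO B b x) (hy : NO B b y) :
    NO B b (x + y) := by
  intro m hm
  rw [HahnSeries.coeff_add]
  exact (hx m hm).add (hy m hm)

lemma NO.neg {B : ℝ} {b : ℤ} {x : OO q ℚ_[p]} (hx : NO B b x) : NO B b (-x) := by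
  intro m hm
  rw [HahnSeries.coeff_neg]
  exact (hx m hm).neg

lemma NO.sub {B : ℝ} {b : ℤ} {x y : OO q ℚ_[p]} (hx : NO B b x) (hy : NO B b y) :
    NO B b (x - y) := by
  rw [sub_eq_add_neg]; exact hx.add hy.neg

/-- product with an integral element -/
lemma NC.mul {B B' : ℝ} (hB : 0 ≤ B) (hB' : 0 ≤ B') {x y : CC q ℚ_[p]} (hx : NC B' x)
    (hy : NC B y) : NC (B' * B) (x * y) := by
  intro g
  rw [HahnSeries.coeff_mul]
  refine norm_sum_le_q _ _ _ (mul_nonneg hB' hB) ?_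
  intro a _
  rw [norm_mul]
  exact mul_le_mul (hx _) (hy _) (norm_nonneg _) hB'

/-- product of `x`, of `w`-order `≥ -e` and norm `≤ B'` up to `b + f`, with `y` small up to `b`,
of `w`-order `≥ -f`. -/
lemma NO.mul {B B' : ℝ} (hB : 0 ≤ B) (hB' : 0 ≤ B') {b e f : ℤ} {x y : OO q ℚ_[p]}
    (hx : NO B' (b + f) x) (hxo : OrdGe (-e) x) (hyo : OrdGe (-f) y)
    (hy : NO B (b + e) y) : NO (B' * B) b (x * y) := by
  intro m hm
  rw [HahnSeries.coeff_mul]
  refine NC.sum (mul_nonneg hB' hB) _ _ ?_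
  intro a ha
  rw [Finset.mem_antidiagonal] at ha
  obtain ⟨h1, h2, h3⟩ := ha
  rw [HahnSeries.mem_support] at h1 h2
  have h4 : -e ≤ a.1 := by
    by_contra h
    exact h1 (hxo a.1 (by omega))
  have h5 : -f ≤ a.2 := by
    by_contra h
    exact h2 (hyo a.2 (by omega))
  exact NC.mul hB hB' (hx a.1 (by omega)) (hy a.2 (by omega))

/-- integral elements of `LL`: `x = mL zq x'` -/
lemma NC_of_int (x : CC q ℤ_[p]) : NC 1 (mC q (zq p) x) := by
  intro g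
  exact PadicInt.norm_le_one _

lemma NC_of_dvd (N : ℕ) (x : CC q ℤ_[p]) (h : (p : CC q ℤ_[p]) ^ N ∣ x) :
    NC ((p : ℝ) ^ N)⁻¹ (mC q (zq p) x) := by
  obtain ⟨y, rfl⟩ := h
  intro g
  have h1 : ((mC q (zq p) ((p : CC q ℤ_[p]) ^ N * y)).coeff g) =
      (p : ℚ_[p]) ^ N * ((y.coeff g : ℤ_[p]) : ℚ_[p]) := by
    have h2 : (p : CC q ℤ_[p]) ^ N = ((p ^ N : ℕ) : CC q ℤ_[p]) := (Nat.cast_pow p N).symm
    rw [h2]
    change zq p ((((p ^ N : ℕ) : CC q ℤ_[p]) * y).coeff g) = _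
    rw [natCast_mul_coeff, map_mul, map_natCast]
    push_cast
    rfl
  rw [h1, norm_mul, norm_pow, Padic.norm_p]
  have h3 : ‖((y.coeff g : ℤ_[p]) : ℚ_[p])‖ ≤ 1 := PadicInt.norm_le_one _
  calc ((p : ℝ)⁻¹) ^ N * ‖((y.coeff g : ℤ_[p]) : ℚ_[p])‖ ≤ ((p : ℝ)⁻¹) ^ N * 1 := by
        apply mul_le_mul_of_nonneg_left h3
        positivity
    _ = ((p : ℝ) ^ N)⁻¹ := by rw [mul_one, inv_pow]

lemma NO_of_int (b : ℤ) (x : OO q ℤ_[p]) : NO 1 b (mO q (zq p) x) :=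
  fun m _ => NC_of_int (x.coeff m)

/-- product of an integral element of `w`-order `≥ -e` with a small element -/
lemma NO.int_mul {B : ℝ} (hB : 0 ≤ B) {b e : ℤ} {x y : OO q ℚ_[p]}
    (hx : ∀ m, NC 1 (x.coeff m)) (hxo : OrdGe (-e) x) (hy : NO B (b + e) y) :
    NO B b (x * y) := by
  intro m hm
  rw [HahnSeries.coeff_mul]
  refine NC.sum hB _ _ ?_
  intro a ha
  rw [Finset.mem_antidiagonal] at ha
  obtain ⟨h1, h2, h3⟩ := ha
  rw [HahnSeries.mem_support] at h1 h2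
  have h4 : -e ≤ a.1 := by
    by_contra h
    exact h1 (hxo a.1 (by omega))
  have := NC.mul hB zero_le_one (hx a.1) (hy a.2 (by omega))
  rwa [one_mul] at this

lemma NL.int_mul {B : ℝ} (hB : 0 ≤ B) {a b et ew : ℤ} {x y : LL q ℚ_[p]}
    (hx : ∀ m m', NC 1 ((x.coeff m).coeff m')) (hxt : OrdGe (-et) x)
    (hxw : ∀ m, OrdGe (-ew) (x.coeff m)) (hy : NL B (a + et) (b + ew) y) :
    NL B a b (x * y) := by
  intro m hm
  rw [HahnSeries.coeff_mul]
  refine NO.sum hB _ _ ?_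
  intro i hi
  rw [Finset.mem_antidiagonal] at hi
  obtain ⟨h1, h2, h3⟩ := hi
  rw [HahnSeries.mem_support] at h1 h2
  have h4 : -et ≤ i.1 := by
    by_contra h
    exact h1 (hxt i.1 (by omega))
  exact NO.int_mul hB (hx i.1) (hxw i.1) (hy i.2 (by omega))

lemma ordGe_mO {R S : Type} [CommRing R] [CommRing S] (g : R →+* S) {e : ℤ} {x : OO q R}
    (h : OrdGe e x) : OrdGe e (mO q g x) := by
  intro m hm
  change mC q g (x.coeff m) = 0
  rw [h m hm, map_zero]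

end

end Pool.Agent.Helper95_CM
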