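import Pool.Agent.Helper95_CM.RepB

/-!
# REP: representation of the coefficients of `P` (CM project)
-/

set_option autoImplicit false
set_option linter.unusedSectionVars false

noncomputable section

namespace Pool.Agent.Helper95_CM

open MvPolynomial

lemma sum_idx {A T K L S : Type} [Fintype A] [AddCommMonoid S] (t : Finset T) (k : Finset K)
    (l : Finset L) (F : A → T → K → L → S) :
    ∑ x : (A × ↥t) × (↥k × ↥l), F x.1.1 x.1.2 x.2.1 x.2.2 =
      ∑ a : A, ∑ b ∈ t, ∑ c ∈ k, ∑ d ∈ l, F a b c d := by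
  rw [Fintype.sum_prod_type, Fintype.sum_prod_type]
  apply Finset.sum_congr rfl
  intro a _
  rw [← Finset.sum_coe_sort t]
  apply Finset.sum_congr rfl
  intro b _
  rw [Fintype.sum_prod_type, ← Finset.sum_coe_sort k]
  apply Finset.sum_congr rfl
  intro c _
  rw [← Finset.sum_coe_sort l]

theorem rep (hcgu : CguStmt) (hspg : SpgStmt) (hspo : SpoStmt) (hfrb : FrbStmt) (hcgp : CgpStmt)
    (hb3 : Hb3Stmt) (hpco : PcoStmt) (hjc : JConeStmt) : RepStmt := by
  intro n M D A K _ _ f U Ui Rv hG hU N X hN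
  classical
  obtain ⟨hn, hM, hD, hdeg⟩ := hG
  have hG : GData n M D K f := ⟨hn, hM, hD, hdeg⟩
  obtain ⟨-, -, -, hcrd, -⟩ := hcgu n M D true A K f hG
  obtain ⟨⟨S, hS⟩, -⟩ := hspg (qG n M) K
  have hYK : ∀ i s', InG (Yc A D f Ui i s') := by
    intro i s'
    rw [← hS]
    unfold Yc
    apply sum_mem
    intro a _
    apply mul_mem
    · exact (hS _).mpr (hU.gUi i a)
    · refine (hS _).mpr (hcrd (mon s') (fun u => ?_) a)
      rw [← hS]
      unfold mon
      rw [coeff_monomial]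
      split_ifs
      · exact one_mem S
      · exact zero_mem S
  -- the finite set of exponents
  obtain ⟨T, hT⟩ : ∃ T : Finset (Expo n), ∀ s, InCone M true s → s 0 ≤ 2 * N + 1 → s ∈ T := by
    refine ⟨Finset.Icc 0 (Finsupp.equivFunOnFinite.symm
      (fun _ => M * (2 * N + 1) + (2 * N + 1))), fun s hs hs0 => ?_⟩
    rw [Finset.mem_Icc]
    refine ⟨fun i => Nat.zero_le _, fun i => ?_⟩
    rw [Finsupp.equivFunOnFinite_symm_apply_apply]
    refine Fin.cases ?_ (fun k => ?_) i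
    · exact hs0.trans (Nat.le_add_left _ _)
    · have h1 := (hs k).2
      have h2 := Nat.mul_le_mul_left M hs0
      omega
  -- pole orders in `t`
  obtain ⟨uL, huL⟩ := bd_all (Finset.univ : Finset (A.Bas × A.Bas))
    (fun ij e => OrdGe (-(e : ℤ)) (U ij.1 ij.2))
    (fun i a b hab h => h.mono (by omega)) (fun ij _ => exists_ordGe _)
  obtain ⟨y0, hy0⟩ := bd_all ((Finset.univ : Finset A.Bas) ×ˢ T)
    (fun ij e => OrdGe (-(e : ℤ)) (Yc A D f Ui ij.1 ij.2))
    (fun i a b hab h => h.mono (by omega)) (fun ij _ => exists_ordGe _)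
  obtain ⟨a1, ha1⟩ := hU.lp
  -- pole orders in `w`
  obtain ⟨u1, hu1⟩ := bd_all ((Finset.univ : Finset (A.Bas × A.Bas)) ×ˢ
      (Finset.Icc (-(uL : ℤ)) a1))
    (fun ijm e => OrdGe (-(e : ℤ)) ((U ijm.1.1 ijm.1.2).coeff ijm.2))
    (fun i a b hab h => h.mono (by omega)) (fun ij _ => exists_ordGe _)
  obtain ⟨y1, hy1⟩ := bd_all (((Finset.univ : Finset A.Bas) ×ˢ T) ×ˢ
      (Finset.Icc (-(y0 : ℤ)) ((X + uL : ℕ) : ℤ)))
    (fun ijm e => OrdGe (-(e : ℤ)) ((Yc A D f Ui ijm.1.1 ijm.1.2).coeff ijm.2))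
    (fun i a b hab h => h.mono (by omega)) (fun ij _ => exists_ordGe _)
  -- representability of the terms
  set d1 : ℕ := (2 * N + n + 2) * max 1 D with hd1
  have hterm : ∀ (ij : A.Bas × A.Bas) (t : (A.Bas × ↥T) × (↥(Finset.Icc (-(uL : ℤ)) a1) ×
      ↥(Finset.Icc (-(y0 : ℤ)) ((X + uL : ℕ) : ℤ)))), RepP (qG n M) K N (fun p _ ι x =>
      ∃ (P : Polynomial (CC (qG n M) ℤ_[p])) (y : OO (qG n M) ℤ_[p]), P.natDegree ≤ d1 * p ∧
        (∃ (y' z : OO (qG n M) ℤ_[p]), mO (qG n M) ι ((Yc A D f Ui ij.1 t.1.2).coeff t.2.2) =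
          mO (qG n M) (zq p) y' ∧ mO (qG n M) ι ((U t.1.1 ij.2).coeff t.2.1) =
            mO (qG n M) (zq p) z ∧ y = phO (qG n M) ℤ_[p] p y' * z) ∧ x = evw P * y) :=
    fun ij t => ((RepP.base hspo hfrb _ ((hU.gU t.1.1 ij.2).2 t.2.1)).phiMul hspo _
      ((hYK ij.1 t.1.2).2 t.2.2)).polyMul d1
  obtain ⟨E, hE, κ, d, p0, hκ, hrep⟩ := RepP.ex (fun ij : A.Bas × A.Bas =>
    RepP.sum (fun t => hterm ij t))
  obtain ⟨p3, e4, hp3⟩ := hcgp n M D true A K f hG
  refine ⟨Fintype.card E, fun e => κ ((Fintype.equivFin E).symm e), d + (y1 + u1),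
    max (max p0 p3) (n + 1), fun e => hκ _, ?_⟩
  intro p _ hp ι f' Dl U' Ui' Rv' hL κ' hκ' i j m hm
  have hp0 : p0 ≤ p := ((le_max_left _ _).trans (le_max_left _ _)).trans hp
  have hp3' : p3 ≤ p := ((le_max_right _ _).trans (le_max_left _ _)).trans hp
  have hnp : n + 1 ≤ p := (le_max_right _ _).trans hp
  have hpp := (Fact.out : p.Prime).pos
  obtain ⟨-, -, -, -, hcr, -⟩ := (hp3 p hp3' ι).2 f' hL.lf
  have hYL : ∀ i s', mL (qG n M) ι (Yc A D f Ui i s') =
      mL (qG n M) (zq p) (Yc A D f' Ui' i s') := by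
    intro i s'
    unfold Yc
    rw [map_sum, map_sum]
    apply Finset.sum_congr rfl
    intro a _
    have e1 : mL (qG n M) ι (Ui i a) = mL (qG n M) (zq p) (Ui' i a) :=
      congrFun (congrFun hL.lUi i) a
    have e2 := hcr (mon s') (mon s') (by rw [map_mon, map_mon]) a
    rw [map_mul, map_mul, e1, e2]
  have hUL : ∀ s j, mL (qG n M) ι (U s j) = mL (qG n M) (zq p) (U' s j) :=
    fun s j => congrFun (congrFun hL.lU s) j
  have hco : ∀ (x : LL (qG n M) K) (x' : LL (qG n M) ℤ_[p]),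
      mL (qG n M) ι x = mL (qG n M) (zq p) x' → ∀ m,
        mO (qG n M) ι (x.coeff m) = mO (qG n M) (zq p) (x'.coeff m) :=
    fun x x' h m => congrArg (fun z : LL (qG n M) ℚ_[p] => z.coeff m) h
  have hOrd : ∀ (x : OO (qG n M) K) (x' : OO (qG n M) ℤ_[p]),
      mO (qG n M) ι x = mO (qG n M) (zq p) x' → ∀ e, OrdGe e x → OrdGe e x' := by
    intro x x' h e hx m hm
    have h1 : mC (qG n M) ι (x.coeff m) = mC (qG n M) (zq p) (x'.coeff m) :=
      congrArg (fun z : OO (qG n M) ℚ_[p] => z.coeff m) h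
    rw [hx m hm, map_zero] at h1
    apply HahnSeries.ext
    funext g
    have h2 : (0 : ℚ_[p]) = zq p ((x'.coeff m).coeff g) :=
      congrArg (fun z : CC (qG n M) ℚ_[p] => z.coeff g) h1
    rw [HahnSeries.coeff_zero]
    apply IsFractionRing.injective ℤ_[p] ℚ_[p]
    rw [map_zero]
    exact h2.symm
  have hdegs : ∀ s s', DegLe (d1 * p) (PsC A D p N f' Dl s s') := by
    intro s s'
    exact rep_deg hnp A f' Dl hL.dl (2 * N) s
      (bb_cone hjc A (cgen (M := M) D f') hn (by omega) s).2 s'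
  have hOG0 : ∀ {𝒪 : Type} [CommRing 𝒪] {a : ℕ} {x : LaurentSeries 𝒪}, DegO a x → OrdGe 0 x :=
    fun h m hm => h m (Or.inl hm)
  have hdec := pv_coeff A f' Dl N X U' Ui' T i j
    (pv_eq hb3 hpco hfrb hjc A f' Dl N U' Ui' hn (by omega) hnp hL.dl hL.un T hT i j)
    (fun s s' => hOG0 (hdegs s s').1) y0 uL a1
    (fun s' hs' => ordGe_of_lift ι (hYL i s')
      (hy0 (i, s') (Finset.mem_product.mpr ⟨Finset.mem_univ _, hs'⟩)))
    (fun s => ordGe_of_lift ι (hUL s j) (huL (s, j) (Finset.mem_univ _)))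
    (fun s m hm => by
      have h1 := hco _ _ (hUL s j) m
      rw [ha1 s j m hm, map_zero] at h1
      apply mO_zq_inj
      rw [← h1, map_zero]) m ((le_abs_self m).trans hm)
  refine ⟨?_, ?_⟩
  · rw [hdec]
    apply OrdGe.sum
    intro s _
    apply OrdGe.sum
    intro s' hs'
    apply OrdGe.sum
    intro k hk
    apply OrdGe.sum
    intro l hl
    have o1 : OrdGe 0 ((PsC A D p N f' Dl s s').coeff (m - k - p * l)) :=
      hOG0 ((hdegs s s').2 _)
    have o2 : OrdGe (-(y1 : ℤ)) ((Yc A D f' Ui' i s').coeff l) :=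
      hOrd _ _ (hco _ _ (hYL i s') l) _ (hy1 ((i, s'), l) (Finset.mem_product.mpr
        ⟨Finset.mem_product.mpr ⟨Finset.mem_univ _, hs'⟩, hl⟩))
    have o3 : OrdGe (-(u1 : ℤ)) ((U' s j).coeff k) :=
      hOrd _ _ (hco _ _ (hUL s j) k) _ (hu1 ((s, j), k) (Finset.mem_product.mpr
        ⟨Finset.mem_univ _, hk⟩))
    have o4 := (o1.mul (o2.phT hpp (phC (qG n M) ℤ_[p] p))).mul o3
    refine o4.mono ?_
    have hp1 : (1 : ℤ) ≤ p := by exact_mod_cast hpp
    have hp2 : (u1 : ℤ) ≤ u1 * p := le_mul_of_one_le_right (Int.natCast_nonneg _) hp1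
    have hp3 : (0 : ℤ) ≤ d * p := mul_nonneg (Int.natCast_nonneg _) (Int.natCast_nonneg _)
    push_cast
    linarith
  · obtain ⟨g, hg1, hg2⟩ := hrep p hp0 ι ((Pv A D N p f' Dl U' Ui' i j).coeff m)
      ⟨(i, j), fun t => (PsC A D p N f' Dl t.1.1 t.1.2).coeff (m - t.2.1 - p * t.2.2) *
          phO (qG n M) ℤ_[p] p ((Yc A D f' Ui' i t.1.2).coeff t.2.2) * (U' t.1.1 j).coeff t.2.1,
        fun t => by
          obtain ⟨P, hP1, hP2⟩ := evw_of_degO
            ((hdegs t.1.1 t.1.2).2 (m - t.2.1 - p * t.2.2))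
          refine ⟨P, _, hP1, ⟨_, _, hco _ _ (hYL i t.1.2) t.2.2, hco _ _ (hUL t.1.1 j) t.2.1,
            rfl⟩, ?_⟩
          rw [hP2]
          exact mul_assoc _ _ _, by
        rw [hdec]
        exact (sum_idx T (Finset.Icc (-(uL : ℤ)) a1)
          (Finset.Icc (-(y0 : ℤ)) ((X + uL : ℕ) : ℤ)) (fun (s : A.Bas) s' k l =>
            (PsC A D p N f' Dl s s').coeff (m - k - p * l) *
            phO (qG n M) ℤ_[p] p ((Yc A D f' Ui' i s').coeff l) * (U' s j).coeff k)).symm⟩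
      (fun e => κ' (Fintype.equivFin E e)) (fun e => by
        have := hκ' (Fintype.equivFin E e)
        simp only [Equiv.symm_apply_apply] at this
        exact this)
    refine ⟨fun e => g ((Fintype.equivFin E).symm e), fun e => (hg1 _).trans
      (Nat.mul_le_mul_right _ (Nat.le_add_right _ _)), ?_⟩
    have h5 : ∑ e, evw (g e) * phO (qG n M) ℤ_[p] p (κ' (Fintype.equivFin E e)) =
        ∑ e, (g ((Fintype.equivFin E).symm e)).eval₂ HahnSeries.C (wO (qG n M) ℤ_[p]) *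
          phO (qG n M) ℤ_[p] p (κ' e) := by
      rw [← Equiv.sum_comp (Fintype.equivFin E)]
      apply Finset.sum_congr rfl
      intro e _
      rw [Equiv.symm_apply_apply]
      rfl
    rw [← h5]
    exact hg2

end Pool.Agent.Helper95_CM
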