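import Pool.Agent.Helper95_CM.RepKF

/-!
# REP, part 3: families of representable elements (CM project)
-/

set_option autoImplicit false
set_option linter.unusedSectionVars false

noncomputable section

namespace Pool.Agent.Helper95_CM

/-- families of elements representable modulo `p^N` -/
def RepP (q : ℕ) (K : Type) [Field K] (N : ℕ)
    (Φ : (p : ℕ) → [Fact p.Prime] → (K →+* ℚ_[p]) → OO q ℤ_[p] → Prop) : Prop :=
  ∃ (E : Type) (_ : Fintype E) (κ : E → OO q K) (d p0 : ℕ), (∀ e, κ e ∈ kF q K) ∧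
    ∀ (p : ℕ) [Fact p.Prime], p0 ≤ p → ∀ (ι : K →+* ℚ_[p]) (x : OO q ℤ_[p]), Φ p ι x →
      ∀ κ' : E → OO q ℤ_[p], (∀ e, mO q ι (κ e) = mO q (zq p) (κ' e)) →
      ∃ g : E → Polynomial (CC q ℤ_[p]), (∀ e, (g e).natDegree ≤ d * p) ∧
        (p : OO q ℤ_[p]) ^ N ∣ x - ∑ e, evw (g e) * phO q ℤ_[p] p (κ' e)

section
variable {q : ℕ} {K : Type} [Field K] {N : ℕ}

lemma RepP.mono {Φ Ψ : (p : ℕ) → [Fact p.Prime] → (K →+* ℚ_[p]) → OO q ℤ_[p] → Prop}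
    (h : RepP q K N Φ) (hi : ∀ (p : ℕ) [Fact p.Prime] (ι : K →+* ℚ_[p]) (x : OO q ℤ_[p]),
      Ψ p ι x → Φ p ι x) : RepP q K N Ψ := by
  obtain ⟨E, hE, κ, d, p0, h1, h2⟩ := h
  exact ⟨E, hE, κ, d, p0, h1, fun p _ hp ι x hx => h2 p hp ι x (hi p ι x hx)⟩

lemma RepP.sum {T : Type} [Fintype T]
    {Φ : T → (p : ℕ) → [Fact p.Prime] → (K →+* ℚ_[p]) → OO q ℤ_[p] → Prop}
    (h : ∀ t, RepP q K N (Φ t)) :
    RepP q K N (fun p _ ι x => ∃ z : T → OO q ℤ_[p], (∀ t, Φ t p ι (z t)) ∧ x = ∑ t, z t) := by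
  classical
  choose E hE κ d p0 hκ hrep using h
  obtain ⟨D, hD⟩ := bd_all (Finset.univ : Finset T) (fun t D => d t ≤ D)
    (fun i a b hab h => h.trans hab) (fun t _ => ⟨d t, le_rfl⟩)
  obtain ⟨P0, hP0⟩ := bd_all (Finset.univ : Finset T) (fun t D => p0 t ≤ D)
    (fun i a b hab h => h.trans hab) (fun t _ => ⟨p0 t, le_rfl⟩)
  refine ⟨Σ t, E t, inferInstance, fun te => κ te.1 te.2, D, P0, fun te => hκ te.1 te.2, ?_⟩
  rintro p _ hp ι x ⟨z, hz, hx⟩ κ' hκ'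
  have h3 := fun t => hrep t p (le_trans (hP0 t (Finset.mem_univ t)) hp) ι (z t) (hz t)
    (fun e => κ' ⟨t, e⟩) (fun e => hκ' ⟨t, e⟩)
  choose g hg1 hg2 using h3
  refine ⟨fun te => g te.1 te.2, fun te => (hg1 te.1 te.2).trans
    (Nat.mul_le_mul_right _ (hD te.1 (Finset.mem_univ _))), ?_⟩
  rw [hx, Fintype.sum_sigma, ← Finset.sum_sub_distrib]
  exact Finset.dvd_sum (fun t _ => hg2 t)

lemma RepP.orZero {Φ : (p : ℕ) → [Fact p.Prime] → (K →+* ℚ_[p]) → OO q ℤ_[p] → Prop}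
    (h : RepP q K N Φ) : RepP q K N (fun p _ ι x => Φ p ι x ∨ x = 0) := by
  obtain ⟨E, hE, κ, d, p0, h1, h2⟩ := h
  refine ⟨E, hE, κ, d, p0, h1, fun p _ hp ι x hx κ' hκ' => ?_⟩
  rcases hx with hx | hx
  · exact h2 p hp ι x hx κ' hκ'
  · refine ⟨fun _ => 0, fun _ => by rw [Polynomial.natDegree_zero]; exact Nat.zero_le _, ?_⟩
    have : ∀ e : E, evw (0 : Polynomial (CC q ℤ_[p])) * phO q ℤ_[p] p (κ' e) = 0 := by
      intro e
      unfold evw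
      rw [Polynomial.eval₂_zero, zero_mul]
    rw [hx, Finset.sum_congr rfl fun e _ => this e, Finset.sum_const_zero, sub_zero]
    exact dvd_zero _

lemma RepP.ex {T : Type} [Fintype T]
    {Φ : T → (p : ℕ) → [Fact p.Prime] → (K →+* ℚ_[p]) → OO q ℤ_[p] → Prop}
    (h : ∀ t, RepP q K N (Φ t)) :
    RepP q K N (fun p _ ι x => ∃ t, Φ t p ι x) := by
  classical
  refine (RepP.sum fun t => (h t).orZero).mono ?_
  rintro p _ ι x ⟨t, ht⟩
  refine ⟨Pi.single t x, fun t' => ?_, ?_⟩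
  · by_cases h : t' = t
    · subst h
      rw [Pi.single_eq_same]
      exact Or.inl ht
    · rw [Pi.single_eq_of_ne h]
      exact Or.inr rfl
  · rw [Finset.sum_pi_single']
    simp

lemma RepP.polyMul {Φ : (p : ℕ) → [Fact p.Prime] → (K →+* ℚ_[p]) → OO q ℤ_[p] → Prop}
    (h : RepP q K N Φ) (d' : ℕ) : RepP q K N (fun p _ ι x =>
      ∃ (P : Polynomial (CC q ℤ_[p])) (y : OO q ℤ_[p]), P.natDegree ≤ d' * p ∧ Φ p ι y ∧
        x = evw P * y) := by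
  obtain ⟨E, hE, κ, d, p0, h1, h2⟩ := h
  refine ⟨E, hE, κ, d' + d, p0, h1, ?_⟩
  rintro p _ hp ι x ⟨P, y, hP, hy, hx⟩ κ' hκ'
  obtain ⟨g, hg1, hg2⟩ := h2 p hp ι y hy κ' hκ'
  refine ⟨fun e => P * g e, fun e => ?_, ?_⟩
  · refine Polynomial.natDegree_mul_le.trans ?_
    rw [Nat.add_mul]
    exact add_le_add hP (hg1 e)
  · have : x - ∑ e, evw (P * g e) * phO q ℤ_[p] p (κ' e) =
        evw P * (y - ∑ e, evw (g e) * phO q ℤ_[p] p (κ' e)) := by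
      rw [hx, mul_sub, Finset.mul_sum]
      congr 1
      apply Finset.sum_congr rfl
      intro e _
      rw [evw_mul, mul_assoc]
    rw [this]
    exact Dvd.dvd.mul_left hg2 _

end

section
variable {q : ℕ} {K : Type} [Field K] [NumberField K] {N : ℕ}

lemma lift_all (hspo : SpoStmt) {E : Type} [Fintype E] (κ : E → OO q K)
    (h : ∀ e, κ e ∈ kF q K) : ∃ p0 : ℕ, ∀ (p : ℕ) [Fact p.Prime], p0 ≤ p →
      ∀ ι : K →+* ℚ_[p], ∃ k : E → OO q ℤ_[p], ∀ e, mO q ι (κ e) = mO q (zq p) (k e) := by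
  classical
  obtain ⟨p0, hp0⟩ := ev_all (Finset.univ : Finset E)
    (fun e p => ∀ [Fact p.Prime], ∀ ι : K →+* ℚ_[p], ∃ y : OO q ℤ_[p],
      mO q ι (κ e) = mO q (zq p) y)
    (fun e _ => by
      obtain ⟨p0, hp0⟩ := (hspo q K (κ e) (h e)).1
      exact ⟨p0, fun p hp _ ι => hp0 p hp ι⟩)
  refine ⟨p0, fun p _ hp ι => ?_⟩
  have := fun e => hp0 p hp e (Finset.mem_univ e) ι
  choose k hk using this
  exact ⟨k, hk⟩

lemma RepP.phiMul (hspo : SpoStmt)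
    {Φ : (p : ℕ) → [Fact p.Prime] → (K →+* ℚ_[p]) → OO q ℤ_[p] → Prop}
    (h : RepP q K N Φ) (y : OO q K) (hy : y ∈ kF q K) : RepP q K N (fun p _ ι x =>
      ∃ (y' z : OO q ℤ_[p]), mO q ι y = mO q (zq p) y' ∧ Φ p ι z ∧
        x = phO q ℤ_[p] p y' * z) := by
  obtain ⟨E, hE, κ, d, p0, h1, h2⟩ := h
  obtain ⟨p1, hp1⟩ := lift_all hspo κ h1
  refine ⟨E, hE, fun e => κ e * y, d, max p0 p1, fun e => mul_mem (h1 e) hy, ?_⟩
  rintro p _ hp ι x ⟨y', z, hy', hz, hx⟩ κ' hκ'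
  obtain ⟨k, hk⟩ := hp1 p ((le_max_right _ _).trans hp) ι
  obtain ⟨g, hg1, hg2⟩ := h2 p ((le_max_left _ _).trans hp) ι z hz k hk
  refine ⟨g, hg1, ?_⟩
  have h3 : ∀ e, κ' e = k e * y' := by
    intro e
    have e1 : mO q ι (κ e * y) = mO q (zq p) (κ' e) := hκ' e
    have e2 : mO q ι (κ e * y) = mO q ι (κ e) * mO q ι y := map_mul (mO q ι) _ _
    have e3 : mO q (zq p) (k e * y') = mO q (zq p) (k e) * mO q (zq p) y' :=
      map_mul (mO q (zq p)) _ _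
    have e4 : mO q ι (κ e) * mO q ι y = mO q (zq p) (k e) * mO q (zq p) y' := by
      rw [hk e, hy']
    exact mO_zq_inj (e1.symm.trans (e2.trans (e4.trans e3.symm)))
  have h4 : ∑ e, evw (g e) * phO q ℤ_[p] p (κ' e) =
      phO q ℤ_[p] p y' * ∑ e, evw (g e) * phO q ℤ_[p] p (k e) := by
    rw [Finset.mul_sum]
    apply Finset.sum_congr rfl
    intro e _
    rw [h3 e, map_mul]
    ring
  have : x - ∑ e, evw (g e) * phO q ℤ_[p] p (κ' e) =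
      phO q ℤ_[p] p y' * (z - ∑ e, evw (g e) * phO q ℤ_[p] p (k e)) := by
    rw [hx, mul_sub, h4]
  rw [this]
  exact Dvd.dvd.mul_left hg2 _

lemma RepP.base (hspo : SpoStmt) (hfrb : FrbStmt) (u : OO q K) (hu : u ∈ kF q K) :
    RepP q K N (fun p _ ι x => mO q ι u = mO q (zq p) x) := by
  obtain ⟨b, d, p0, hb, h⟩ := rep_kF hspo hfrb q K u hu N
  obtain ⟨p1, hp1⟩ := (hspo q K b hb).1
  refine ⟨Fin N, inferInstance, fun e => b ^ ((e : ℕ) + 1), d, max p0 p1,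
    fun e => pow_mem hb _, ?_⟩
  intro p _ hp ι x hx κ' hκ'
  obtain ⟨b', hb'⟩ := hp1 p ((le_max_right _ _).trans hp) ι
  obtain ⟨g, hg1, hg2⟩ := h p ((le_max_left _ _).trans hp) ι x b' hx hb'
  refine ⟨fun e => g e, fun e => hg1 e e.2, ?_⟩
  have h3 : ∀ e, κ' e = b' ^ ((e : ℕ) + 1) := by
    intro e
    apply mO_zq_inj
    rw [← hκ' e, map_pow, map_pow, hb']
  rw [Finset.sum_range] at hg2
  have : ∑ e : Fin N, evw (g e) * phO q ℤ_[p] p (κ' e) =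
      ∑ e : Fin N, evw (g e) * phO q ℤ_[p] p (b' ^ ((e : ℕ) + 1)) :=
    Finset.sum_congr rfl fun e _ => by rw [h3 e]
  rw [this]
  exact hg2

end

end Pool.Agent.Helper95_CM
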