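import Pool.Agent.Helper95_CM.RepA

/-!
# REP, part 4: the coefficients of `P` in the lattice basis (CM project)
-/

set_option autoImplicit false
set_option linter.unusedSectionVars false

noncomputable section

namespace Pool.Agent.Helper95_CM

open MvPolynomial

section
variable {𝒪 : Type} [CommRing 𝒪]

/-- truncation of a Laurent series -/
lemma laurent_trunc (x : LaurentSeries 𝒪) (a B : ℤ) (h : OrdGe a x) :
    ∃ r : LaurentSeries 𝒪, OrdGe (B + 1) r ∧ (∀ m, B < m → r.coeff m = x.coeff m) ∧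
      x = (∑ m ∈ Finset.Icc a B, HahnSeries.single m (x.coeff m)) + r := by
  classical
  have hc : ∀ m, (∑ k ∈ Finset.Icc a B, (HahnSeries.single k (x.coeff k) :
      LaurentSeries 𝒪)).coeff m = if m ∈ Finset.Icc a B then x.coeff m else 0 := by
    intro m
    rw [HahnSeries.coeff_sum]
    have h1 : ∀ k ∈ Finset.Icc a B, (HahnSeries.single k (x.coeff k) :
        LaurentSeries 𝒪).coeff m = if k = m then x.coeff m else 0 := by
      intro k _
      by_cases h : k = m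
      · subst h
        rw [HahnSeries.coeff_single_same, if_pos rfl]
      · rw [HahnSeries.coeff_single_of_ne (Ne.symm h), if_neg h]
    rw [Finset.sum_congr rfl h1, Finset.sum_ite_eq']
  refine ⟨x - ∑ m ∈ Finset.Icc a B, HahnSeries.single m (x.coeff m), ?_, ?_, by ring⟩
  · intro m hm
    rw [HahnSeries.coeff_sub, hc]
    by_cases h2 : a ≤ m
    · rw [if_pos (Finset.mem_Icc.mpr ⟨h2, by omega⟩), sub_self]
    · rw [if_neg (by rw [Finset.mem_Icc]; omega), h m (by omega), sub_zero]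
  · intro m hm
    rw [HahnSeries.coeff_sub, hc, if_neg (by rw [Finset.mem_Icc]; omega), sub_zero]

lemma coeff_mul_single' (z : LaurentSeries 𝒪) (k m : ℤ) (r : 𝒪) :
    (z * HahnSeries.single k r).coeff m = z.coeff (m - k) * r := by
  have := HahnSeries.coeff_mul_single_add (r := r) (x := z) (a := m - k) (b := k)
  rwa [sub_add_cancel] at this

/-- product with a Laurent polynomial -/
lemma coeff_mul_lpol (z U : LaurentSeries 𝒪) (a b : ℤ) (h : OrdGe a U)
    (h2 : ∀ m, b < m → U.coeff m = 0) (m : ℤ) :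
    (z * U).coeff m = ∑ k ∈ Finset.Icc a b, z.coeff (m - k) * U.coeff k := by
  obtain ⟨r, hr1, hr2, hr3⟩ := laurent_trunc U a b h
  have hr : r = 0 := by
    apply HahnSeries.ext
    funext k
    rw [HahnSeries.coeff_zero]
    by_cases hk : b < k
    · rw [hr2 k hk, h2 k hk]
    · exact hr1 k (by omega)
  rw [hr, add_zero] at hr3
  conv_lhs => rw [hr3]
  rw [Finset.mul_sum, HahnSeries.coeff_sum]
  exact Finset.sum_congr rfl fun k _ => coeff_mul_single' z k m _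

lemma phT_single {p : ℕ} (hp : 0 < p) (f : 𝒪 →+* 𝒪) (k : ℤ) (r : 𝒪) :
    phT p f (HahnSeries.single k r : LaurentSeries 𝒪) = HahnSeries.single ((p : ℤ) * k) (f r) := by
  apply HahnSeries.ext
  funext m
  by_cases h : (p : ℤ) ∣ m
  · obtain ⟨j, rfl⟩ := h
    rw [phT_coeff hp]
    by_cases h : j = k
    · subst h; rw [HahnSeries.coeff_single_same, HahnSeries.coeff_single_same]
    · have h2 : (p : ℤ) * j ≠ p * k := by
        intro h3
        apply h
        have hp' : (p : ℤ) ≠ 0 := by exact_mod_cast hp.ne'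
        exact mul_left_cancel₀ hp' h3
      rw [HahnSeries.coeff_single_of_ne h, HahnSeries.coeff_single_of_ne h2, map_zero]
  · rw [phT_coeff_ne hp _ _ _ h, HahnSeries.coeff_single_of_ne]
    rintro rfl
    exact h (dvd_mul_right _ _)

/-- product with a Frobenius pull back -/
lemma coeff_mul_phT {p : ℕ} (hp : 0 < p) (f : 𝒪 →+* 𝒪) (c Y : LaurentSeries 𝒪) (a B m : ℤ)
    (hc : OrdGe 0 c) (hY : OrdGe a Y) (hm : m < p * (B + 1)) :
    (c * phT p f Y).coeff m =
      ∑ k ∈ Finset.Icc a B, c.coeff (m - p * k) * f (Y.coeff k) := by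
  obtain ⟨r, hr1, -, hr3⟩ := laurent_trunc Y a B hY
  have hr : (c * phT p f r).coeff m = 0 := by
    have h1 := hc.mul (hr1.phT hp f)
    exact h1 m (by rw [zero_add]; exact hm)
  conv_lhs => rw [hr3]
  rw [map_add, mul_add, HahnSeries.coeff_add, hr, add_zero, map_sum, Finset.mul_sum,
    HahnSeries.coeff_sum]
  apply Finset.sum_congr rfl
  intro k _
  rw [phT_single hp, coeff_mul_single']

end

/-- coefficients of the Frobenius of basis elements -/
abbrev PsC {n M : ℕ} (A : CAD n M true) (D p N : ℕ) [Fact p.Prime]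
    (f' : MvPolynomial (Fin n) ℤ_[p]) (Dl : PP n (LL (qG n M) ℤ_[p])) (s : A.Bas) (s' : Expo n) :
    LL (qG n M) ℤ_[p] :=
  coeff s' (Psi p (kL (qG n M) ℤ_[p]) (2 * N) (Fp (cgen (M := M) D f')) Dl (bb A (cgen D f') s))

/-- `Y_{i,s'} = Σ_a (U⁻¹)_{i a} crd(m_{s'})_a` -/
def Yc {n M : ℕ} (A : CAD n M true) (D : ℕ) {R : Type} [CommRing R] (f : MvPolynomial (Fin n) R)
    (Ui : Matrix A.Bas A.Bas (LL (qG n M) R)) (i : A.Bas) (s' : Expo n) : LL (qG n M) R :=
  ∑ a, Ui i a * crd A (cgen D f) (mon s') a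

/-- the entries of `Pv` as a sum -/
lemma pv_eq (hb3 : Hb3Stmt) (hpco : PcoStmt) (hfrb : FrbStmt) (hjc : JConeStmt) {n M D p : ℕ}
    [Fact p.Prime] (A : CAD n M true) (f' : MvPolynomial (Fin n) ℤ_[p])
    (Dl : PP n (LL (qG n M) ℤ_[p])) (N : ℕ) (U' Ui' : Matrix A.Bas A.Bas (LL (qG n M) ℤ_[p]))
    (h1 : 1 ≤ n) (h2 : 1 ≤ M) (hnp : n + 1 ≤ p)
    (hdl : IsDl p (phL (qG n M) ℤ_[p] p) (cgen D f') Dl)
    (hun : IsUnit (dt A (cgen (M := M) D f'))) (T : Finset (Expo n))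
    (hT : ∀ s, InCone M true s → s 0 ≤ 2 * N + 1 → s ∈ T) (i j : A.Bas) :
    Pv A D N p f' Dl U' Ui' i j = ∑ s : A.Bas, ∑ s' ∈ T,
      PsC A D p N f' Dl s s' * phL (qG n M) ℤ_[p] p (Yc A D f' Ui' i s') * U' s j := by
  have hp := (Fact.out : p.Prime).pos
  have hF := (hfrb (qG n M) p).1
  obtain ⟨-, hpsi⟩ := hpco n M p true (LL (qG n M) ℤ_[p]) (kL (qG n M) ℤ_[p])
    (phL (qG n M) ℤ_[p] p) (thLt (qG n M) ℤ_[p]) (cgen (M := M) D f') Dl (2 * N) (n + 1) ⊤ hF hdl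
    (subB_top p _ _ _ _)
  have hPm : ∀ a s : A.Bas, Pm A p (kL (qG n M) ℤ_[p]) N (phL (qG n M) ℤ_[p] p) (cgen D f') Dl a s =
      ∑ s' ∈ T, PsC A D p N f' Dl s s' *
        phL (qG n M) ℤ_[p] p (crd A (cgen D f') (mon s') a) := by
    intro a s
    obtain ⟨hco, hlv⟩ := bb_cone hjc A (cgen (M := M) D f') h1 h2 s
    obtain ⟨hc1, hc2, -⟩ := hpsi _ hco hlv (fun _ => Subring.mem_top _)
    have hmm : mm p (n + 1) ≤ 1 := mm_le_one hnp hp
    set x := Psi p (kL (qG n M) ℤ_[p]) (2 * N) (Fp (cgen (M := M) D f')) Dl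
      (bb A (cgen D f') s) with hx
    have hsup : x.support ⊆ T := by
      intro u hu
      rw [mem_support_iff] at hu
      exact hT u (hc1 u hu) ((hc2 u hu).trans (by omega))
    have e1 : x = ∑ u ∈ T, C (coeff u x) * mon u := by
      conv_lhs => rw [eq_sum_mon x]
      apply Finset.sum_subset hsup
      intro u _ hu
      rw [notMem_support_iff.mp hu, C_0, zero_mul]
    change crd A (fun β => phL (qG n M) ℤ_[p] p (cgen D f' β)) x a = _
    conv_lhs => rw [e1]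
    rw [map_sum, Finset.sum_apply]
    apply Finset.sum_congr rfl
    intro u _
    rw [← smul_eq_C_mul, map_smul, Pi.smul_apply, smul_eq_mul]
    have h3 := hb3 n M true A (LL (qG n M) ℤ_[p]) (LL (qG n M) ℤ_[p]) (phL (qG n M) ℤ_[p] p)
      (cgen (M := M) D f') h1 h2 hun (mon u) a
    rw [map_mon] at h3
    rw [h3]
  unfold Pv
  rw [Matrix.mul_apply]
  apply Finset.sum_congr rfl
  intro s _
  rw [Matrix.mul_apply, Finset.sum_mul]
  have e2 : ∀ a ∈ (Finset.univ : Finset A.Bas), Ui'.map (phL (qG n M) ℤ_[p] p) i a *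
      Pm A p (kL (qG n M) ℤ_[p]) N (phL (qG n M) ℤ_[p] p) (cgen D f') Dl a s * U' s j =
      ∑ s' ∈ T, PsC A D p N f' Dl s s' * phL (qG n M) ℤ_[p] p (Ui' i a *
        crd A (cgen D f') (mon s') a) * U' s j := by
    intro a _
    rw [hPm, Matrix.map_apply, Finset.mul_sum, Finset.sum_mul]
    apply Finset.sum_congr rfl
    intro s' _
    rw [map_mul]
    ring
  rw [Finset.sum_congr rfl e2, Finset.sum_comm]
  apply Finset.sum_congr rfl
  intro s' _
  unfold Yc
  rw [map_sum, Finset.mul_sum, Finset.sum_mul]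

/-- the coefficients of the entries of `Pv` -/
lemma pv_coeff {n M D p : ℕ} [Fact p.Prime] (A : CAD n M true) (f' : MvPolynomial (Fin n) ℤ_[p])
    (Dl : PP n (LL (qG n M) ℤ_[p])) (N X : ℕ) (U' Ui' : Matrix A.Bas A.Bas (LL (qG n M) ℤ_[p]))
    (T : Finset (Expo n)) (i j : A.Bas)
    (hPv : Pv A D N p f' Dl U' Ui' i j = ∑ s : A.Bas, ∑ s' ∈ T,
      PsC A D p N f' Dl s s' * phL (qG n M) ℤ_[p] p (Yc A D f' Ui' i s') * U' s j)
    (hdeg : ∀ s s', OrdGe 0 (PsC A D p N f' Dl s s')) (y0 uL : ℕ) (a1 : ℤ)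
    (hy : ∀ s' ∈ T, OrdGe (-(y0 : ℤ)) (Yc A D f' Ui' i s'))
    (hu : ∀ s, OrdGe (-(uL : ℤ)) (U' s j)) (hu2 : ∀ s m, a1 < m → (U' s j).coeff m = 0)
    (m : ℤ) (hm : m ≤ X * p) :
    (Pv A D N p f' Dl U' Ui' i j).coeff m = ∑ s : A.Bas, ∑ s' ∈ T,
      ∑ k ∈ Finset.Icc (-(uL : ℤ)) a1, ∑ l ∈ Finset.Icc (-(y0 : ℤ)) ((X + uL : ℕ) : ℤ),
        (PsC A D p N f' Dl s s').coeff (m - k - p * l) *
          phO (qG n M) ℤ_[p] p ((Yc A D f' Ui' i s').coeff l) * (U' s j).coeff k := by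
  have hp := (Fact.out : p.Prime).pos
  rw [hPv, HahnSeries.coeff_sum]
  apply Finset.sum_congr rfl
  intro s _
  rw [HahnSeries.coeff_sum]
  apply Finset.sum_congr rfl
  intro s' hs'
  rw [coeff_mul_lpol _ (U' s j) (-(uL : ℤ)) a1 (hu s) (hu2 s) m]
  apply Finset.sum_congr rfl
  intro k hk
  rw [Finset.mem_Icc] at hk
  have hp1 : (1 : ℤ) ≤ p := by exact_mod_cast hp
  have hlt : m - k < p * (((X + uL : ℕ) : ℤ) + 1) := by
    push_cast
    nlinarith [Int.natCast_nonneg uL]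
  unfold phL
  rw [coeff_mul_phT hp (phO (qG n M) ℤ_[p] p) _ _ (-(y0 : ℤ)) ((X + uL : ℕ) : ℤ) (m - k)
    (hdeg s s') (hy s' hs') hlt, Finset.sum_mul]

end Pool.Agent.Helper95_CM
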