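import Pool.Agent.Helper95_CM.NN
import Pool.Agent.Helper95_CM.Lsm

/-!
# REP, part 1: degrees in `t` and `w` of the coefficients of `Psi b_s` (CM project)
-/

set_option autoImplicit false
set_option linter.unusedSectionVars false

noncomputable section

namespace Pool.Agent.Helper95_CM

open MvPolynomial

section
variable {R : Type} [CommRing R]

/-- all exponents of the Laurent series lie in `[0, D]` -/
def DegO (D : ℕ) (x : LaurentSeries R) : Prop := ∀ m : ℤ, (m < 0 ∨ (D : ℤ) < m) → x.coeff m = 0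

lemma DegO.zero (D : ℕ) : DegO D (0 : LaurentSeries R) := fun _ _ => HahnSeries.coeff_zero

lemma DegO.mono {a b : ℕ} {x : LaurentSeries R} (hx : DegO a x) (h : a ≤ b) : DegO b x := by
  intro m hm
  apply hx
  rcases hm with hm | hm
  · exact Or.inl hm
  · exact Or.inr (by omega)

lemma DegO.add {a : ℕ} {x y : LaurentSeries R} (hx : DegO a x) (hy : DegO a y) :
    DegO a (x + y) := fun i hi => by rw [HahnSeries.coeff_add, hx i hi, hy i hi, add_zero]

lemma DegO.neg {a : ℕ} {x : LaurentSeries R} (hx : DegO a x) : DegO a (-x) :=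
  fun i hi => by rw [HahnSeries.coeff_neg, hx i hi, neg_zero]

lemma DegO.sum {a : ℕ} {ι : Type} (t : Finset ι) (x : ι → LaurentSeries R)
    (h : ∀ i ∈ t, DegO a (x i)) : DegO a (∑ i ∈ t, x i) := by
  intro i hi
  rw [HahnSeries.coeff_sum]
  exact Finset.sum_eq_zero fun j hj => h j hj i hi

lemma DegO.mul {a b : ℕ} {x y : LaurentSeries R} (hx : DegO a x) (hy : DegO b y) :
    DegO (a + b) (x * y) := by
  intro i hi
  rw [HahnSeries.coeff_mul]
  apply Finset.sum_eq_zero
  intro ij hij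
  rw [Finset.mem_antidiagonal] at hij
  obtain ⟨-, -, h3⟩ := hij
  by_cases h : ij.1 < 0 ∨ (a : ℤ) < ij.1
  · rw [hx _ h, zero_mul]
  · rw [hy _ (by push_cast at hi; omega), mul_zero]

lemma degO_C (a : R) : DegO 0 (HahnSeries.C a : LaurentSeries R) := by
  intro i hi
  rw [HahnSeries.C_apply, HahnSeries.coeff_single_of_ne (by push_cast at hi; omega)]

lemma degO_tt : DegO 1 (tt R) := by
  intro i hi
  unfold tt
  rw [HahnSeries.coeff_single_of_ne (by push_cast at hi; omega)]

end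

section
variable {q : ℕ} {R : Type} [CommRing R]

/-- polynomials in `t` and `w` of degree at most `D` -/
def DegLe (D : ℕ) (x : LL q R) : Prop := DegO D x ∧ ∀ m, DegO D (x.coeff m)

lemma DegLe.zero (D : ℕ) : DegLe D (0 : LL q R) :=
  ⟨DegO.zero D, fun m => by rw [HahnSeries.coeff_zero]; exact DegO.zero D⟩

lemma DegLe.mono {a b : ℕ} {x : LL q R} (hx : DegLe a x) (h : a ≤ b) : DegLe b x :=
  ⟨hx.1.mono h, fun m => (hx.2 m).mono h⟩

lemma DegLe.add {a : ℕ} {x y : LL q R} (hx : DegLe a x) (hy : DegLe a y) : DegLe a (x + y) :=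
  ⟨hx.1.add hy.1, fun m => by rw [HahnSeries.coeff_add]; exact (hx.2 m).add (hy.2 m)⟩

lemma DegLe.neg {a : ℕ} {x : LL q R} (hx : DegLe a x) : DegLe a (-x) :=
  ⟨hx.1.neg, fun m => by rw [HahnSeries.coeff_neg]; exact (hx.2 m).neg⟩

lemma DegLe.sub {a : ℕ} {x y : LL q R} (hx : DegLe a x) (hy : DegLe a y) : DegLe a (x - y) := by
  rw [sub_eq_add_neg]; exact hx.add hy.neg

lemma DegLe.sum {a : ℕ} {ι : Type} (t : Finset ι) (x : ι → LL q R)
    (h : ∀ i ∈ t, DegLe a (x i)) : DegLe a (∑ i ∈ t, x i) :=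
  ⟨DegO.sum t x fun i hi => (h i hi).1, fun m => by
    rw [HahnSeries.coeff_sum]
    exact DegO.sum t _ fun i hi => (h i hi).2 m⟩

lemma DegLe.mul {a b : ℕ} {x y : LL q R} (hx : DegLe a x) (hy : DegLe b y) :
    DegLe (a + b) (x * y) := by
  refine ⟨hx.1.mul hy.1, fun m => ?_⟩
  rw [HahnSeries.coeff_mul]
  apply DegO.sum
  intro ij _
  exact (hx.2 _).mul (hy.2 _)

lemma degLe_C {a : ℕ} {x : OO q R} (hx : DegO a x) : DegLe a (HahnSeries.C x : LL q R) := by
  refine ⟨(degO_C x).mono (Nat.zero_le a), fun m => ?_⟩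
  rw [HahnSeries.C_apply]
  by_cases h : m = 0
  · subst h; rw [HahnSeries.coeff_single_same]; exact hx
  · rw [HahnSeries.coeff_single_of_ne h]; exact DegO.zero a

lemma degLe_kL (a : R) : DegLe 0 (kL q R a) := degLe_C (degO_C _)

lemma degLe_natCast (k : ℕ) : DegLe 0 (k : LL q R) := by
  have : (k : LL q R) = HahnSeries.C (HahnSeries.C (k : CC q R)) := by
    rw [map_natCast, map_natCast]
  rw [this]
  exact degLe_C (degO_C _)

lemma degLe_one : DegLe 0 (1 : LL q R) := by
  have := degLe_natCast (q := q) (R := R) 1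
  rwa [Nat.cast_one] at this

lemma DegLe.pow {a : ℕ} {x : LL q R} (hx : DegLe a x) (k : ℕ) : DegLe (k * a) (x ^ k) := by
  induction k with
  | zero => rw [pow_zero, Nat.zero_mul]; exact degLe_one
  | succ k ih =>
    rw [pow_succ, Nat.succ_mul]
    exact ih.mul hx

lemma degLe_wL : DegLe 1 (wL q R) := degLe_C degO_tt

lemma degLe_vL (i : Fin q) : DegLe 0 (vL q R i) := degLe_C (degO_C _)

lemma degLe_tL : DegLe 1 (tL q R) := by
  refine ⟨degO_tt, fun m => ?_⟩
  unfold tL tt
  by_cases h : m = 1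
  · subst h
    rw [HahnSeries.coeff_single_same]
    have : (1 : OO q R) = HahnSeries.C 1 := by rw [map_one]
    rw [this]
    exact (degO_C _).mono (Nat.zero_le 1)
  · rw [HahnSeries.coeff_single_of_ne h]; exact DegO.zero 1

lemma degLe_cgen {n M : ℕ} (D : ℕ) (f : MvPolynomial (Fin n) R) (β : Grid n M) :
    DegLe (max 1 D) (cgen D f β) := by
  unfold cgen
  have h1 := (degLe_natCast (q := qG n M) (R := R) (bin β)).mono (Nat.zero_le (max 1 D))
  have h2 := ((degLe_wL (q := qG n M) (R := R)).mul (degLe_kL (ftil f β))).mono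
    (show 1 + 0 ≤ max 1 D by simp)
  have h3 := (((degLe_tL (q := qG n M) (R := R)).pow D).mul
    (degLe_vL (gi β))).mono (show D * 1 + 0 ≤ max 1 D by simp)
  exact (h1.sub h2).add h3

lemma DegO.phT {𝒪 : Type} [CommRing 𝒪] {p : ℕ} (hp : 0 < p) (f : 𝒪 →+* 𝒪) {a : ℕ}
    {x : LaurentSeries 𝒪} (hx : DegO a x) : DegO (p * a) (phT p f x) := by
  intro m hm
  by_cases h : (p : ℤ) ∣ m
  · obtain ⟨j, rfl⟩ := h
    rw [phT_coeff hp, hx j, map_zero]
    have hp' : (0 : ℤ) < p := by exact_mod_cast hp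
    rcases hm with hm | hm
    · left
      by_contra hj
      push Not at hj
      have := mul_nonneg hp'.le hj
      omega
    · right
      push_cast at hm
      exact lt_of_mul_lt_mul_left hm hp'.le
  · exact phT_coeff_ne hp _ _ _ h

lemma DegLe.phL {a p : ℕ} (hp : 0 < p) {x : LL q R} (hx : DegLe a x) :
    DegLe (p * a) (phL q R p x) := by
  refine ⟨hx.1.phT hp (phO q R p), fun m => ?_⟩
  unfold Helper95_CM.phL
  by_cases h : (p : ℤ) ∣ m
  · obtain ⟨j, rfl⟩ := h
    rw [phT_coeff hp]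
    exact (hx.2 j).phT hp (phC q R p)
  · rw [phT_coeff_ne hp _ _ _ h]; exact DegO.zero _

end

section
variable {q : ℕ} {p : ℕ} [Fact p.Prime]

lemma DegLe.of_p_mul {a : ℕ} {x : LL q ℤ_[p]} (hx : DegLe a ((p : LL q ℤ_[p]) * x)) :
    DegLe a x := by
  have hp := (Fact.out : p.Prime).pos
  have hc : ∀ m, ((p : LL q ℤ_[p]) * x).coeff m = (p : OO q ℤ_[p]) * x.coeff m := by
    intro m
    have : (p : LL q ℤ_[p]) = HahnSeries.C (p : OO q ℤ_[p]) := by
      rw [map_natCast]
    rw [this, HahnSeries.C_mul_eq_smul, HahnSeries.coeff_smul, smul_eq_mul]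
  have hc' : ∀ (y : OO q ℤ_[p]) m, ((p : OO q ℤ_[p]) * y).coeff m =
      (p : CC q ℤ_[p]) * y.coeff m := by
    intro y m
    have : (p : OO q ℤ_[p]) = HahnSeries.C (p : CC q ℤ_[p]) := by
      rw [map_natCast]
    rw [this, HahnSeries.C_mul_eq_smul, HahnSeries.coeff_smul, smul_eq_mul]
  have hc'' : ∀ (y : CC q ℤ_[p]), (p : CC q ℤ_[p]) * y = 0 → y = 0 := by
    intro y hy
    ext g
    have h1 : ((p : CC q ℤ_[p]) * y).coeff g = (p : ℤ_[p]) * y.coeff g := by
      have : (p : CC q ℤ_[p]) = HahnSeries.C (p : ℤ_[p]) := by rw [map_natCast]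
      rw [this, HahnSeries.C_mul_eq_smul, HahnSeries.coeff_smul, smul_eq_mul]
    rw [hy, HahnSeries.coeff_zero] at h1
    rw [HahnSeries.coeff_zero]
    rcases mul_eq_zero.mp h1.symm with h | h
    · exfalso
      exact hp.ne' (by exact_mod_cast h)
    · exact h
  have hc3 : ∀ (y : OO q ℤ_[p]), (p : OO q ℤ_[p]) * y = 0 → y = 0 := by
    intro y hy
    apply HahnSeries.ext
    funext m
    rw [HahnSeries.coeff_zero]
    apply hc''
    rw [← hc', hy, HahnSeries.coeff_zero]
  refine ⟨?_, ?_⟩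
  · intro i hi
    have h1 := hx.1 i hi
    rw [hc] at h1
    exact hc3 _ h1
  · intro m i hi
    have h1 := hx.2 m i hi
    rw [hc, hc'] at h1
    exact hc'' _ h1

end

/-! ### polynomials all of whose coefficients have bounded degree -/

section
variable {n q : ℕ} {R : Type} [CommRing R]

def CD (D : ℕ) (x : PP n (LL q R)) : Prop := ∀ s, DegLe D (coeff s x)

lemma CD.zero (D : ℕ) : CD D (0 : PP n (LL q R)) := fun s => by
  rw [coeff_zero]; exact DegLe.zero D

lemma CD.mono {a b : ℕ} {x : PP n (LL q R)} (hx : CD a x) (h : a ≤ b) : CD b x :=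
  fun s => (hx s).mono h

lemma CD.add {a : ℕ} {x y : PP n (LL q R)} (hx : CD a x) (hy : CD a y) : CD a (x + y) :=
  fun s => by rw [coeff_add]; exact (hx s).add (hy s)

lemma CD.neg {a : ℕ} {x : PP n (LL q R)} (hx : CD a x) : CD a (-x) :=
  fun s => by rw [coeff_neg]; exact (hx s).neg

lemma CD.sub {a : ℕ} {x y : PP n (LL q R)} (hx : CD a x) (hy : CD a y) : CD a (x - y) := by
  rw [sub_eq_add_neg]; exact hx.add hy.neg

lemma CD.sum {a : ℕ} {ι : Type} (t : Finset ι) (x : ι → PP n (LL q R))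
    (h : ∀ i ∈ t, CD a (x i)) : CD a (∑ i ∈ t, x i) := fun s => by
  rw [coeff_sum]
  exact DegLe.sum t _ fun i hi => h i hi s

lemma CD.mul {a b : ℕ} {x y : PP n (LL q R)} (hx : CD a x) (hy : CD b y) :
    CD (a + b) (x * y) := by
  classical
  intro s
  rw [coeff_mul]
  exact DegLe.sum _ _ fun ij _ => (hx ij.1).mul (hy ij.2)

lemma CD.monomial {D : ℕ} (s : Expo n) {a : LL q R} (h : DegLe D a) :
    CD D (monomial s a : PP n (LL q R)) := by
  classical
  intro t
  rw [coeff_monomial]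
  split_ifs
  · exact h
  · exact DegLe.zero D

lemma cd_C {D : ℕ} {a : LL q R} (h : DegLe D a) : CD D (C a : PP n (LL q R)) :=
  CD.monomial 0 h

lemma cd_one : CD 0 (1 : PP n (LL q R)) := by
  rw [← C_1]
  exact cd_C degLe_one

lemma CD.pow {a : ℕ} {x : PP n (LL q R)} (hx : CD a x) (k : ℕ) : CD (k * a) (x ^ k) := by
  induction k with
  | zero => rw [pow_zero, Nat.zero_mul]; exact cd_one
  | succ k ih =>
    rw [pow_succ, Nat.succ_mul]
    exact ih.mul hx

lemma cd_Fp {M D : ℕ} (c : Grid n M → LL q R) (h : ∀ β, DegLe D (c β)) : CD D (Fp c) :=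
  CD.sum _ _ fun β _ => CD.monomial _ (h β)

lemma CD.th {a : ℕ} {x : PP n (LL q R)} (hx : CD a x) (i : Fin (n + 1)) : CD a (th i x) := by
  intro s
  rw [coeff_th]
  have := (degLe_natCast (q := q) (R := R) (s i)).mul (hx s)
  rwa [Nat.zero_add] at this

lemma cd_prod {ι : Type} (t : Finset ι) (x : ι → PP n (LL q R)) (a : ℕ)
    (h : ∀ i ∈ t, CD a (x i)) : CD (t.card * a) (∏ i ∈ t, x i) := by
  classical
  induction t using Finset.induction_on with
  | empty => rw [Finset.prod_empty, Finset.card_empty, Nat.zero_mul]; exact cd_one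
  | insert b t hb ih =>
    rw [Finset.prod_insert hb, Finset.card_insert_of_notMem hb]
    have := (h b (Finset.mem_insert_self b t)).mul
      (ih fun i hi => h i (Finset.mem_insert_of_mem hi))
    exact this.mono (by rw [Nat.succ_mul]; omega)

lemma cd_Jac {M D : ℕ} (c : Grid n M → LL q R) (h : ∀ β, DegLe D (c β)) :
    CD ((n + 1) * D) (Jac c) := by
  classical
  unfold Jac
  rw [Matrix.det_apply]
  apply CD.sum
  intro σ _
  have h1 : CD ((n + 1) * D) (∏ i, Hes c (σ i) i) := by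
    have := cd_prod (Finset.univ : Finset (Fin (n + 1))) (fun i => Hes c (σ i) i) D
      (fun i _ => ((cd_Fp c h).th i).th (σ i))
    rwa [Finset.card_univ, Fintype.card_fin] at this
  rcases Int.units_eq_one_or (Equiv.Perm.sign σ) with h2 | h2
  · rw [h2, one_smul]; exact h1
  · rw [h2, Units.neg_smul, one_smul]; exact h1.neg

lemma cd_bb {M D : ℕ} (A : CAD n M true) (c : Grid n M → LL q R) (h : ∀ β, DegLe D (c β))
    (s : Expo n) : CD ((n + 1) * D) (bb A c s) := by
  unfold bb bbo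
  split_ifs
  · exact cd_Jac c h
  · exact (CD.monomial s degLe_one).mono (Nat.zero_le _)

lemma CD.psi {a p : ℕ} (hp : 0 < p) {x : PP n (LL q R)} (hx : CD a x) : CD a (psi p x) := by
  intro s
  rw [coeff_psi hp]
  exact hx _

lemma cd_expand {a p : ℕ} {x : PP n (LL q R)} (hx : CD a x) :
    CD a (expand p x) := by
  have h : expand p x = ∑ s ∈ x.support, monomial (p • s) (coeff s x) := by
    conv_lhs => rw [as_sum x]
    rw [map_sum]
    apply Finset.sum_congr rfl
    intro s _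
    rw [expand_monomial]
  rw [h]
  exact CD.sum _ _ fun s _ => CD.monomial _ (hx s)

end

/-- degree of `Δ` -/
lemma cd_Dl {n M D p : ℕ} [Fact p.Prime] (f' : MvPolynomial (Fin n) ℤ_[p])
    (Dl : PP n (LL (qG n M) ℤ_[p])) (hdl : IsDl p (phL (qG n M) ℤ_[p] p) (cgen (M := M) D f') Dl) :
    CD (p * max 1 D) Dl := by
  have hp := (Fact.out : p.Prime).pos
  have h1 : CD (p * max 1 D) (Fp (cgen (M := M) D f') ^ p) :=
    (cd_Fp _ fun β => degLe_cgen D f' β).pow p
  have h2 : CD (p * max 1 D) (expand p (Fp (fun β => phL (qG n M) ℤ_[p] p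
      (cgen (M := M) D f' β)))) :=
    cd_expand (cd_Fp _ fun β => (degLe_cgen D f' β).phL hp)
  have h3 : C (p : LL (qG n M) ℤ_[p]) * Dl = Fp (cgen (M := M) D f') ^ p -
      expand p (Fp (fun β => phL (qG n M) ℤ_[p] p (cgen (M := M) D f' β))) := by
    rw [hdl]; ring
  intro s
  apply DegLe.of_p_mul
  have h4 := (h1.sub h2) s
  rw [← h3, coeff_C_mul] at h4
  exact h4

lemma mm_le_one {p l : ℕ} (hl : l ≤ p) (hp : 0 < p) : mm p l ≤ 1 := by
  unfold mm
  have : (l + p - 1) / p < 2 := by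
    rw [Nat.div_lt_iff_lt_mul hp]
    omega
  omega

/-- REP, degree part -/
theorem rep_deg {n M D p : ℕ} [Fact p.Prime] (hnp : n + 1 ≤ p) (A : CAD n M true)
    (f' : MvPolynomial (Fin n) ℤ_[p]) (Dl : PP n (LL (qG n M) ℤ_[p]))
    (hdl : IsDl p (phL (qG n M) ℤ_[p] p) (cgen (M := M) D f') Dl) (J : ℕ) (s : A.Bas)
    (hlev : LevLe (n + 1) (bb A (cgen (M := M) D f') s)) (s' : Expo n) :
    DegLe ((J + n + 2) * max 1 D * p) (coeff s'
      (Psi p (kL (qG n M) ℤ_[p]) J (Fp (cgen (M := M) D f')) Dl (bb A (cgen (M := M) D f') s))) := by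
  have hp := (Fact.out : p.Prime).pos
  have hF : CD (max 1 D) (Fp (cgen (M := M) D f')) := cd_Fp _ fun β => degLe_cgen D f' β
  have hT : CD (J * (p * max 1 D)) (TJ p (kL (qG n M) ℤ_[p]) J Dl) := by
    unfold TJ
    apply CD.sum
    intro j hj
    rw [Finset.mem_range] at hj
    have h1 := (cd_C (n := n) (degLe_kL (q := qG n M) (ee p j))).mul
      ((cd_Dl f' Dl hdl).pow j)
    refine h1.mono ?_
    rw [Nat.zero_add]
    exact Nat.mul_le_mul_right _ hj.le
  have hV : CD ((n + 1) * max 1 D + p * max 1 D) (VV p (Fp (cgen (M := M) D f'))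
      (bb A (cgen (M := M) D f') s)) := by
    unfold VV
    apply CD.sum
    intro u hu
    have hu' : u 0 ≤ n + 1 := hlev u (mem_support_iff.mp hu)
    have h1 : DegLe ((n + 1) * max 1 D) ((gam p (u 0) : LL (qG n M) ℤ_[p]) *
        coeff u (bb A (cgen (M := M) D f') s)) := by
      have := (degLe_natCast (q := qG n M) (R := ℤ_[p]) (gam p (u 0))).mul
        (cd_bb A (cgen (M := M) D f') (fun β => degLe_cgen D f' β) s u)
      rwa [Nat.zero_add] at this
    have h2 := (CD.monomial u h1).mul (hF.pow (p * mm p (u 0) - u 0))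
    refine h2.mono ?_
    have h3 : p * mm p (u 0) - u 0 ≤ p := by
      have := mm_le_one (hu'.trans hnp) hp
      calc p * mm p (u 0) - u 0 ≤ p * mm p (u 0) := Nat.sub_le _ _
        _ ≤ p * 1 := Nat.mul_le_mul_left _ this
        _ = p := Nat.mul_one p
    exact Nat.add_le_add_left (Nat.mul_le_mul_right _ h3) _
  have h := ((hT.mul hV).psi hp).mono (show J * (p * max 1 D) +
      ((n + 1) * max 1 D + p * max 1 D) ≤ (J + n + 2) * max 1 D * p by
    have h1 : (n + 1) * max 1 D ≤ (n + 1) * max 1 D * p := Nat.le_mul_of_pos_right _ hp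
    calc J * (p * max 1 D) + ((n + 1) * max 1 D + p * max 1 D)
        ≤ J * (p * max 1 D) + ((n + 1) * max 1 D * p + p * max 1 D) := by omega
      _ = (J + n + 2) * max 1 D * p := by ring)
  exact h s'

end Pool.Agent.Helper95_CM
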