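import Pool.Agent.Helper95_CM.Krel
import Pool.Agent.Helper95_CM.RepDeg

/-!
# REP, part 2: elements of `kF` modulo `p^N` (CM project)
-/

set_option autoImplicit false
set_option linter.unusedSectionVars false

noncomputable section

namespace Pool.Agent.Helper95_CM

/-- value of a polynomial at `w` -/
def evw {q : ℕ} {R : Type} [CommRing R] (P : Polynomial (CC q R)) : OO q R :=
  P.eval₂ HahnSeries.C (wO q R)

section
variable {q : ℕ} {R : Type} [CommRing R]

lemma evw_mul (P Q : Polynomial (CC q R)) : evw (P * Q) = evw P * evw Q :=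
  Polynomial.eval₂_mul _ _

lemma evw_add (P Q : Polynomial (CC q R)) : evw (P + Q) = evw P + evw Q :=
  Polynomial.eval₂_add _ _

lemma evw_sub (P Q : Polynomial (CC q R)) : evw (P - Q) = evw P - evw Q :=
  Polynomial.eval₂_sub _

lemma evw_pow (P : Polynomial (CC q R)) (k : ℕ) : evw (P ^ k) = evw P ^ k :=
  Polynomial.eval₂_pow _ _ _

lemma evw_C (a : CC q R) : evw (Polynomial.C a) = HahnSeries.C a :=
  Polynomial.eval₂_C _ _

lemma evw_X : evw (Polynomial.X : Polynomial (CC q R)) = wO q R :=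
  Polynomial.eval₂_X _ _

lemma wO_pow (k : ℕ) : (wO q R) ^ k = HahnSeries.single (k : ℤ) (1 : CC q R) := by
  unfold wO tt
  rw [HahnSeries.single_pow, one_pow, nsmul_eq_mul, mul_one]

lemma evw_coeff (P : Polynomial (CC q R)) (k : ℕ) : (evw P).coeff (k : ℤ) = P.coeff k := by
  classical
  unfold evw
  rw [Polynomial.eval₂_eq_sum_range, HahnSeries.coeff_sum]
  have h : ∀ i ∈ Finset.range (P.natDegree + 1),
      ((HahnSeries.C (P.coeff i) : OO q R) * (wO q R) ^ i).coeff (k : ℤ) =
        if i = k then P.coeff k else 0 := by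
    intro i _
    rw [wO_pow, HahnSeries.C_mul_eq_smul, HahnSeries.coeff_smul, smul_eq_mul]
    by_cases h : i = k
    · subst h
      rw [HahnSeries.coeff_single_same, mul_one, if_pos rfl]
    · rw [HahnSeries.coeff_single_of_ne (by
        intro h'
        exact h (by exact_mod_cast h'.symm)), mul_zero, if_neg h]
  rw [Finset.sum_congr rfl h, Finset.sum_ite_eq']
  split_ifs with h2
  · rfl
  · rw [Finset.mem_range, not_lt] at h2
    exact (Polynomial.coeff_eq_zero_of_natDegree_lt (by omega)).symm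

lemma evw_eq_zero {P : Polynomial (CC q R)} (h : evw P = 0) : P = 0 := by
  ext k
  rw [← evw_coeff, h, HahnSeries.coeff_zero, Polynomial.coeff_zero]

lemma mO_C {S : Type} [CommRing S] (g : R →+* S) (a : CC q R) :
    mO q g (HahnSeries.C a) = HahnSeries.C (mC q g a) := by
  apply HahnSeries.ext
  funext m
  change mC q g ((HahnSeries.C a : OO q R).coeff m) = _
  rw [HahnSeries.C_apply, HahnSeries.C_apply]
  by_cases h : m = 0
  · subst h; rw [HahnSeries.coeff_single_same, HahnSeries.coeff_single_same]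
  · rw [HahnSeries.coeff_single_of_ne h, HahnSeries.coeff_single_of_ne h, map_zero]

lemma mO_wO {S : Type} [CommRing S] (g : R →+* S) : mO q g (wO q R) = wO q S := by
  apply HahnSeries.ext
  funext m
  change mC q g ((wO q R).coeff m) = (wO q S).coeff m
  unfold wO tt
  by_cases h : m = 1
  · subst h; rw [HahnSeries.coeff_single_same, HahnSeries.coeff_single_same, map_one]
  · rw [HahnSeries.coeff_single_of_ne h, HahnSeries.coeff_single_of_ne h, map_zero]

lemma mO_evw {S : Type} [CommRing S] (g : R →+* S) (P : Polynomial (CC q R)) :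
    mO q g (evw P) = evw (P.map (mC q g)) := by
  unfold evw
  rw [Polynomial.hom_eval₂, Polynomial.eval₂_map, mO_wO]
  congr 1
  ext a : 1
  exact mO_C g a

lemma phO_C {p : ℕ} (hp : 0 < p) (a : CC q R) :
    phO q R p (HahnSeries.C a) = HahnSeries.C (phC q R p a) := by
  apply HahnSeries.ext
  funext m
  unfold phO
  by_cases h : (p : ℤ) ∣ m
  · obtain ⟨j, rfl⟩ := h
    rw [phT_coeff hp, HahnSeries.C_apply, HahnSeries.C_apply]
    by_cases h : j = 0
    · subst h; rw [HahnSeries.coeff_single_same, mul_zero, HahnSeries.coeff_single_same]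
    · have h2 : (p : ℤ) * j ≠ 0 := mul_ne_zero (by exact_mod_cast hp.ne') h
      rw [HahnSeries.coeff_single_of_ne h, HahnSeries.coeff_single_of_ne h2, map_zero]
  · rw [phT_coeff_ne hp _ _ _ h, HahnSeries.C_apply, HahnSeries.coeff_single_of_ne]
    rintro rfl
    exact h (dvd_zero _)

lemma phO_wO {p : ℕ} (hp : 0 < p) : phO q R p (wO q R) = wO q R ^ p := by
  rw [wO_pow]
  apply HahnSeries.ext
  funext m
  unfold phO wO tt
  by_cases h : (p : ℤ) ∣ m
  · obtain ⟨j, rfl⟩ := h
    rw [phT_coeff hp]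
    by_cases h : j = 1
    · subst h; rw [HahnSeries.coeff_single_same, mul_one, HahnSeries.coeff_single_same, map_one]
    · have h2 : (p : ℤ) * j ≠ p := by
        intro h3
        apply h
        have hp' : (p : ℤ) ≠ 0 := by exact_mod_cast hp.ne'
        exact mul_left_cancel₀ hp' (by rw [h3, mul_one])
      rw [HahnSeries.coeff_single_of_ne h, HahnSeries.coeff_single_of_ne h2, map_zero]
  · rw [phT_coeff_ne hp _ _ _ h, HahnSeries.coeff_single_of_ne]
    rintro rfl
    exact h (dvd_refl _)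

lemma phO_evw {p : ℕ} (hp : 0 < p) (P : Polynomial (CC q R)) :
    phO q R p (evw P) = evw (Polynomial.expand _ p (P.map (phC q R p))) := by
  unfold evw
  rw [Polynomial.hom_eval₂, phO_wO hp, Polynomial.expand_eq_comp_X_pow, Polynomial.eval₂_comp,
    Polynomial.eval₂_X_pow, Polynomial.eval₂_map]
  congr 1
  ext a : 1
  exact phO_C hp a

/-- polynomials in `w` of degree `≤ D` as values -/
lemma degO_evw {P : Polynomial (CC q R)} {D : ℕ} (h : P.natDegree ≤ D) : DegO D (evw P) := by
  unfold evw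
  rw [Polynomial.eval₂_eq_sum_range]
  apply DegO.sum
  intro i hi
  rw [Finset.mem_range] at hi
  have h1 : DegO i ((wO q R) ^ i) := by
    rw [wO_pow]
    intro m hm
    rw [HahnSeries.coeff_single_of_ne (by omega)]
  have h2 := (degO_C (P.coeff i)).mul h1
  exact h2.mono (by omega)

lemma evw_of_degO {x : OO q R} {D : ℕ} (h : DegO D x) :
    ∃ P : Polynomial (CC q R), P.natDegree ≤ D ∧ evw P = x := by
  classical
  refine ⟨∑ i ∈ Finset.range (D + 1), Polynomial.C (x.coeff i) * Polynomial.X ^ i, ?_, ?_⟩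
  · apply Polynomial.natDegree_sum_le_of_forall_le
    intro i hi
    rw [Finset.mem_range] at hi
    exact (Polynomial.natDegree_C_mul_X_pow_le _ _).trans (by omega)
  · apply HahnSeries.ext
    funext m
    unfold evw
    rw [Polynomial.eval₂_finsetSum, HahnSeries.coeff_sum]
    have h1 : ∀ i ∈ Finset.range (D + 1), ((Polynomial.eval₂ HahnSeries.C (wO q R)
        (Polynomial.C (x.coeff i) * Polynomial.X ^ i) : OO q R)).coeff m =
          if (i : ℤ) = m then x.coeff m else 0 := by
      intro i _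
      rw [Polynomial.eval₂_mul, Polynomial.eval₂_C, Polynomial.eval₂_X_pow, wO_pow,
        HahnSeries.C_mul_eq_smul, HahnSeries.coeff_smul, smul_eq_mul]
      by_cases h : (i : ℤ) = m
      · subst h
        rw [HahnSeries.coeff_single_same, mul_one, if_pos rfl]
      · rw [HahnSeries.coeff_single_of_ne (by
          intro h'
          exact h h'.symm), mul_zero, if_neg h]
    rw [Finset.sum_congr rfl h1]
    by_cases h2 : m < 0 ∨ (D : ℤ) < m
    · rw [h m h2]
      apply Finset.sum_eq_zero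
      intro i _
      split_ifs <;> rfl
    · push Not at h2
      obtain ⟨k, rfl⟩ := Int.eq_ofNat_of_zero_le h2.1
      have hk : k ∈ Finset.range (D + 1) := by
        rw [Finset.mem_range]
        have := h2.2
        omega
      rw [Finset.sum_eq_single_of_mem k hk]
      · simp
      · intro i _ hi
        rw [if_neg]
        intro h'
        exact hi (by exact_mod_cast h')

end

/-- Frobenius lift on `OO` -/
lemma phO_lift {q p : ℕ} [Fact p.Prime] (hfrb : FrbStmt) (x : OO q ℤ_[p]) :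
    (p : OO q ℤ_[p]) ∣ phO q ℤ_[p] p x - x ^ p := by
  have hp := (Fact.out : p.Prime).pos
  obtain ⟨y, hy⟩ := (hfrb q p).1.lift (HahnSeries.C x : LL q ℤ_[p])
  have h1 : phL q ℤ_[p] p (HahnSeries.C x : LL q ℤ_[p]) = HahnSeries.C (phO q ℤ_[p] p x) := by
    apply HahnSeries.ext
    funext m
    unfold phL
    by_cases h : (p : ℤ) ∣ m
    · obtain ⟨j, rfl⟩ := h
      rw [phT_coeff hp, HahnSeries.C_apply, HahnSeries.C_apply]
      by_cases h : j = 0
      · subst h; rw [HahnSeries.coeff_single_same, mul_zero, HahnSeries.coeff_single_same]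
      · have h2 : (p : ℤ) * j ≠ 0 := mul_ne_zero (by exact_mod_cast hp.ne') h
        rw [HahnSeries.coeff_single_of_ne h, HahnSeries.coeff_single_of_ne h2, map_zero]
    · rw [phT_coeff_ne hp _ _ _ h, HahnSeries.C_apply, HahnSeries.coeff_single_of_ne]
      rintro rfl
      exact h (dvd_zero _)
  rw [h1, ← map_pow, ← map_sub] at hy
  have h2 : (HahnSeries.C (phO q ℤ_[p] p x - x ^ p) : LL q ℤ_[p]).coeff 0 =
      ((p : LL q ℤ_[p]) * y).coeff 0 := by rw [hy]
  rw [HahnSeries.C_apply, HahnSeries.coeff_single_same] at h2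
  rw [h2]
  refine ⟨y.coeff 0, ?_⟩
  have : (p : LL q ℤ_[p]) = HahnSeries.C (p : OO q ℤ_[p]) := by
    rw [map_natCast]
  rw [this, HahnSeries.C_mul_eq_smul, HahnSeries.coeff_smul, smul_eq_mul]

/-- the algebra: `A β` modulo `p^N` -/
lemma inv_expand {S : Type} [CommRing S] (p N : ℕ) (hp : 0 < p) (A b β fb fβ B1 : S) (h : b * β = 1)
    (hf : fb * fβ = 1) (hB : fb - b ^ p = (p : S) * B1) :
    (p : S) ^ N ∣ A * β - ∑ i ∈ Finset.range N, A * b ^ (p - 1) * (fb - b ^ p) ^ i * fβ ^ (i + 1) := by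
  set z := (fb - b ^ p) * fβ with hz
  have h1 : b ^ p = fb * (1 - z) := by
    rw [hz, mul_sub, mul_one]
    calc b ^ p = fb - (fb - b ^ p) * 1 := by ring
      _ = fb - (fb - b ^ p) * (fb * fβ) := by rw [hf]
      _ = _ := by ring
  have h2 : (∑ i ∈ Finset.range N, z ^ i) * (1 - z) = 1 - z ^ N := by
    have := geom_sum_mul z N
    linear_combination -this
  have h3 : b ^ p * β ^ p = 1 := by rw [← mul_pow, h, one_pow]
  have h4 : β ^ p * (1 - z ^ N) = fβ * ∑ i ∈ Finset.range N, z ^ i := by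
    rw [← h2]
    calc β ^ p * ((∑ i ∈ Finset.range N, z ^ i) * (1 - z))
        = β ^ p * ((∑ i ∈ Finset.range N, z ^ i) * (1 - z)) * (fb * fβ) := by rw [hf, mul_one]
      _ = (fb * (1 - z)) * β ^ p * (fβ * ∑ i ∈ Finset.range N, z ^ i) := by ring
      _ = fβ * ∑ i ∈ Finset.range N, z ^ i := by rw [← h1, h3, one_mul]
  have h5 : b ^ (p - 1) * β ^ p = β := by
    obtain ⟨k, rfl⟩ : ∃ k, p = k + 1 := ⟨p - 1, by omega⟩
    rw [Nat.add_sub_cancel, pow_succ β k, ← mul_assoc, ← mul_pow, h, one_pow, one_mul]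
  have h6 : A * β - ∑ i ∈ Finset.range N, A * b ^ (p - 1) * (fb - b ^ p) ^ i * fβ ^ (i + 1) =
      A * b ^ (p - 1) * β ^ p * z ^ N := by
    have h7 : ∑ i ∈ Finset.range N, A * b ^ (p - 1) * (fb - b ^ p) ^ i * fβ ^ (i + 1) =
        A * b ^ (p - 1) * (fβ * ∑ i ∈ Finset.range N, z ^ i) := by
      rw [Finset.mul_sum, Finset.mul_sum]
      apply Finset.sum_congr rfl
      intro i _
      rw [hz, mul_pow]
      ring
    rw [h7, ← h4]
    calc A * β - A * b ^ (p - 1) * (β ^ p * (1 - z ^ N))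
        = A * β - A * (b ^ (p - 1) * β ^ p) + A * b ^ (p - 1) * β ^ p * z ^ N := by ring
      _ = _ := by rw [h5]; ring
  rw [h6, hz, hB]
  refine ⟨A * b ^ (p - 1) * β ^ p * (B1 * fβ) ^ N, ?_⟩
  ring

/-- REP, part 2: elements of `kF` -/
theorem rep_kF (hspo : SpoStmt) (hfrb : FrbStmt) (q : ℕ) (K : Type) [Field K] [NumberField K]
    (u : OO q K) (hu : u ∈ kF q K) (N : ℕ) :
    ∃ (b : OO q K) (d p0 : ℕ), b ∈ kF q K ∧
      ∀ (p : ℕ) [Fact p.Prime], p0 ≤ p → ∀ (ι : K →+* ℚ_[p]) (u' b' : OO q ℤ_[p]),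
        mO q ι u = mO q (zq p) u' → mO q ι b = mO q (zq p) b' →
        ∃ g : ℕ → Polynomial (CC q ℤ_[p]), (∀ i < N, (g i).natDegree ≤ d * p) ∧
          (p : OO q ℤ_[p]) ^ N ∣ u' - ∑ i ∈ Finset.range N,
            evw (g i) * phO q ℤ_[p] p (b' ^ (i + 1)) := by
  classical
  obtain ⟨-, -, ⟨A, B, hA, hB, hB0, hAB⟩, -⟩ := hspo q K u hu
  have hb0 : evw B ≠ 0 := fun h => hB0 (evw_eq_zero h)
  have hbk : evw B ∈ kF q K := by
    unfold evw
    rw [Polynomial.eval₂_eq_sum_range]
    apply sum_mem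
    intro i _
    apply mul_mem
    · exact Subfield.subset_closure (Or.inl ⟨B.coeff i, hB i, rfl⟩)
    · have h0 : wO q K ∈ kF q K := Subfield.subset_closure (Or.inr rfl)
      exact pow_mem h0 i
  obtain ⟨p1, hp1⟩ := ev_all (Finset.range (A.natDegree + 1))
    (fun i p => ∀ [Fact p.Prime], ∀ ι : K →+* ℚ_[p], ∃ y : CC q ℤ_[p],
      mC q ι (A.coeff i) = mC q (zq p) y)
    (fun i _ => by
      obtain ⟨p0, hp0⟩ := hA i
      exact ⟨p0, fun p hp _ ι => hp0 p hp ι⟩)
  obtain ⟨p2, hp2⟩ := ev_all (Finset.range (B.natDegree + 1))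
    (fun i p => ∀ [Fact p.Prime], ∀ ι : K →+* ℚ_[p], ∃ y : CC q ℤ_[p],
      mC q ι (B.coeff i) = mC q (zq p) y)
    (fun i _ => by
      obtain ⟨p0, hp0⟩ := hB i
      exact ⟨p0, fun p hp _ ι => hp0 p hp ι⟩)
  refine ⟨(evw B)⁻¹, A.natDegree + B.natDegree + N * B.natDegree, max p1 p2,
    (kF q K).inv_mem hbk, ?_⟩
  intro p _ hp ι u' b' hu' hb'
  have hpp := (Fact.out : p.Prime).pos
  have lift : ∀ (P : Polynomial (CC q K)), (∀ i ∈ Finset.range (P.natDegree + 1),
      ∃ y : CC q ℤ_[p], mC q ι (P.coeff i) = mC q (zq p) y) →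
      ∃ P' : Polynomial (CC q ℤ_[p]), P'.natDegree ≤ P.natDegree ∧
        P.map (mC q ι) = P'.map (mC q (zq p)) := by
    intro P hP
    choose! y hy using hP
    refine ⟨∑ i ∈ Finset.range (P.natDegree + 1), Polynomial.C (y i) * Polynomial.X ^ i, ?_, ?_⟩
    · apply Polynomial.natDegree_sum_le_of_forall_le
      intro i hi
      rw [Finset.mem_range] at hi
      exact (Polynomial.natDegree_C_mul_X_pow_le _ _).trans (by omega)
    · conv_lhs => rw [P.as_sum_range_C_mul_X_pow]
      rw [Polynomial.map_sum, Polynomial.map_sum]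
      apply Finset.sum_congr rfl
      intro i hi
      rw [Polynomial.map_mul, Polynomial.map_mul, Polynomial.map_C, Polynomial.map_C,
        Polynomial.map_pow, Polynomial.map_X, Polynomial.map_pow, Polynomial.map_X, hy i hi]
  obtain ⟨A', hA1, hA2⟩ := lift A (fun i hi => hp1 p ((le_max_left _ _).trans hp) i hi ι)
  obtain ⟨B', hB1, hB2⟩ := lift B (fun i hi => hp2 p ((le_max_right _ _).trans hp) i hi ι)
  have hA3 : mO q ι (evw A) = mO q (zq p) (evw A') := by rw [mO_evw, mO_evw, hA2]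
  have hB3 : mO q ι (evw B) = mO q (zq p) (evw B') := by rw [mO_evw, mO_evw, hB2]
  have h1 : evw B' * b' = 1 := by
    apply mO_zq_inj
    rw [map_mul, ← hB3, ← hb', ← map_mul, mul_inv_cancel₀ hb0, map_one, map_one]
  have h2 : u' * evw B' = evw A' := by
    apply mO_zq_inj
    rw [map_mul, ← hu', ← hB3, ← hA3, ← map_mul]
    exact congrArg _ hAB
  have h3 : u' = evw A' * b' := by
    rw [← h2, mul_assoc, h1, mul_one]
  have h4 : phO q ℤ_[p] p (evw B') * phO q ℤ_[p] p b' = 1 := by
    rw [← map_mul, h1, map_one]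
  obtain ⟨B1, hB1'⟩ := phO_lift hfrb (evw B')
  have h5 := inv_expand p N hpp (evw A') (evw B') b' (phO q ℤ_[p] p (evw B'))
    (phO q ℤ_[p] p b') B1 h1 h4 hB1'
  refine ⟨fun i => A' * B' ^ (p - 1) *
    (Polynomial.expand _ p (B'.map (phC q ℤ_[p] p)) - B' ^ p) ^ i, ?_, ?_⟩
  · intro i hi
    have e1 : (Polynomial.expand _ p (B'.map (phC q ℤ_[p] p)) - B' ^ p).natDegree ≤
        B.natDegree * p := by
      refine (Polynomial.natDegree_sub_le _ _).trans (max_le ?_ ?_)
      · rw [Polynomial.natDegree_expand]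
        exact Nat.mul_le_mul_right _ (Polynomial.natDegree_map_le.trans hB1)
      · refine Polynomial.natDegree_pow_le.trans ?_
        rw [mul_comm]
        exact Nat.mul_le_mul_right _ hB1
    calc (A' * B' ^ (p - 1) *
        (Polynomial.expand _ p (B'.map (phC q ℤ_[p] p)) - B' ^ p) ^ i).natDegree
        ≤ (A'.natDegree + (p - 1) * B'.natDegree) + i * (B.natDegree * p) := by
          refine Polynomial.natDegree_mul_le.trans (add_le_add ?_ ?_)
          · exact Polynomial.natDegree_mul_le.trans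
              (add_le_add le_rfl Polynomial.natDegree_pow_le)
          · exact Polynomial.natDegree_pow_le.trans (Nat.mul_le_mul_left _ e1)
      _ ≤ (A.natDegree * p + p * B.natDegree) + N * (B.natDegree * p) := by
          refine add_le_add (add_le_add ?_ ?_) (Nat.mul_le_mul_right _ hi.le)
          · exact hA1.trans (Nat.le_mul_of_pos_right _ hpp)
          · exact Nat.mul_le_mul (Nat.sub_le _ _) hB1
      _ = (A.natDegree + B.natDegree + N * B.natDegree) * p := by ring
  · rw [h3]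
    have h6 : ∑ i ∈ Finset.range N, evw (A' * B' ^ (p - 1) *
        (Polynomial.expand _ p (B'.map (phC q ℤ_[p] p)) - B' ^ p) ^ i) *
          phO q ℤ_[p] p (b' ^ (i + 1)) = ∑ i ∈ Finset.range N, evw A' * evw B' ^ (p - 1) *
          (phO q ℤ_[p] p (evw B') - evw B' ^ p) ^ i * phO q ℤ_[p] p b' ^ (i + 1) := by
      apply Finset.sum_congr rfl
      intro i _
      rw [evw_mul, evw_mul, evw_pow, evw_pow, evw_sub, evw_pow, ← phO_evw hpp, map_pow]
    rw [h6]
    exact h5

end Pool.Agent.Helper95_CM
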