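import Mathlib

/-!
# Series rings for the CM project (MP_31342c_an)

`CC q R`, `OO q R`, `LL q R`: iterated Hahn series; the maps induced by ring homomorphisms,
the lifts of Frobenius, the logarithmic derivations, and the contraction operators.
-/

set_option autoImplicit false
set_option linter.unusedSectionVars false

noncomputable section

namespace Pool.Agent.Helper95_CM

open HahnSeries

section General

variable {G : Type} [AddCommGroup G] [LinearOrder G] [IsOrderedAddMonoid G]

/-- the ring homomorphism of Hahn series induced by a ring homomorphism of coefficients -/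
def hmap {R S : Type} [CommRing R] [CommRing S] (f : R →+* S) :
    HahnSeries G R →+* HahnSeries G S where
  toFun x := x.map f
  map_one' := by
    ext g
    by_cases h : g = 0
    · subst h; simp [HahnSeries.map]
    · simp [HahnSeries.map, HahnSeries.coeff_one, h]
  map_mul' x y := by
    ext g
    simp only [HahnSeries.map_coeff]
    rw [HahnSeries.coeff_mul, map_sum]
    have hx : (x.map f).support ⊆ x.support := by
      intro a ha
      simp only [HahnSeries.mem_support, HahnSeries.map_coeff] at ha ⊢
      intro h0
      apply ha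
      rw [h0, map_zero]
    have hy : (y.map f).support ⊆ y.support := by
      intro a ha
      simp only [HahnSeries.mem_support, HahnSeries.map_coeff] at ha ⊢
      intro h0
      apply ha
      rw [h0, map_zero]
    rw [HahnSeries.coeff_mul_left' x.isPWO_support hx]
    symm
    apply Finset.sum_subset_zero_on_sdiff
    · intro a ha
      simp only [Finset.mem_antidiagonal] at ha ⊢
      exact ⟨ha.1, hy ha.2.1, ha.2.2⟩
    · intro a ha
      simp only [Finset.mem_sdiff, Finset.mem_antidiagonal, not_and] at ha
      obtain ⟨⟨h1, h2, h3⟩, h4⟩ := ha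
      have : (y.map f).coeff a.2 = 0 := by
        by_contra hne
        exact h4 h1 hne h3
      rw [HahnSeries.map_coeff] at this
      rw [map_mul, this, mul_zero]
    · intro a _
      rw [map_mul]
      rfl
  map_zero' := by
    ext g
    simp [HahnSeries.map]
  map_add' x y := by
    ext g
    simp [HahnSeries.map]

@[simp] lemma hmap_coeff {R S : Type} [CommRing R] [CommRing S] (f : R →+* S)
    (x : HahnSeries G R) (g : G) : (hmap f x).coeff g = f (x.coeff g) := rfl

/-- the additive map of Hahn series induced by an additive map of coefficients -/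
def cwA {R S : Type} [CommRing R] [CommRing S] (d : R →+ S) :
    HahnSeries G R →+ HahnSeries G S where
  toFun x := x.map d
  map_zero' := by ext g; simp [HahnSeries.map]
  map_add' x y := by ext g; simp [HahnSeries.map]

@[simp] lemma cwA_coeff {R S : Type} [CommRing R] [CommRing S] (d : R →+ S)
    (x : HahnSeries G R) (g : G) : (cwA d x).coeff g = d (x.coeff g) := rfl

/-- logarithmic derivation attached to a homomorphism `G → ℤ` -/
def hw {R : Type} [CommRing R] (e : G →+ ℤ) : HahnSeries G R →+ HahnSeries G R where
  toFun x :=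
    { coeff := fun g => (e g : R) * x.coeff g
      isPWO_support' := x.isPWO_support.mono (by
        intro g hg h0
        apply hg
        simp [h0]) }
  map_zero' := by ext g; simp
  map_add' x y := by ext g; simp [mul_add]

@[simp] lemma hw_coeff {R : Type} [CommRing R] (e : G →+ ℤ)
    (x : HahnSeries G R) (g : G) : (hw e x).coeff g = (e g : R) * x.coeff g := rfl

lemma smul_pos_inj {p : ℕ} (hp : 0 < p) : Function.Injective (fun g : G => p • g) := by
  intro a b h
  exact (smul_right_injective G hp.ne') h

lemma smul_le_iff {p : ℕ} (hp : 0 < p) (a b : G) : p • a ≤ p • b ↔ a ≤ b := by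
  constructor
  · intro h
    by_contra hlt
    rw [not_le] at hlt
    exact absurd h (not_le.mpr (nsmul_lt_nsmul_right hp.ne' hlt))
  · intro h
    exact nsmul_le_nsmul_right h p

/-- multiplication of all exponents by `p` (identity if `p = 0`) -/
def hphi (R : Type) [CommRing R] (p : ℕ) : HahnSeries G R →+* HahnSeries G R :=
  if hp : 0 < p then
    HahnSeries.embDomainRingHom (nsmulAddMonoidHom p) (smul_pos_inj hp) (smul_le_iff hp)
  else RingHom.id _

lemma hphi_coeff {R : Type} [CommRing R] {p : ℕ} (hp : 0 < p) (x : HahnSeries G R) (g : G) :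
    (hphi R p x).coeff (p • g) = x.coeff g := by
  unfold hphi
  rw [dif_pos hp]
  exact HahnSeries.embDomain_coeff

lemma hphi_coeff_ne {R : Type} [CommRing R] {p : ℕ} (hp : 0 < p) (x : HahnSeries G R) (g : G)
    (h : ∀ g', p • g' ≠ g) : (hphi R p x).coeff g = 0 := by
  unfold hphi
  rw [dif_pos hp]
  apply HahnSeries.embDomain_of_notMem_range
  rintro ⟨g', hg'⟩
  exact h g' hg'

/-- contraction of the exponents by `p` -/
def hpsi {R : Type} [CommRing R] (p : ℕ) : HahnSeries G R →+ HahnSeries G R :=
  if hp : 0 < p then
  { toFun := fun x =>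
    { coeff := fun g => x.coeff (p • g)
      isPWO_support' := by
        rw [Set.isPWO_iff_isWF]
        have h := (Set.isPWO_iff_isWF.mp x.isPWO_support)
        rw [Set.isWF_iff_no_descending_seq] at h ⊢
        intro f hf hmem
        refine h (fun k => p • f k) ?_ ?_
        · intro a b hab
          exact nsmul_lt_nsmul_right hp.ne' (hf hab)
        · intro k
          exact hmem k }
    map_zero' := by ext g; simp
    map_add' := fun x y => by ext g; simp }
  else AddMonoidHom.id _

lemma hpsi_coeff {R : Type} [CommRing R] {p : ℕ} (hp : 0 < p) (x : HahnSeries G R) (g : G) :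
    (hpsi p x).coeff g = x.coeff (p • g) := by
  unfold hpsi
  rw [dif_pos hp]
  rfl

end General


/-! ### Laurent series over a ring: `t d/dt`, lift of Frobenius -/

/-- `t d/dt` on Laurent series -/
def tht (R : Type) [CommRing R] : LaurentSeries R →+ LaurentSeries R := hw (AddMonoidHom.id ℤ)

@[simp] lemma tht_coeff {R : Type} [CommRing R] (x : LaurentSeries R) (m : ℤ) :
    (tht R x).coeff m = (m : R) * x.coeff m := rfl

/-- `φ(Σ x_m t^m) = Σ φ₀(x_m) t^(pm)` -/
def phT {R : Type} [CommRing R] (p : ℕ) (f : R →+* R) : LaurentSeries R →+* LaurentSeries R :=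
  (hphi R p).comp (hmap f)

lemma phT_coeff {R : Type} [CommRing R] {p : ℕ} (hp : 0 < p) (f : R →+* R)
    (x : LaurentSeries R) (m : ℤ) : (phT p f x).coeff ((p : ℤ) * m) = f (x.coeff m) := by
  have := hphi_coeff (R := R) hp (hmap f x) m
  rw [nsmul_eq_mul] at this
  exact this

lemma phT_coeff_ne {R : Type} [CommRing R] {p : ℕ} (hp : 0 < p) (f : R →+* R)
    (x : LaurentSeries R) (m : ℤ) (h : ¬ (p : ℤ) ∣ m) : (phT p f x).coeff m = 0 := by
  apply hphi_coeff_ne hp
  intro g' hg'
  apply h
  rw [← hg', nsmul_eq_mul]
  exact dvd_mul_right _ _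

/-- the variable -/
def tt (R : Type) [CommRing R] : LaurentSeries R := HahnSeries.single (1 : ℤ) 1

/-- `x` has no terms of exponent `< m` -/
def OrdGe {R : Type} [CommRing R] (m : ℤ) (x : LaurentSeries R) : Prop :=
  ∀ i : ℤ, i < m → x.coeff i = 0

/-! ### The iterated series rings -/

/-- exponents of the generic parameters -/
abbrev Gam (q : ℕ) := Lex (Fin q → ℤ)

/-- Hahn series in the generic parameters `c'` -/
abbrev CC (q : ℕ) (R : Type) [CommRing R] := HahnSeries (Gam q) R

/-- Laurent series in `w` over `CC` -/
abbrev OO (q : ℕ) (R : Type) [CommRing R] := LaurentSeries (CC q R)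

/-- Laurent series in `t` over `OO` -/
abbrev LL (q : ℕ) (R : Type) [CommRing R] := LaurentSeries (OO q R)

instance instCRCC (q : ℕ) (R : Type) [CommRing R] : CommRing (CC q R) :=
  inferInstanceAs (CommRing (HahnSeries (Gam q) R))
instance instCROO (q : ℕ) (R : Type) [CommRing R] : CommRing (OO q R) :=
  inferInstanceAs (CommRing (HahnSeries ℤ (CC q R)))
instance instCRLL (q : ℕ) (R : Type) [CommRing R] : CommRing (LL q R) :=
  inferInstanceAs (CommRing (HahnSeries ℤ (OO q R)))

instance instFieldCC (q : ℕ) (K : Type) [Field K] : Field (CC q K) :=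
  inferInstanceAs (Field (HahnSeries (Gam q) K))
instance instFieldOO (q : ℕ) (K : Type) [Field K] : Field (OO q K) :=
  inferInstanceAs (Field (HahnSeries ℤ (CC q K)))
instance instFieldLL (q : ℕ) (K : Type) [Field K] : Field (LL q K) :=
  inferInstanceAs (Field (HahnSeries ℤ (OO q K)))

section maps
variable (q : ℕ) {R S : Type} [CommRing R] [CommRing S]

def mC (f : R →+* S) : CC q R →+* CC q S := hmap f
def mO (f : R →+* S) : OO q R →+* OO q S := hmap (mC q f)
def mL (f : R →+* S) : LL q R →+* LL q S := hmap (mO q f)

variable (R)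

def phC (p : ℕ) : CC q R →+* CC q R := hphi R p
def phO (p : ℕ) : OO q R →+* OO q R := phT p (phC q R p)
abbrev phL (p : ℕ) : LL q R →+* LL q R := phT p (phO q R p)

/-- contraction by `p` of all exponents -/
def psC (p : ℕ) : CC q R →+ CC q R := hpsi p
def psO (p : ℕ) : OO q R →+ OO q R := (hpsi p).comp (cwA (psC q R p))
def psL (p : ℕ) : LL q R →+ LL q R := (hpsi p).comp (cwA (psO q R p))

/-- the `i`-th coordinate of the exponent -/
def gco (i : Fin q) : Gam q →+ ℤ where
  toFun g := (ofLex g) i
  map_zero' := rfl
  map_add' _ _ := rfl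

/-- logarithmic derivation with respect to the `i`-th generic parameter -/
def thC (i : Fin q) : CC q R →+ CC q R := hw (gco q i)
def thOc (i : Fin q) : OO q R →+ OO q R := cwA (thC q R i)
def thLc (i : Fin q) : LL q R →+ LL q R := cwA (thOc q R i)

/-- `w d/dw` -/
def thOw : OO q R →+ OO q R := tht (CC q R)
def thLw : LL q R →+ LL q R := cwA (thOw q R)

/-- `t d/dt` -/
abbrev thLt : LL q R →+ LL q R := tht (OO q R)

/-- the `i`-th generic parameter -/
def vC (i : Fin q) : CC q R := HahnSeries.single (toLex (Pi.single i (1 : ℤ))) 1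
def vL (i : Fin q) : LL q R := HahnSeries.C (HahnSeries.C (vC q R i))
def wO : OO q R := tt (CC q R)
def wL : LL q R := HahnSeries.C (wO q R)
def tL : LL q R := tt (OO q R)
/-- constants -/
def kL : R →+* LL q R := (HahnSeries.C).comp ((HahnSeries.C).comp HahnSeries.C)
def kO : R →+* OO q R := (HahnSeries.C).comp HahnSeries.C

/-- substitution `t ↦ t^D` -/
def tsub (D : ℕ) : LL q R →+* LL q R := hphi (OO q R) D

end maps

end Pool.Agent.Helper95_CM
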